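import Pool.Agent.Lib.TC.Defs

/-!
# Module TC.Conv: from `EMB` and `EMB2` to `EMB3`; the trivial valuation

PROOFS.
* `EMB3_of_EMB2`: `EMB2` gives `g, u, gs` with `gs.card = h` and `GoodPar2`.  Choose
  `e : Fin h ≃ gs` (`(Fintype.equivFinOfCardEq (by rw [Fintype.card_coe, hgs])).symm`) and put
  `w j = (e j : K)`.  `gen`: as in `emb2_to_subalgebra` (Pool/Agent/Lib/MP_3029eb_ag/ImpSub.lean, the lines
  `hsum`): `∑ y ∈ gs, d y * y = ∑ j, d (e j) * e j`.  `dim`: from the equality in `GoodPar2`.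
* `EMB3_of_EMB`: `h = 0`, `w = Fin.elim0`.  `dim`: `ineq V B hBV hBloc u hG.ind (fun i => u i / 1)` of
  Pool/Agent/Lib/MP_3029eb_ag/AbhAll.lean for the ring `B = locV V (closure (A ∪ g))`, which is noetherian
  (`isNoetherianRing_closure`, `isNoetherianRing_locV`) and contained in `V` (`closure_le_val`, `locV_le`), with
  `locV V B = B` (`locV_locV`).
* `EMB3_top`: copy of `EMB_top` in Pool/Agent/Lib/MP_3029eb_ag/AbhE10.lean with `h = 0`; `dim`: `0 ≤ ringKrullDim A`
  since `A` is nontrivial (`ringKrullDim_nonneg_of_nontrivial`).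
-/

open IsLocalRing

namespace TC
open Pool.Agent.Lib.MP_3029eb_ag Pool.Agent.Lib.MP_3029eb_ag.Abh

theorem EMB3_of_EMB2 {K : Type} [Field K] {V : ValuationSubring K} {A : Subring K} {r h : ℕ}
    (H : Imp.EMB2 V A r h) : EMB3 V A r := by
  intro s hs
  obtain ⟨g, u, gs, hg, hgs, hG, hM⟩ := H s hs
  have e : Fin h ≃ gs := (Fintype.equivFinOfCardEq (by rw [Fintype.card_coe, hgs])).symm
  refine ⟨g, h, u, fun j => (e j : K), hg, ?_, hM⟩
  refine ⟨hG.ind, hG.mem, hG.lt, fun j => hG.gmem _ (e j).2, fun j => hG.glt _ (e j).2, ?_, ?_,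
    hG.den⟩
  · intro z hz hz1
    obtain ⟨c, d, hc, hd, hz'⟩ := hG.gen z hz hz1
    refine ⟨c, fun j => d (e j), hc, fun j => hd _, ?_⟩
    rw [hz']
    congr 1
    rw [← Finset.sum_coe_sort gs (fun y => d y * y)]
    exact (Equiv.sum_comp e (fun y : gs => d (y : K) * (y : K))).symm
  · rw [hG.dim, hgs, Nat.add_comm r h]
    exact le_rfl

theorem EMB3_of_EMB {K : Type} [Field K] {V : ValuationSubring K} {A : Subring K}
    [IsNoetherianRing A] (hA : A ≤ V.toSubring) {r : ℕ} (H : EMB V A r) : EMB3 V A r := by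
  intro s hs
  obtain ⟨g, u, hg, hG, hM⟩ := H s hs
  refine ⟨g, 0, u, Fin.elim0, hg, ?_, hM⟩
  refine ⟨hG.ind, hG.mem, hG.lt, fun j => j.elim0, fun j => j.elim0, ?_, ?_, hG.den⟩
  · intro z hz hz1
    obtain ⟨c, hc, hz'⟩ := hG.gen z hz hz1
    refine ⟨c, Fin.elim0, hc, fun j => j.elim0, ?_⟩
    rw [hz']
    simp
  · have hcl : Subring.closure ((A : Set K) ∪ (g : Set K)) ≤ V.toSubring :=
      closure_le_val V A hA _ fun t ht => hg t ht
    have n1 : IsNoetherianRing (Subring.closure ((A : Set K) ∪ (g : Set K))) :=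
      isNoetherianRing_closure g
    have n2 : IsNoetherianRing (locV V (Subring.closure ((A : Set K) ∪ (g : Set K)))) :=
      isNoetherianRing_locV V
    rw [Nat.add_zero]
    exact ineq V _ (locV_le V hcl) (locV_locV V _) u hG.ind
      fun i => ⟨u i, hG.mem i, 1, one_mem _, one_ne_zero, mul_one _⟩

theorem EMB3_top {K : Type} [Field K] (V : ValuationSubring K) (hV : V = ⊤) (A : Subring K)
    (hloc : locV V A = A) : EMB3 V A 0 := by
  have hval : ∀ z : K, z ≠ 0 → V.valuation z = 1 := by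
    intro z hz
    rw [C1_val_one_iff]
    refine ⟨?_, ?_, hz⟩ <;> rw [hV] <;> exact ValuationSubring.mem_top _
  intro s hs
  have hset : locV V (Subring.closure ((A : Set K) ∪ ((∅ : Finset K) : Set K))) = A := by
    rw [Finset.coe_empty, Set.union_empty, Subring.closure_eq, hloc]
  refine ⟨∅, 0, Fin.elim0, Fin.elim0, fun t ht => absurd ht (Finset.notMem_empty t), ?_, ?_⟩
  · rw [hset]
    refine ⟨⟨fun i => i.elim0, fun δ _ => funext fun i => i.elim0⟩, fun i => i.elim0,
      fun i => i.elim0, fun i => i.elim0, fun i => i.elim0,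
      fun z _ hz1 => ⟨Fin.elim0, Fin.elim0, fun i => i.elim0, fun i => i.elim0, ?_⟩,
      ?_, fun z hz => ⟨1, A.one_mem, MonV.one, by rw [one_mul]; exact hz⟩⟩
    · by_contra hne
      have h0 : z ≠ 0 := by
        intro h0
        apply hne
        rw [h0]
        simp
      rw [hval z h0] at hz1
      exact lt_irrefl _ hz1
    · rw [Nat.add_zero, Nat.cast_zero]
      exact ringKrullDim_nonneg_of_nontrivial
  · rw [hset]
    intro f hf
    obtain ⟨hf0, _, a, ha, b, hb, hb0, hab⟩ := hs f hf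
    refine MonV.of_unit ?_ (hval f hf0)
    rw [← hloc]
    exact ⟨a, ha, b, hb, hval b hb0, hab⟩

/-- the trivial valuation -/
theorem Unif_top {Rb K : Type} [CommRing Rb] [Field K] (φ : Rb →+* K) : Unif φ (⊤ : ValuationSubring K) 0 :=
  fun A _ hloc _ _ _ _ => EMB3_top ⊤ rfl A hloc

end TC
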