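import Pool.Agent.Lib.TC.Defs

/-!
# Module TC.Trans: elementary reductions

PROOFS: copies of `EMB_trans` and `EMB_map` in Pool/Agent/Lib/MP_3029eb_ag/AbhE10.lean, with the additional
parameters `w` carried along (`wmem`, `wlt`, `gen` in the same way as for `u`).
* `EMB3d_trans`: the final ring is the same ring, so `dim`, `gen` and the property `D` are unchanged.
* `EMB3_map`: `w j = φ (w0 j)`; `dim`: the ring `B` is the image of `B0` under the injective homomorphism `φ`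
  (`hmem` in the proof of `EMB_map`), so `B ≃+* B0` (for instance `RingEquiv.ofBijective` of the restriction of `φ`)
  and `ringKrullDim_eq_of_ringEquiv`.
-/

open IsLocalRing

namespace TC
open Pool.Agent.Lib.MP_3029eb_ag Pool.Agent.Lib.MP_3029eb_ag.Abh

open Classical in
theorem EMB3d_trans {K : Type} [Field K] (V : ValuationSubring K) (A : Subring K) (g : Finset K)
    (hg : ∀ t ∈ g, t ∈ V ∧ ∃ a ∈ A, ∃ b ∈ A, b ≠ 0 ∧ t * b = a) {r : ℕ} {D : WithBot ℕ∞ → Prop}
    (h : EMB3d V (locV V (Subring.closure ((A : Set K) ∪ (g : Set K)))) r D)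
    (hA : A ≤ V.toSubring) : EMB3d V A r D := by
  intro s hs
  have hgf : ∀ f : K, ∃ a b : K, f ∈ g → a ∈ A ∧ b ∈ A ∧ b ≠ 0 ∧ f * b = a := by
    intro f
    by_cases hf : f ∈ g
    · obtain ⟨_, a, ha, b, hb, hb0, h⟩ := hg f hf
      exact ⟨a, b, fun _ => ⟨ha, hb, hb0, h⟩⟩
    · exact ⟨0, 0, fun h => absurd h hf⟩
  choose ag bg hag using hgf
  set B1 := Subring.closure ((A : Set K) ∪ (g : Set K)) with hB1
  set A1 := locV V B1 with hA1
  have hAB : A ≤ B1 := fun z hz => Subring.subset_closure (Or.inl hz)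
  have hB1A : B1 ≤ A1 := le_locV _ _
  have hAA1 : A ≤ A1 := hAB.trans hB1A
  obtain ⟨g', hh, u, w, hg', hD', hG, hM⟩ := h (s ∪ g.image bg) (by
    intro f hf
    rcases Finset.mem_union.1 hf with hf | hf
    · obtain ⟨h1, h2, a, ha, b, hb, hb0, h3⟩ := hs f hf
      exact ⟨h1, h2, a, hAA1 ha, b, hAA1 hb, hb0, h3⟩
    · obtain ⟨t, ht, rfl⟩ := Finset.mem_image.1 hf
      obtain ⟨h1, h2, h3, h4⟩ := hag t ht
      exact ⟨h3, hA h2, bg t, hAA1 h2, 1, A1.one_mem, one_ne_zero, mul_one _⟩)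
  have hset : locV V (Subring.closure ((A1 : Set K) ∪ (g' : Set K))) =
      locV V (Subring.closure ((A : Set K) ∪ ((g ∪ g' : Finset K) : Set K))) := by
    rw [hA1, locV_closure_locV (le_refl V), hB1, A2_closure_closure, Finset.coe_union]
  rw [hset] at hG hM hD'
  set A2 := locV V (Subring.closure ((A : Set K) ∪ ((g ∪ g' : Finset K) : Set K))) with hA2
  have hA12 : A1 ≤ A2 := by
    rw [← hset]
    exact fun z hz => le_locV _ _ (Subring.subset_closure (Or.inl hz))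
  refine ⟨g ∪ g', hh, u, w, ?_, hD', ?_, ?_⟩
  · intro t ht
    rcases Finset.mem_union.1 ht with ht | ht
    · exact (hg t ht).1
    · exact hg' t ht
  · refine ⟨hG.ind, hG.mem, hG.lt, hG.wmem, hG.wlt, hG.gen, hG.dim, fun z hz => ?_⟩
    have h1 : B1 ≤ denRing V A A2 u := by
      rw [hB1, Subring.closure_le]
      rintro x (hx | hx)
      · exact Den.of_mem hx
      · obtain ⟨h1, h2, h3, h4⟩ := hag x hx
        exact Den.div (Den.of_mem h1) (Den.of_mem h2)
          (hM _ (Finset.mem_union_right _ (Finset.mem_image_of_mem _ hx))) h4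
    have h2 : A1 ≤ denRing V A A2 u := locV_le_denRing h1 (hB1A.trans hA12)
    obtain ⟨D, hD, hDm, hDz⟩ := hG.den z hz
    exact Den.div (h2 hDz) (h2 hD) hDm (mul_comm _ _)
  · intro f hf
    exact hM f (Finset.mem_union_left _ hf)

theorem EMB3_trans {K : Type} [Field K] (V : ValuationSubring K) (A : Subring K) (g : Finset K)
    (hg : ∀ t ∈ g, t ∈ V ∧ ∃ a ∈ A, ∃ b ∈ A, b ≠ 0 ∧ t * b = a) {r : ℕ}
    (h : EMB3 V (locV V (Subring.closure ((A : Set K) ∪ (g : Set K)))) r)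
    (hA : A ≤ V.toSubring) : EMB3 V A r :=
  EMB3_iff.2 (EMB3d_trans V A g hg (EMB3_iff.1 h) hA)

open Classical in
theorem EMB3_map {K0 K : Type} [Field K0] [Field K] (φ : K0 →+* K)
    (V : ValuationSubring K) (V0 : ValuationSubring K0) (hV0 : ∀ z, z ∈ V0 ↔ φ z ∈ V)
    (hV0u : ∀ z, V0.valuation z = 1 ↔ V.valuation (φ z) = 1) (A : Subring K)
    (A0 : Subring K0) (hmap : A0.map φ = A) {r : ℕ}
    (hfrac : ∀ z : K0, ∃ a ∈ A0, ∃ b ∈ A0, b ≠ 0 ∧ z * b = a)
    (hsurj : ∀ z : K, (∃ a ∈ A, ∃ b ∈ A, b ≠ 0 ∧ z * b = a) → ∃ z0, φ z0 = z)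
    (h : EMB3 V0 A0 r) : EMB3 V A r := by
  intro s hs
  have hlift : ∀ f : K, ∃ f0 : K0, f ∈ s → φ f0 = f := by
    intro f
    by_cases hf : f ∈ s
    · obtain ⟨f0, hf0⟩ := hsurj f (hs f hf).2.2
      exact ⟨f0, fun _ => hf0⟩
    · exact ⟨0, fun h => absurd h hf⟩
  choose l hl using hlift
  obtain ⟨g0, hh, u0, w0, hg0, hG, hM⟩ := h (s.image l) (by
    intro f0 hf0
    obtain ⟨f, hf, rfl⟩ := Finset.mem_image.1 hf0
    obtain ⟨h1, h2, _⟩ := hs f hf
    refine ⟨?_, ?_, hfrac _⟩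
    · intro h0
      rw [← hl f hf, h0, map_zero] at h1
      exact h1 rfl
    · rw [hV0, hl f hf]; exact h2)
  have hcl : Subring.closure ((A : Set K) ∪ ((g0.image φ : Finset K) : Set K)) =
      (Subring.closure ((A0 : Set K0) ∪ (g0 : Set K0))).map φ := by
    rw [RingHom.map_closure, Set.image_union, Finset.coe_image, ← hmap]
    rfl
  have hmem : ∀ z : K, z ∈ locV V (Subring.closure ((A : Set K) ∪
      ((g0.image φ : Finset K) : Set K))) ↔
      ∃ z0 ∈ locV V0 (Subring.closure ((A0 : Set K0) ∪ (g0 : Set K0))), φ z0 = z := by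
    intro z
    rw [hcl]
    exact E10_locV_map φ V V0 hV0u _ z
  set B := locV V (Subring.closure ((A : Set K) ∪ ((g0.image φ : Finset K) : Set K)))
  set B0 := locV V0 (Subring.closure ((A0 : Set K0) ∪ (g0 : Set K0)))
  have hB : ∀ z ∈ B0, φ z ∈ B := fun z hz => (hmem _).2 ⟨z, hz, rfl⟩
  have hlt : ∀ z, V0.valuation z < 1 ↔ V.valuation (φ z) < 1 := by
    intro z
    constructor
    · intro h1
      have h2 : φ z ∈ V := (hV0 z).1 ((V0.valuation_le_one_iff z).1 h1.le)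
      exact lt_of_le_of_ne ((V.valuation_le_one_iff _).2 h2) fun h3 => h1.ne ((hV0u z).2 h3)
    · intro h1
      have h2 : z ∈ V0 := (hV0 z).2 ((V.valuation_le_one_iff _).1 h1.le)
      exact lt_of_le_of_ne ((V0.valuation_le_one_iff _).2 h2) fun h3 => h1.ne ((hV0u z).1 h3)
  have hdim : ringKrullDim B0 = ringKrullDim B := by
    let ψ : B0 →+* B := (φ.comp B0.subtype).codRestrict B fun z => hB z.1 z.2
    have hψ : Function.Bijective ψ := by
      constructor
      · intro a b hab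
        have h1 : φ (a : K0) = φ (b : K0) := congrArg (fun x : B => (x : K)) hab
        exact Subtype.ext (φ.injective h1)
      · intro b
        obtain ⟨z0, hz0, hz⟩ := (hmem _).1 b.2
        exact ⟨⟨z0, hz0⟩, Subtype.ext hz⟩
    exact ringKrullDim_eq_of_ringEquiv (RingEquiv.ofBijective ψ hψ)
  refine ⟨g0.image φ, hh, fun i => φ (u0 i), fun j => φ (w0 j), ?_, ?_, ?_⟩
  · intro t ht
    obtain ⟨t0, ht0, rfl⟩ := Finset.mem_image.1 ht
    exact (hV0 t0).1 (hg0 t0 ht0)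
  · refine ⟨⟨fun i => ?_, fun δ hδ => ?_⟩, fun i => hB _ (hG.mem i), fun i => (hlt _).1 (hG.lt i),
      fun j => hB _ (hG.wmem j), fun j => (hlt _).1 (hG.wlt j), ?_, ?_, ?_⟩
    · rw [Ne, map_eq_zero]; exact hG.ind.ne i
    · refine hG.ind.indep δ ?_
      rw [hV0u, map_monF]
      exact hδ
    · intro z hz hz1
      obtain ⟨z0, hz0, rfl⟩ := (hmem z).1 hz
      obtain ⟨c, d, hc, hd, hs⟩ := hG.gen z0 hz0 ((hlt z0).2 hz1)
      refine ⟨fun i => φ (c i), fun j => φ (d j), fun i => hB _ (hc i), fun j => hB _ (hd j), ?_⟩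
      rw [hs, map_add, map_sum, map_sum]
      congr 1
      · exact Finset.sum_congr rfl fun i _ => map_mul _ _ _
      · exact Finset.sum_congr rfl fun i _ => map_mul _ _ _
    · rw [← hdim]; exact hG.dim
    · intro z hz
      obtain ⟨z0, hz0, rfl⟩ := (hmem z).1 hz
      obtain ⟨D, hD, hDm, hDz⟩ := hG.den z0 hz0
      refine ⟨φ D, ?_, E10_MonV_map φ V V0 hV0u hB hDm, ?_⟩
      · rw [← hmap]; exact ⟨D, hD, rfl⟩
      · rw [← hmap, ← map_mul]; exact ⟨_, hDz, rfl⟩
  · intro f hf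
    have h1 := E10_MonV_map φ V V0 hV0u hB (hM _ (Finset.mem_image_of_mem l hf))
    rw [hl f hf] at h1
    exact h1

end TC
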