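import Pool.Agent.Lib.TC.IDefs
import Pool.Agent.Lib.TC.Conv
import Pool.Agent.Lib.TC.Trans
import Pool.Agent.Lib.MP_3029eb_ag.ImpResult

/-!
# Module TC.I3: embedded local uniformization from the implicit ideal, for subrings of a field

PROOF.  Let `L0 = FractionRing B`, `φ : L0 → L` (`IsFractionRing.lift`), `W0 = W.comap φ`, so `z ∈ W0 ↔ φ z ∈ W` and the
values compare in the same way (`W0 a ≤ W0 b ↔ W (φ a) ≤ W (φ b)`: `a / b ∈ W0`; compare the proof of
`exists_restrict` in Pool/Agent/Lib/MP_3029eb_ag/AbhC5.lean).  `emb2_imp (R := B) (K := L0)` (ImpResult.lean) with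
`s = 0`, the ideal `I` (`implAt` is the ideal in `Impl`), `H` from `hB` (`GFR B`: the condition there is
`Q.comap _ = ⊥`), `hRm` from `A2_mem_maximalIdeal`, gives `EMB2 W0 (algebraMap B L0).range r h`, then
`EMB3_of_EMB2` (TC.Conv) and `EMB3_map` (TC.Trans) with `A0 = (algebraMap B L0).range`.
-/

open IsLocalRing

namespace TC
open Pool.Agent.Lib.MP_3029eb_ag Pool.Agent.Lib.MP_3029eb_ag.Abh

theorem I3_comap_le {F L : Type} [Field F] [Field L] (W : ValuationSubring L) (φ : F →+* L)
    (a b : F) : (W.comap φ).valuation a ≤ (W.comap φ).valuation b ↔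
      W.valuation (φ a) ≤ W.valuation (φ b) := by
  by_cases hb : b = 0
  · subst hb
    rw [map_zero φ, map_zero (W.comap φ).valuation, map_zero W.valuation, le_zero_iff, le_zero_iff,
      map_eq_zero, map_eq_zero, map_eq_zero]
  · have hb' : φ b ≠ 0 := (map_ne_zero φ).2 hb
    have h1 : (W.comap φ).valuation a ≤ (W.comap φ).valuation b ↔
        (W.comap φ).valuation (a / b) ≤ 1 := by
      rw [map_div₀, div_le_one₀]
      exact zero_lt_iff.2 ((Valuation.ne_zero_iff _).2 hb)
    have h2 : W.valuation (φ a) ≤ W.valuation (φ b) ↔ W.valuation (φ a / φ b) ≤ 1 := by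
      rw [map_div₀, div_le_one₀]
      exact zero_lt_iff.2 ((Valuation.ne_zero_iff _).2 hb')
    rw [h1, h2, ValuationSubring.valuation_le_one_iff, ValuationSubring.valuation_le_one_iff,
      ← map_div₀]
    exact Iff.rfl

theorem I3_comap_lt_one {F L : Type} [Field F] [Field L] (W : ValuationSubring L) (φ : F →+* L)
    (a : F) : (W.comap φ).valuation a < 1 ↔ W.valuation (φ a) < 1 := by
  have h := I3_comap_le W φ 1 a
  rw [map_one, map_one, map_one] at h
  rw [← not_le, ← not_le, h]

theorem emb3_impl {L : Type} [Field L] (W : ValuationSubring L)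
    (harch : ∀ a b : L, a ≠ 0 → W.valuation b < 1 →
      ∃ n : ℕ, W.valuation (b ^ n) ≤ W.valuation a)
    {r : ℕ} (hr : 0 < r) (x : Fin r → L) (hx : IndV W x)
    (B : Subring L) [IsNoetherianRing B] [IsLocalRing B] (hBW : B ≤ W.toSubring)
    (hloc : locV W B = B) (hxB : ∀ i, ∃ a ∈ B, ∃ b ∈ B, b ≠ 0 ∧ x i * b = a) (hB : GFR B)
    (I : Ideal (AdicCompletion (maximalIdeal B) B)) (hI : Impl W B.subtype I)
    (hdim : ringKrullDim (AdicCompletion (maximalIdeal B) B ⧸ I) ≤ (r : WithBot ℕ∞)) :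
    EMB3 W B r := by
  classical
  have hj : Function.Injective (B.subtype) := Subtype.val_injective
  set φ : FractionRing B →+* L := IsFractionRing.lift hj with hφ
  have hφj : ∀ r : B, φ (algebraMap B _ r) = (r : L) :=
    fun r => IsFractionRing.lift_algebraMap hj r
  have hinj : Function.Injective (algebraMap B (FractionRing B)) :=
    IsFractionRing.injective B (FractionRing B)
  set A0 : Subring (FractionRing B) := (algebraMap B (FractionRing B)).range with hA0
  have hmap : A0.map φ = B := by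
    ext z
    constructor
    · rintro ⟨_, ⟨r, rfl⟩, rfl⟩
      rw [hφj]
      exact r.2
    · intro hz
      exact ⟨algebraMap B _ ⟨z, hz⟩, ⟨⟨z, hz⟩, rfl⟩, hφj _⟩
  have hfrac : ∀ z : FractionRing B, ∃ a ∈ A0, ∃ b ∈ A0, b ≠ 0 ∧ z * b = a := by
    intro z
    obtain ⟨⟨a, b⟩, hab⟩ := IsLocalization.surj (nonZeroDivisors B) z
    refine ⟨algebraMap B _ a, ⟨a, rfl⟩, algebraMap B _ b, ⟨b, rfl⟩, ?_, hab⟩
    intro h0
    exact nonZeroDivisors.ne_zero b.2 (hinj (by rw [h0, map_zero]))
  have hsurj : ∀ z : L, (∃ a ∈ B, ∃ b ∈ B, b ≠ 0 ∧ z * b = a) → ∃ z0, φ z0 = z := by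
    rintro z ⟨a, ha, b, hb, hb0, hz⟩
    refine ⟨algebraMap B _ ⟨a, ha⟩ / algebraMap B _ ⟨b, hb⟩, ?_⟩
    rw [map_div₀, hφj, hφj, div_eq_iff hb0]
    exact hz.symm
  have hx0 : ∀ i, ∃ z0, φ z0 = x i := fun i => hsurj _ (hxB i)
  choose x0 hx0 using hx0
  have hRm : ∀ a : B, a ∈ maximalIdeal B ↔
      (W.comap φ).valuation (algebraMap B (FractionRing B) a) < 1 := by
    intro a
    rw [A2_mem_maximalIdeal W hBW hloc a, I3_comap_lt_one, hφj]
  obtain ⟨h, hE⟩ := Imp.emb2_imp B (FractionRing B)
    (fun Q _ hQ => hB Q (by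
      rw [eq_bot_iff]
      intro a ha
      exact hQ a ha))
    (W.comap φ)
    (by
      intro a b ha hb
      obtain ⟨n, hn⟩ := harch (φ a) (φ b) ((map_ne_zero φ).2 ha) ((I3_comap_lt_one W φ b).1 hb)
      refine ⟨n, ?_⟩
      rw [I3_comap_le, map_pow]
      exact hn)
    (by
      intro a
      change φ (algebraMap B _ a) ∈ W
      rw [hφj]
      exact hBW a.2)
    hRm r 0 hr x0 (Fin.elim0)
    (by
      intro i h0
      apply hx.ne i
      rw [← hx0 i, h0, map_zero])
    (by
      intro m hm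
      rw [C2_comap_val_one, map_prod] at hm
      apply hx.indep m
      have h1 : mon x m = ∏ i, φ (x0 i ^ m i) := by
        unfold mon
        refine Finset.prod_congr rfl fun i _ => ?_
        rw [map_zpow₀, hx0]
      rw [h1]
      exact hm)
    (fun j => j.elim0)
    (by
      intro p hp m
      rw [MvPolynomial.eq_C_of_isEmpty p, MvPolynomial.aeval_C] at hp
      rw [Subsingleton.elim m 0, hRm]
      exact hp)
    I
    (by
      intro d hd
      have hd' : B.subtype d ≠ 0 := fun h0 => hd (hj (by rw [h0, map_zero]))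
      refine (hI d hd').trans ?_
      unfold Imp.implAt
      apply Ideal.span_mono
      apply Set.image_mono
      intro a ha
      change (W.comap φ).valuation _ ≤ (W.comap φ).valuation _
      rw [I3_comap_le, hφj, hφj]
      exact ha)
    (by
      rw [Nat.add_zero]
      exact hdim)
  exact EMB3_map φ W (W.comap φ) (fun _ => Iff.rfl) (fun z => C2_comap_val_one W φ z) B A0 hmap
    hfrac hsurj (EMB3_of_EMB2 hE)

end TC
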