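import Pool.Agent.Lib.MP_3029eb_ag.ImpDefs
import Pool.Agent.Lib.MP_3029eb_ag.AbhE11

/-!
# Embedded local uniformization of composite valuations: definitions
-/

open IsLocalRing

namespace TC
open Pool.Agent.Lib.MP_3029eb_ag Pool.Agent.Lib.MP_3029eb_ag.Abh

/-- The maximal ideal of the local ring `A` is generated by the `u i` (with rationally independent
values) and the `w j`, the dimension of `A` is at least the number of these elements (so that `A` is
regular), and every element of `A` has a denominator in `A0` which is a unit of `A` times a monomial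
in the `u i`. -/
structure GoodPar3 {K : Type} [Field K] (V : ValuationSubring K) (A0 A : Subring K) {r h : ℕ}
    (u : Fin r → K) (w : Fin h → K) : Prop where
  ind : IndV V u
  mem : ∀ i, u i ∈ A
  lt : ∀ i, V.valuation (u i) < 1
  wmem : ∀ j, w j ∈ A
  wlt : ∀ j, V.valuation (w j) < 1
  gen : ∀ z ∈ A, V.valuation z < 1 → ∃ (c : Fin r → K) (d : Fin h → K), (∀ i, c i ∈ A) ∧
    (∀ j, d j ∈ A) ∧ z = ∑ i, c i * u i + ∑ j, d j * w j
  dim : ((r + h : ℕ) : WithBot ℕ∞) ≤ ringKrullDim A
  den : ∀ z ∈ A, ∃ D ∈ A0, MonV V A u D ∧ D * z ∈ A0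

/-- Embedded local uniformization of `A0` along `V`, with `r` parameters of independent values and
some additional parameters, by regular local rings whose dimension satisfies `D`. -/
def EMB3d {K : Type} [Field K] (V : ValuationSubring K) (A0 : Subring K) (r : ℕ)
    (D : WithBot ℕ∞ → Prop) : Prop :=
  ∀ s : Finset K, (∀ f ∈ s, f ≠ 0 ∧ f ∈ V ∧ ∃ a ∈ A0, ∃ b ∈ A0, b ≠ 0 ∧ f * b = a) →
    ∃ (g : Finset K) (h : ℕ) (u : Fin r → K) (w : Fin h → K), (∀ t ∈ g, t ∈ V) ∧
      D (ringKrullDim (locV V (Subring.closure ((A0 : Set K) ∪ (g : Set K))))) ∧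
      GoodPar3 V A0 (locV V (Subring.closure ((A0 : Set K) ∪ (g : Set K)))) u w ∧
      ∀ f ∈ s, MonV V (locV V (Subring.closure ((A0 : Set K) ∪ (g : Set K)))) u f

/-- Embedded local uniformization of `A0` along `V`, with `r` parameters of independent values and
some additional parameters. -/
def EMB3 {K : Type} [Field K] (V : ValuationSubring K) (A0 : Subring K) (r : ℕ) : Prop :=
  ∀ s : Finset K, (∀ f ∈ s, f ≠ 0 ∧ f ∈ V ∧ ∃ a ∈ A0, ∃ b ∈ A0, b ≠ 0 ∧ f * b = a) →
    ∃ (g : Finset K) (h : ℕ) (u : Fin r → K) (w : Fin h → K), (∀ t ∈ g, t ∈ V) ∧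
      GoodPar3 V A0 (locV V (Subring.closure ((A0 : Set K) ∪ (g : Set K)))) u w ∧
      ∀ f ∈ s, MonV V (locV V (Subring.closure ((A0 : Set K) ∪ (g : Set K)))) u f

theorem EMB3_iff {K : Type} [Field K] {V : ValuationSubring K} {A0 : Subring K} {r : ℕ} :
    EMB3 V A0 r ↔ EMB3d V A0 r fun _ => True :=
  ⟨fun H s hs => by
    obtain ⟨g, h, u, w, h1, h2, h3⟩ := H s hs
    exact ⟨g, h, u, w, h1, trivial, h2, h3⟩, fun H s hs => by
    obtain ⟨g, h, u, w, h1, -, h2, h3⟩ := H s hs
    exact ⟨g, h, u, w, h1, h2, h3⟩⟩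

theorem EMB3.dim {K : Type} [Field K] {V : ValuationSubring K} {A0 : Subring K} {r : ℕ}
    {D : WithBot ℕ∞ → Prop} (H : EMB3 V A0 r)
    (hD : ∀ g : Finset K, (∀ t ∈ g, t ∈ V ∧ ∃ a ∈ A0, ∃ b ∈ A0, b ≠ 0 ∧ t * b = a) →
      D (ringKrullDim (locV V (Subring.closure ((A0 : Set K) ∪ (g : Set K)))))) :
    EMB3d V A0 r D := by
  intro s hs
  obtain ⟨g, h, u, w, h1, h2, h3⟩ := H s hs
  refine ⟨g, h, u, w, h1, hD g fun t ht => ⟨h1 t ht, ?_⟩, h2, h3⟩
  obtain ⟨d, hd, hdm, hdt⟩ := h2.den t (le_locV _ _ (Subring.subset_closure (Or.inr ht)))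
  exact ⟨d * t, hdt, d, hd, hdm.ne h2.ind.ne, mul_comm _ _⟩

/-- All local rings essentially of finite type over `Rb` in `V`, with fraction field `K`, admit
embedded local uniformization along `V`, with `r` parameters of independent values. -/
def Unif {Rb K : Type} [CommRing Rb] [Field K] (φ : Rb →+* K) (V : ValuationSubring K)
    (r : ℕ) : Prop :=
  ∀ (A : Subring K), A ≤ V.toSubring → locV V A = A → ∀ (f : Rb →+* A), (∀ c, (f c : K) = φ c) →
    EFT f → (∀ z : K, ∃ a ∈ A, ∃ b ∈ A, b ≠ 0 ∧ z * b = a) → EMB3 V A r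

/-- The class of base rings: all local domains essentially of finite type over `Rb` have regular
generic formal fibre. -/
def GoodBase (Rb : Type) [CommRing Rb] : Prop :=
  IsNoetherianRing Rb ∧ ∀ (B : Type) [CommRing B] [IsDomain B] [IsLocalRing B] [IsNoetherianRing B]
    (f : Rb →+* B), EFT f → GFR B

/-- The residual valuation of `V` on the residue field of `V1` is discrete: its value group is
generated by the value of `π`. -/
structure DStep {K : Type} [Field K] (V1 V : ValuationSubring K) (π : K) : Prop where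
  le : V ≤ V1
  one : V1.valuation π = 1
  lt : V.valuation π < 1
  gen : ∀ z : K, V1.valuation z = 1 → ∃ n : ℤ, V.valuation z = V.valuation (π ^ n)

/-- The residual valuation of `V` on the residue field of `V1` is an Abhyankar valuation over the
image of the ring `A0`. -/
structure AStep {K : Type} [Field K] (V1 V : ValuationSubring K) (A0 : Subring K) {r s : ℕ}
    (x : Fin r → K) (y : Fin s → K) : Prop where
  le : V ≤ V1
  sub : A0 ≤ V.toSubring
  loc : locV V A0 = A0
  alg : ∀ z : K, z ∈ V1 → ∃ f : Polynomial A0, (∃ n, V1.valuation ((f.coeff n : A0) : K) = 1) ∧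
    V1.valuation (Polynomial.eval₂ A0.subtype z f) < 1
  one : ∀ i, V1.valuation (x i) = 1
  ind : ∀ δ : Fin r → ℤ, V.valuation (mon x δ) = 1 → δ = 0
  ymem : ∀ j, y j ∈ V
  yind : ResIndep V A0 y
  dim : ringKrullDim (im V1 A0) ≤ ((r + s : ℕ) : WithBot ℕ∞)

end TC
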