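import Pool.Agent.Lib.TC.StepA

/-!
# Module TC.AQ: Abhyankar steps in terms of subalgebras

PROOFS.
* `dim_im_eq`: `im V1 (locV V ι.range) = locV V' (im V1 ι.range)` with `V' = resV V V1 h` (`im_locV`, Comp1.lean); its
  dimension is the height of the centre of `V'` in `im V1 ι.range` (`C4_dim_locV`, AbhC4.lean).  The homomorphism
  `S → im V1 ι.range`, `a ↦` residue of `ι a`, is surjective with kernel `P1` (`rs_eq_zero`), so
  `S ⧸ P1 ≃+* im V1 ι.range`, and it maps `P / P1` onto the centre (`rs_resV_lt`); heights are preserved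
  (`RingEquiv.height_map`).
* `resIndep_locV`: let `p` be a polynomial over `locV V C` with `V(p(y)) < 1`; multiply by a common denominator
  `d ∈ C` of value one of its coefficients (`C3.exists_denom` or as in `A2_transcendental`, AbhA2.lean): `d p` is a
  polynomial over `C`.
* `unif_AQ`: `A0 = Algebra.adjoin R g0` (`hfg`), `A0.toSubring = closure (range ∪ g0)`
  (`Algebra.adjoin_eq_ring_closure`, as in `emb2_to_subalgebra`, ImpSub.lean).  Apply `unif_A hR (algebraMap R K) g0`
  with `AStep V1 V (locV V (closure (range ∪ g0))) x y`: `sub`, `loc` clear (`locV_le`, `locV_locV`); `alg`: map the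
  polynomial from `A0` to the localization; `yind`: `resIndep_locV`; `dim`: `dim_im_eq` with `ι = A0.val`
  (`ι.range = closure (range ∪ g0)`).
-/

open IsLocalRing

namespace TC
open Pool.Agent.Lib.MP_3029eb_ag Pool.Agent.Lib.MP_3029eb_ag.Abh

theorem dim_im_eq {K : Type} [Field K] {V V1 : ValuationSubring K} (h : V ≤ V1) {S : Type}
    [CommRing S] (ι : S →+* K) (hι : ∀ a, ι a ∈ V) (P1 P : Ideal S)
    (hP1 : ∀ a, a ∈ P1 ↔ V1.valuation (ι a) < 1) (hP : ∀ a, a ∈ P ↔ V.valuation (ι a) < 1) :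
    ringKrullDim (im V1 (locV V ι.range)) =
      (((P.map (Ideal.Quotient.mk P1)).height : ℕ∞) : WithBot ℕ∞) := by
  have hr : ι.range ≤ V.toSubring := by
    rintro _ ⟨a, rfl⟩
    exact hι a
  have hr1 : ι.range ≤ V1.toSubring := fun z hz => h (hr hz)
  rw [im_locV h ι.range hr]
  have hB : im V1 ι.range ≤ (resV V V1 h).toSubring := by
    intro w hw
    obtain ⟨u, hu, rfl⟩ := (C1_mem_im _ _ _).1 hw
    exact (C1_mem_resV h _).2 ⟨u, hr hu, rfl⟩
  rw [C4_dim_locV (resV V V1 h) hB]
  let ψ : S →+* im V1 ι.range := (toIm V1 ι.range hr1).comp ι.rangeRestrict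
  have hψs : Function.Surjective ψ :=
    (toIm_surjective V1 ι.range hr1).comp ι.rangeRestrict_surjective
  have hψv : ∀ a, ((ψ a : im V1 ι.range) : ResidueField V1) = rs V1 (ι a) := fun a =>
    (rs_eq (hr1 ⟨a, rfl⟩)).symm
  have hker : RingHom.ker ψ = P1 := by
    ext a
    rw [RingHom.mem_ker, hP1, ← rs_eq_zero (h (hι a)), ← hψv a]
    exact Subtype.ext_iff
  have hle : P1 ≤ P := by
    intro a ha
    rw [hP]
    exact C1_lt_of_lt h ((hP1 a).1 ha)
  let e : S ⧸ P1 ≃+* im V1 ι.range :=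
    (Ideal.quotEquivOfEq hker.symm).trans (RingHom.quotientKerEquivOfSurjective hψs)
  have he : ∀ a : S, e (Ideal.Quotient.mk P1 a) = ψ a := fun a => rfl
  have hcomap : (C3.cen (resV V V1 h) hB).comap (e : S ⧸ P1 →+* im V1 ι.range) =
      P.map (Ideal.Quotient.mk P1) := by
    ext w
    obtain ⟨a, rfl⟩ := Ideal.Quotient.mk_surjective w
    rw [Ideal.mem_quotient_iff_mem hle, Ideal.mem_comap, RingEquiv.coe_toRingHom, he, C3.mem_cen,
      hψv, rs_resV_lt h (hι a), hP]
  rw [← hcomap]
  exact congrArg _ (RingEquiv.height_comap e _).symm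

theorem resIndep_locV {K : Type} [Field K] (V : ValuationSubring K) (C : Subring K)
    (hC : C ≤ V.toSubring) {s : ℕ} {y : Fin s → K} (hy : ResIndep V C y) :
    ResIndep V (locV V C) y := by
  classical
  intro p hp m
  by_cases hm : m ∈ p.support
  swap
  · rw [MvPolynomial.notMem_support_iff.1 hm]
    show V.valuation (0 : K) < 1
    rw [map_zero]
    exact zero_lt_one
  obtain ⟨b, hb, hb1, hbs⟩ := C3.exists_denom V C
    (p.support.image fun m => ((MvPolynomial.coeff m p : locV V C) : K)) (by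
      intro r hr
      obtain ⟨m, -, rfl⟩ := Finset.mem_image.1 hr
      exact (MvPolynomial.coeff m p).2)
  have hc : ∀ m : Fin s →₀ ℕ, ∃ c : C, m ∈ p.support →
      (c : K) = ((MvPolynomial.coeff m p : locV V C) : K) * b := by
    intro m
    by_cases hm : m ∈ p.support
    · exact ⟨⟨_, hbs _ (Finset.mem_image_of_mem _ hm)⟩, fun _ => rfl⟩
    · exact ⟨0, fun h => absurd h hm⟩
  choose c hc using hc
  let q : MvPolynomial (Fin s) C := ∑ m ∈ p.support, MvPolynomial.monomial m (c m)
  have hq : MvPolynomial.eval₂ C.subtype y q =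
      MvPolynomial.eval₂ (locV V C).subtype y p * b := by
    have h1 : MvPolynomial.eval₂ (locV V C).subtype y p = ∑ m ∈ p.support,
        ((MvPolynomial.coeff m p : locV V C) : K) * ∏ i, y i ^ m i := by
      rw [MvPolynomial.eval₂_eq']
      rfl
    rw [h1, Finset.sum_mul, ← MvPolynomial.coe_eval₂Hom, map_sum]
    refine Finset.sum_congr rfl fun m hm => ?_
    rw [MvPolynomial.coe_eval₂Hom, MvPolynomial.eval₂_monomial, Finsupp.prod_fintype]
    · rw [Subring.subtype_apply, hc m hm]
      ring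
    · intro i
      exact pow_zero _
  have hqm : MvPolynomial.coeff m q = c m := by
    simp only [q, MvPolynomial.coeff_sum, MvPolynomial.coeff_monomial]
    rw [Finset.sum_ite_eq' p.support m c, if_pos hm]
  have h2 := hy q (by rw [hq, map_mul, hb1, mul_one]; exact hp) m
  rw [hqm, hc m hm, map_mul, hb1, mul_one] at h2
  exact h2

theorem unif_AQ {R K : Type} [CommRing R] [Field K] [Algebra R K] (hR : GoodBase R)
    {V V1 : ValuationSubring K} (h : V ≤ V1) (A0 : Subalgebra R K) (hfg : A0.FG)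
    (hAV : ∀ a : A0, (a : K) ∈ V) (P1 P : Ideal A0)
    (hP1 : ∀ a : A0, a ∈ P1 ↔ V1.valuation (a : K) < 1)
    (hP : ∀ a : A0, a ∈ P ↔ V.valuation (a : K) < 1)
    (halg : ∀ z : K, z ∈ V1 → ∃ f : Polynomial A0,
      (∃ n, V1.valuation ((f.coeff n : A0) : K) = 1) ∧ V1.valuation (Polynomial.aeval z f) < 1)
    {r s : ℕ} (x : Fin r → K) (hx1 : ∀ i, V1.valuation (x i) = 1)
    (hx : ∀ m : Fin r → ℤ, V.valuation (∏ i, x i ^ m i) = 1 → m = 0)
    (y : Fin s → K) (hyV : ∀ j, y j ∈ V)
    (hy : ∀ p : MvPolynomial (Fin s) A0, V.valuation (MvPolynomial.aeval y p) < 1 →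
      ∀ m, V.valuation ((MvPolynomial.coeff m p : A0) : K) < 1)
    (hdim : (P.map (Ideal.Quotient.mk P1)).height ≤ ((r + s : ℕ) : ℕ∞)) {r1 : ℕ}
    (H : Unif (algebraMap R K) V1 r1) : Unif (algebraMap R K) V (r1 + r) := by
  classical
  obtain ⟨g0, hg0⟩ := hfg
  have hA : Subring.closure (((algebraMap R K).range : Set K) ∪ (g0 : Set K)) = A0.toSubring := by
    rw [← hg0, Algebra.adjoin_eq_ring_closure]
    rfl
  have hAV' : A0.toSubring ≤ V.toSubring := fun z hz => hAV ⟨z, hz⟩
  refine unif_A hR (algebraMap R K) g0 (x := x) (y := y) ?_ H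
  rw [hA]
  let i1 : A0 →+* locV V A0.toSubring :=
    (A0.subtype : A0 →+* K).codRestrict _ fun a => le_locV V _ a.2
  let i2 : A0.toSubring →+* A0 := A0.toSubring.subtype.codRestrict A0 fun a => a.2
  refine ⟨h, locV_le V hAV', locV_locV V _, fun z hz => ?_, hx1, hx, hyV,
    resIndep_locV V _ hAV' ?_, ?_⟩
  · obtain ⟨f, ⟨n, hn⟩, hf⟩ := halg z hz
    refine ⟨f.map i1, ⟨n, ?_⟩, ?_⟩
    · rw [Polynomial.coeff_map]
      exact hn
    · rw [Polynomial.eval₂_map]
      exact hf
  · intro p hp m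
    have h1 := hy (MvPolynomial.map i2 p) (by
      rw [MvPolynomial.aeval_def, MvPolynomial.eval₂_map]
      exact hp) m
    rw [MvPolynomial.coeff_map] at h1
    exact h1
  · have h1 := dim_im_eq h (algebraMap A0 K) hAV P1 P hP1 hP
    have h2 : (algebraMap A0 K).range = A0.toSubring := by
      ext z
      constructor
      · rintro ⟨a, rfl⟩
        exact a.2
      · intro hz
        exact ⟨⟨z, hz⟩, rfl⟩
    rw [h2] at h1
    rw [h1]
    exact_mod_cast hdim

end TC
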