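import Pool.Agent.Lib.TC.Defs

/-!
# Module TC.Cohen: the dimension inequality for algebraic extensions

Same statements as in Pool/Agent/Lib/MP_3029eb_ag/AbhA2.lean, but the adjoined elements of `V` are only assumed to be
algebraic over (the fraction field of) `A` instead of lying in the fraction field of `A`.

PROOFS: copy `A2_key, A2_one, A2_one_tr, krullDim_adjoin, krullDim_resIndep` of AbhA2.lean.  The only change: the
hypothesis `hfr : ∃ a ∈ A, ∃ b ∈ A, b ≠ 0 ∧ t * b = a` becomes
`AlgOver A t := ∃ f : Polynomial A, f ≠ 0 ∧ Polynomial.eval₂ A.subtype t f = 0`; in `A2_key` the polynomial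
`f = C b * X - C a` is replaced by this `f` (`hψf` is then the hypothesis).  `AlgOver` is monotone in `A`
(`Polynomial.map (Subring.inclusion h)`, injective).
-/

open IsLocalRing

namespace TC
open Pool.Agent.Lib.MP_3029eb_ag Pool.Agent.Lib.MP_3029eb_ag.Abh

/-- `t` is algebraic over the fraction field of `A` -/
def AlgOver {K : Type} [Field K] (A : Subring K) (t : K) : Prop :=
  ∃ f : Polynomial A, f ≠ 0 ∧ Polynomial.eval₂ A.subtype t f = 0

theorem AlgOver.mono {K : Type} [Field K] {A B : Subring K} (h : A ≤ B) {t : K}
    (ht : AlgOver A t) : AlgOver B t := by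
  obtain ⟨f, hf0, hf⟩ := ht
  refine ⟨f.map (Subring.inclusion h), ?_, ?_⟩
  · rw [Ne, Polynomial.map_eq_zero_iff (Subring.inclusion_injective h)]
    exact hf0
  · rw [Polynomial.eval₂_map]
    exact hf

private theorem key' {K : Type} [Field K] (V : ValuationSubring K) (A : Subring K)
    (hA : A ≤ V.toSubring) (t : K) (ht : t ∈ V) (hfr : AlgOver A t) :
    ringKrullDim (locV V (Subring.closure ((A : Set K) ∪ {t}))) + 1 ≤
      (A2_cen V A hA t ht).height := by
  set P := A2_cen V A hA t ht with hPdef
  set B := Subring.closure ((A : Set K) ∪ {t}) with hB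
  have hBV : B ≤ V.toSubring := A2_closure_le V hA (by rintro z rfl; exact ht)
  rw [← IsLocalization.AtPrime.ringKrullDim_eq_height P (Localization.AtPrime P)]
  let ψ : Polynomial A →+* locV V B :=
    (Polynomial.eval₂RingHom A.subtype t).codRestrict (locV V B)
      (fun p => le_locV V B (A2_eval_mem A t p))
  have hψ : ∀ p, (ψ p : K) = Polynomial.eval₂ A.subtype t p := fun p => rfl
  have hunit : ∀ y : P.primeCompl, IsUnit (ψ y) := by
    intro y
    rw [isUnit_locV_iff V hBV, hψ]
    refine le_antisymm ((V.valuation_le_one_iff _).2 (hBV (A2_eval_mem A t y))) ?_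
    rw [← not_lt]
    intro h
    exact y.2 ((A2_mem_cen V A hA t ht _).2 h)
  let l : Localization.AtPrime P →+* locV V B := IsLocalization.lift (M := P.primeCompl) hunit
  have hl : Function.Surjective l := by
    rintro ⟨z, a, ha, b, hb, hb1, hab⟩
    obtain ⟨p, hp⟩ := A2_exists_eval A t ha
    obtain ⟨q, hq⟩ := A2_exists_eval A t hb
    have hqP : q ∈ P.primeCompl := by
      intro h
      have h1 := (A2_mem_cen V A hA t ht q).1 h
      rw [hq, hb1] at h1
      exact lt_irrefl _ h1
    refine ⟨IsLocalization.mk' (Localization.AtPrime P) p ⟨q, hqP⟩, ?_⟩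
    rw [IsLocalization.lift_mk'_spec]
    apply Subtype.ext
    rw [Subring.coe_mul, hψ, hψ]
    show _ = Polynomial.eval₂ A.subtype t q * z
    rw [hp, hq, ← hab, mul_comm]
  obtain ⟨f, hf0, hf1⟩ := hfr
  have hψf : ψ f = 0 := by
    apply Subtype.ext
    rw [hψ, hf1]
    rfl
  set r : Localization.AtPrime P := algebraMap _ _ f with hr
  have hr0 : r ≠ 0 := by
    intro h
    apply hf0
    apply IsLocalization.injective (Localization.AtPrime P) P.primeCompl_le_nonZeroDivisors
    rw [map_zero]
    exact h
  have hlr : l r = 0 := by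
    rw [hr]
    show IsLocalization.lift (M := P.primeCompl) hunit (algebraMap _ _ f) = 0
    rw [IsLocalization.lift_eq, hψf]
  exact A2_quot l hl hr0 hlr

/-- one element -/
private theorem one' {K : Type} [Field K] (V : ValuationSubring K) (A : Subring K)
    [IsNoetherianRing A] (hA : A ≤ V.toSubring) (hloc : locV V A = A) (t : K) (ht : t ∈ V)
    (hfr : AlgOver A t) :
    ringKrullDim (locV V (Subring.closure ((A : Set K) ∪ {t}))) ≤ ringKrullDim A := by
  have h := (key' V A hA t ht hfr).trans (A2_height_le V A hA hloc t ht)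
  exact ENat.WithBot.add_le_add_one_right_iff.1 h

/-- one element with a transcendental residue -/
private theorem one_tr' {K : Type} [Field K] (V : ValuationSubring K) (A : Subring K)
    [IsNoetherianRing A] (hA : A ≤ V.toSubring) (hloc : locV V A = A) (t : K) (ht : t ∈ V)
    (hfr : AlgOver A t)
    (htr : ∀ p : Polynomial A, V.valuation (Polynomial.eval₂ A.subtype t p) < 1 →
      ∀ n, V.valuation ((p.coeff n : A) : K) < 1) :
    ringKrullDim (locV V (Subring.closure ((A : Set K) ∪ {t}))) + 1 ≤ ringKrullDim A := by
  have : IsLocalRing A := A2_isLocal V hA hloc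
  have hle : A2_cen V A hA t ht ≤ (maximalIdeal A).map Polynomial.C := by
    intro p hp
    rw [Ideal.mem_map_C_iff]
    intro n
    rw [A2_mem_maximalIdeal V hA hloc]
    exact htr p ((A2_mem_cen V A hA t ht p).1 hp) n
  have h1 : (A2_cen V A hA t ht).height ≤ (maximalIdeal A).height := by
    rw [← Polynomial.height_map_C (maximalIdeal A)]
    exact Ideal.height_mono hle
  have h2 : ((A2_cen V A hA t ht).height : WithBot ℕ∞) ≤ (maximalIdeal A).height := by
    exact_mod_cast h1
  rw [IsLocalRing.maximalIdeal_height_eq_ringKrullDim] at h2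
  exact (key' V A hA t ht hfr).trans h2

theorem dim_alg {K : Type} [Field K] (V : ValuationSubring K) (A : Subring K)
    [IsNoetherianRing A] (hA : A ≤ V.toSubring) (hloc : locV V A = A) (g : Finset K)
    (hg : ∀ t ∈ g, t ∈ V ∧ AlgOver A t) :
    ringKrullDim (locV V (Subring.closure ((A : Set K) ∪ (g : Set K)))) ≤ ringKrullDim A := by
  classical
  induction g using Finset.induction_on with
  | empty =>
    rw [Finset.coe_empty, locV_closure_of_subset V A ∅ (Set.empty_subset _), hloc]
  | insert t g ht ih =>
    have ih' := ih (fun x hx => hg x (Finset.mem_insert_of_mem hx))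
    refine le_trans ?_ ih'
    set B := Subring.closure ((A : Set K) ∪ (g : Set K)) with hB
    have hBV : B ≤ V.toSubring :=
      A2_closure_le V hA (fun x hx => (hg x (Finset.mem_insert_of_mem hx)).1)
    have hBn : IsNoetherianRing B := isNoetherianRing_closure g
    have hBn' : IsNoetherianRing (locV V B) := isNoetherianRing_locV V
    have hAB : A ≤ locV V B := le_trans (fun a ha => Subring.subset_closure (Or.inl ha))
      (le_locV V B)
    have h1 := one' V (locV V B) (locV_le V hBV) (locV_locV V B) t
      (hg t (Finset.mem_insert_self _ _)).1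
      (AlgOver.mono hAB (hg t (Finset.mem_insert_self _ _)).2)
    rw [locV_closure_locV le_rfl B {t}, hB, A2_closure_closure] at h1
    rw [Finset.coe_insert, Set.insert_eq, Set.union_comm {t} (g : Set K)]
    exact h1

theorem dim_alg_res {K : Type} [Field K] (V : ValuationSubring K) (A : Subring K)
    [IsNoetherianRing A] (hA : A ≤ V.toSubring) (hloc : locV V A = A) {s : ℕ} (y : Fin s → K)
    (hy : ∀ i, y i ∈ V ∧ AlgOver A (y i)) (hres : ResIndep V A y) :
    ringKrullDim (locV V (Subring.closure ((A : Set K) ∪ Set.range y))) + s ≤ ringKrullDim A := by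
  classical
  induction s with
  | zero =>
    have h0 : Set.range y = ∅ := Set.range_eq_empty y
    rw [h0, locV_closure_of_subset V A ∅ (Set.empty_subset _), hloc, Nat.cast_zero, add_zero]
  | succ s ih =>
    have ih' := ih (fun i => y (Fin.succ i)) (fun i => hy _) (A2_resIndep_tail hres)
    set B := Subring.closure ((A : Set K) ∪ Set.range (fun i => y (Fin.succ i))) with hB
    have hBV : B ≤ V.toSubring := A2_closure_le V hA (by rintro _ ⟨i, rfl⟩; exact (hy _).1)
    have hBn : IsNoetherianRing B := by
      have h1 : (((Finset.univ : Finset (Fin s)).image (fun i => y (Fin.succ i)) : Finset K) :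
          Set K) = Set.range (fun i => y (Fin.succ i)) := by
        rw [Finset.coe_image, Finset.coe_univ, Set.image_univ]
      rw [hB, ← h1]
      exact isNoetherianRing_closure _
    have hBn' : IsNoetherianRing (locV V B) := isNoetherianRing_locV V
    have hAB : A ≤ locV V B := le_trans (fun a ha => Subring.subset_closure (Or.inl ha))
      (le_locV V B)
    have h1 := one_tr' V (locV V B) (locV_le V hBV) (locV_locV V B) (y 0) (hy 0).1
      (AlgOver.mono hAB (hy 0).2)
      (fun p hp n => A2_transcendental V A y (fun i => (hy i).1) hres B hB p hp n)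
    rw [locV_closure_locV le_rfl B {y 0}, hB, A2_closure_closure] at h1
    have h2 : Set.range (fun i => y (Fin.succ i)) ∪ {y 0} = Set.range y := by
      ext z
      constructor
      · rintro (⟨i, rfl⟩ | rfl)
        · exact ⟨_, rfl⟩
        · exact ⟨0, rfl⟩
      · rintro ⟨i, rfl⟩
        refine Fin.cases ?_ (fun j => ?_) i
        · exact Or.inr rfl
        · exact Or.inl ⟨j, rfl⟩
    rw [h2] at h1
    rw [Nat.cast_succ, add_comm (s : WithBot ℕ∞) 1, ← add_assoc]
    exact (add_le_add_left h1 _).trans ih'

end TC
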