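import Pool.Agent.Lib.TC.Defs
import Pool.Agent.Lib.TS.Defs

/-!
# Module TC.Gen: generators
-/

open IsLocalRing

namespace TC
open Pool.Agent.Lib.MP_3029eb_ag Pool.Agent.Lib.MP_3029eb_ag.Abh

theorem exists_gens {Rb K : Type} [CommRing Rb] [Field K] (φ : Rb →+* K) (V : ValuationSubring K)
    (A : Subring K) (hA : A ≤ V.toSubring) (hloc : locV V A = A) (f : Rb →+* A)
    (hfφ : ∀ c, (f c : K) = φ c) (hf : EFT f) :
    ∃ g : Finset K, (g : Set K) ⊆ A ∧
      A = locV V (Subring.closure ((φ.range : Set K) ∪ (g : Set K))) := by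
  classical
  let := f.toAlgebra
  have hE : Algebra.EssFiniteType Rb A := hf
  obtain ⟨σ, hσ⟩ := (Algebra.essFiniteType_iff _ _).1 hE
  have key : ∀ a : A, a ∈ Algebra.adjoin Rb (σ : Set A) →
      (a : K) ∈ Subring.closure ((φ.range : Set K) ∪ ((σ.image Subtype.val : Finset K) : Set K)) := by
    intro a ha
    induction ha using Algebra.adjoin_induction with
    | mem x hx =>
      exact Subring.subset_closure (Or.inr (Finset.mem_coe.2 (Finset.mem_image_of_mem _ hx)))
    | algebraMap c =>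
      refine Subring.subset_closure (Or.inl ⟨c, ?_⟩)
      rw [← hfφ c]
      rfl
    | add x y _ _ hx hy => exact add_mem hx hy
    | mul x y _ _ hx hy => exact mul_mem hx hy
  have hunit : ∀ t : A, IsUnit t → V.valuation (t : K) = 1 := by
    rintro _ ⟨u, rfl⟩
    have h1 : V.valuation ((u : A) : K) ≤ 1 := (V.valuation_le_one_iff _).2 (hA (u : A).2)
    have h2 : V.valuation (((u⁻¹ : Aˣ) : A) : K) ≤ 1 :=
      (V.valuation_le_one_iff _).2 (hA ((u⁻¹ : Aˣ) : A).2)
    have h3 : V.valuation ((u : A) : K) * V.valuation (((u⁻¹ : Aˣ) : A) : K) = 1 := by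
      rw [← map_mul, ← Subring.coe_mul, Units.mul_inv, Subring.coe_one, map_one]
    refine le_antisymm h1 ?_
    calc (1 : V.ValueGroup) = V.valuation ((u : A) : K) * V.valuation (((u⁻¹ : Aˣ) : A) : K) :=
          h3.symm
      _ ≤ V.valuation ((u : A) : K) * 1 := mul_le_mul_right h2 _
      _ = _ := mul_one _
  have hsub : ((σ.image Subtype.val : Finset K) : Set K) ⊆ A := by
    intro z hz
    obtain ⟨y, -, rfl⟩ := Finset.mem_image.1 (Finset.mem_coe.1 hz)
    exact y.2
  refine ⟨σ.image Subtype.val, hsub, le_antisymm ?_ ?_⟩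
  · intro z hz
    obtain ⟨t, ht, hu, hst⟩ := hσ ⟨z, hz⟩
    exact ⟨_, key _ hst, _, key _ ht, hunit t hu, rfl⟩
  · conv_rhs => rw [← hloc]
    apply locV_mono
    rw [Subring.closure_le]
    rintro z (⟨c, rfl⟩ | hz)
    · rw [← hfφ c]
      exact (f c).2
    · exact hsub hz

theorem exists_res_gens {k K : Type} [Field k] [Field K] [Algebra k K] {V : ValuationSubring K}
    {hk : ∀ c : k, algebraMap k K c ∈ V} {s : ℕ} (hs : TA.ResFG V hk s) :
    ∃ G : Finset K, (∀ t ∈ G, t ∈ V) ∧ ∀ B : Subring K, (∀ c : k, algebraMap k K c ∈ B) →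
      (∀ t ∈ G, t ∈ B) → locV V B = B → ∀ w ∈ V, ∃ a ∈ B, V.valuation (w - a) < 1 := by
  classical
  let := (TA.resMap V hk).toAlgebra
  have hE : Algebra.EssFiniteType k (ResidueField V) := hs.fg
  obtain ⟨σ, hσ⟩ := (Algebra.essFiniteType_iff _ _).1 hE
  choose l hl using (residue_surjective (R := V))
  refine ⟨σ.image (fun x => (l x : K)), ?_, ?_⟩
  · intro t ht
    obtain ⟨x, -, rfl⟩ := Finset.mem_image.1 ht
    exact (l x).2
  intro B hkB hGB hB
  have key : ∀ x : ResidueField V, x ∈ Algebra.adjoin k (σ : Set (ResidueField V)) →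
      ∃ b : V, (b : K) ∈ B ∧ residue V b = x := by
    intro x hx
    induction hx using Algebra.adjoin_induction with
    | mem x hx =>
      exact ⟨l x, hGB _ (Finset.mem_image_of_mem _ hx), hl x⟩
    | algebraMap c => exact ⟨⟨algebraMap k K c, hk c⟩, hkB c, rfl⟩
    | add x y _ _ hx hy =>
      obtain ⟨a, ha, rfl⟩ := hx
      obtain ⟨b, hb, rfl⟩ := hy
      exact ⟨a + b, add_mem ha hb, map_add _ _ _⟩
    | mul x y _ _ hx hy =>
      obtain ⟨a, ha, rfl⟩ := hx
      obtain ⟨b, hb, rfl⟩ := hy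
      exact ⟨a * b, mul_mem ha hb, map_mul _ _ _⟩
  intro w hw
  obtain ⟨t, ht, hu, hst⟩ := hσ (residue V ⟨w, hw⟩)
  obtain ⟨b, hb, hbt⟩ := key t ht
  obtain ⟨a, ha, hat⟩ := key _ hst
  have hb1 : V.valuation (b : K) = 1 := by
    have h1 : residue V b ≠ 0 := by
      rw [hbt]
      exact hu.ne_zero
    rw [← rs_coe] at h1
    exact rs_val_one b.2 h1
  refine ⟨(a : K) / b, ?_, ?_⟩
  · rw [← hB]
    refine ⟨a, ha, b, hb, hb1, ?_⟩
    rw [div_mul_cancel₀]
    intro h0
    rw [h0, map_zero] at hb1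
    exact zero_ne_one hb1
  · have hb0 : (b : K) ≠ 0 := by
      intro h0
      rw [h0, map_zero] at hb1
      exact zero_ne_one hb1
    have h2 : V.valuation (w - (a : K) / b) = V.valuation (w * b - a) := by
      rw [← mul_one (V.valuation (w - (a : K) / b)), ← hb1, ← map_mul, sub_mul,
        div_mul_cancel₀ _ hb0]
    rw [h2]
    have h3 : residue V (⟨w, hw⟩ * b - a) = 0 := by
      rw [map_sub, map_mul, hbt, hat, sub_self]
    rw [← rs_coe, rs_eq_zero (⟨w, hw⟩ * b - a : V).2] at h3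
    exact h3

theorem exists_tr_lifts {k K : Type} [Field k] [Field K] [Algebra k K]
    {V V1 : ValuationSubring K} (h : V ≤ V1) (hk1 : ∀ c : k, algebraMap k K c ∈ V1) {t : ℕ}
    (ht : letI := (TA.resMap V1 hk1).toAlgebra
      Algebra.trdeg k (ResidueField V1) = ((t : ℕ) : Cardinal)) :
    ∃ (z : Fin t → ResidueField V1) (w : Fin t → K),
      (letI := (TA.resMap V1 hk1).toAlgebra; IsTranscendenceBasis k z) ∧ (∀ i, w i ∈ V) ∧
      ∀ i, rs V1 (w i) = z i ∨ rs V1 (w i) = (z i)⁻¹ := by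
  classical
  letI := (TA.resMap V1 hk1).toAlgebra
  obtain ⟨s, hs⟩ := exists_isTranscendenceBasis k (ResidueField V1)
  have hc : Cardinal.mk s = ((t : ℕ) : Cardinal) := by
    rw [← hs.cardinalMk_eq_trdeg] at ht
    exact ht
  have hc' : Cardinal.mk (Fin t) = Cardinal.mk s := by rw [hc, Cardinal.mk_fin]
  obtain ⟨e⟩ := Cardinal.eq.1 hc'
  have hz : IsTranscendenceBasis k (fun i : Fin t => ((e i : s) : ResidueField V1)) :=
    hs.comp_equiv e
  have hw : ∀ x : ResidueField V1, ∃ w : K, w ∈ V ∧ (rs V1 w = x ∨ rs V1 w = x⁻¹) := by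
    intro x
    rcases (resV V V1 h).mem_or_inv_mem x with hx | hx
    · rw [C1_mem_resV h] at hx
      obtain ⟨u, hu, hux⟩ := hx
      exact ⟨u, hu, Or.inl (by rw [rs_coe, hux])⟩
    · rw [C1_mem_resV h] at hx
      obtain ⟨u, hu, hux⟩ := hx
      exact ⟨u, hu, Or.inr (by rw [rs_coe, hux])⟩
  choose w hw1 hw2 using hw
  exact ⟨fun i => ((e i : s) : ResidueField V1), fun i => w (e i : s), hz, fun i => hw1 _,
    fun i => hw2 _⟩

end TC
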