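import Pool.Agent.Lib.TC.Comp
import Pool.Agent.Lib.TC.Trans
import Pool.Agent.Lib.TC.Conv
import Pool.Agent.Lib.TC.Cohen
import Pool.Agent.Lib.TC.Gen
import Pool.Agent.Lib.MP_3029eb_ag.AbhE14

/-!
# Module TC.StepA: Abhyankar steps

PROOF.  Let `A ≤ V` be as in `Unif`, and let `A0 = locV V (closure (φ.range ∪ g0))`.  Let `g` be the finite set of the
elements of `g0`, the `y j`, and for each `i` the element `x i` or `(x i)⁻¹` lying in `V`.  All are fractions of
elements of `A`.  Replace `A` by `A' = locV V (closure (A ∪ g))` (`EMB3_trans`), which contains `A0` (both contain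
`φ.range`: `φ c = f c ∈ A`), the `y j` and the `x i` or `(x i)⁻¹`.  `EMB3_comp S.le A'`:
* coarser valuation: as in TC.StepD;
* residual valuation: `A1 = locV V (closure (A' ∪ g1))`, `B = im V1 A1`, `V' = resV V V1 _`, `B0 = im V1 A0`.
  (a) By `exists_gens` (for `A1`; `f1 = inclusion ∘ f'`) `A1 = locV V (closure (φ.range ∪ g2))`; as `A0 ≤ A1` and
      `A0 ⊇ φ.range`: `A1 = locV V (closure (A0 ∪ (g2 ∪ image y)))` (`⊇` because everything is in `A1` and
      `locV V A1 = A1`; `⊆` clear).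
  (b) Let `ȳ j = rs V1 (y j)`.  `B = locV V' (closure (B0 ∪ (residues of g2 and y)))` (`im_locV`, `im_closure`,
      `locV_closure_locV`).
  (c) every element of `ResidueField V1` is `AlgOver B0` (`S.alg`: write the element as `rs V1 z`; map the polynomial
      to `B0` by `toIm V1 A0`, coefficients go to residues; nonzero because some coefficient is a unit of `V1`).
  (d) `ResIndep V' B0 ȳ` from `S.yind`: lift a polynomial over `B0` to one over `A0` (`toIm_surjective`,
      `MvPolynomial.map_surjective`); its value at `y` has residue the value at `ȳ`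
      (`MvPolynomial.eval₂` and ring homomorphisms; all in `V1`); `rs_resV_lt`.
  (e) `dim_alg_res V' B0 ȳ`: `C = locV V' (closure (B0 ∪ range ȳ))` has `dim C + s ≤ dim B0 ≤ r + s`, so `dim C ≤ r`
      (`exists_nat_dim`); `dim_alg V' C`: `dim B ≤ dim C ≤ r` (`B = locV V' (closure (C ∪ residues of g2))`).
  (f) `embAt Rb hRb' r` for `V'`, `B`, `x' i = rs V1 (x i)` (`IndV V' x'` from `S.ind`: `rs_mon`, `rs_resV_val`;
      `x' i` or its inverse is in `B`), where `hRb'` is `anUnr_of_GFR` applied to `hRb.2`; then `EMB3_of_EMB`.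
-/

open IsLocalRing

namespace TC
open Pool.Agent.Lib.MP_3029eb_ag Pool.Agent.Lib.MP_3029eb_ag.Abh

section aux

variable {K : Type} [Field K]

private theorem SA_eval (V1 : ValuationSubring K) (A0 : Subring K) (hA0 : A0 ≤ V1.toSubring)
    {z : K} (hz : z ∈ V1) (f : Polynomial A0) :
    Polynomial.eval₂ (im V1 A0).subtype (rs V1 z) (f.map (toIm V1 A0 hA0)) =
      rs V1 (Polynomial.eval₂ A0.subtype z f) := by
  let incl : A0 →+* V1 := Subring.inclusion hA0
  have h1 : Polynomial.eval₂ A0.subtype z f =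
      ((Polynomial.eval₂ incl (⟨z, hz⟩ : V1) f : V1) : K) :=
    (Polynomial.hom_eval₂ f incl V1.toSubring.subtype (⟨z, hz⟩ : V1)).symm
  rw [h1, rs_coe, Polynomial.hom_eval₂, Polynomial.eval₂_map, rs_eq hz]
  rfl

private theorem SA_mveval (V1 : ValuationSubring K) (A0 : Subring K) (hA0 : A0 ≤ V1.toSubring)
    {s : ℕ} {y : Fin s → K} (hy : ∀ j, y j ∈ V1) (f : MvPolynomial (Fin s) A0) :
    MvPolynomial.eval₂ (im V1 A0).subtype (fun j => rs V1 (y j))
      (MvPolynomial.map (toIm V1 A0 hA0) f) = rs V1 (MvPolynomial.eval₂ A0.subtype y f) ∧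
    MvPolynomial.eval₂ A0.subtype y f ∈ V1 := by
  let incl : A0 →+* V1 := Subring.inclusion hA0
  have h1 : MvPolynomial.eval₂ A0.subtype y f =
      ((MvPolynomial.eval₂ incl (fun j => (⟨y j, hy j⟩ : V1)) f : V1) : K) :=
    (MvPolynomial.eval₂_comp_left V1.toSubring.subtype incl (fun j => (⟨y j, hy j⟩ : V1)) f).symm
  constructor
  · rw [h1, rs_coe, MvPolynomial.eval₂_comp_left, MvPolynomial.eval₂_map]
    have h2 : (fun j => rs V1 (y j)) = (residue V1) ∘ fun j => (⟨y j, hy j⟩ : V1) := by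
      funext j
      exact rs_eq (hy j)
    rw [h2]
    rfl
  · rw [h1]
    exact Subtype.property _

private theorem SA_mvmem (V : ValuationSubring K) (A0 : Subring K) (hA0 : A0 ≤ V.toSubring)
    {s : ℕ} {y : Fin s → K} (hy : ∀ j, y j ∈ V) (f : MvPolynomial (Fin s) A0) :
    MvPolynomial.eval₂ A0.subtype y f ∈ V := (SA_mveval V A0 hA0 hy f).2

private theorem SA_alg {V V1 : ValuationSubring K} {A0 : Subring K} (hA0 : A0 ≤ V1.toSubring)
    (halg : ∀ z : K, z ∈ V1 → ∃ f : Polynomial A0,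
      (∃ n, V1.valuation ((f.coeff n : A0) : K) = 1) ∧
      V1.valuation (Polynomial.eval₂ A0.subtype z f) < 1) (w : ResidueField V1) :
    AlgOver (im V1 A0) w := by
  obtain ⟨u, rfl⟩ := residue_surjective w
  obtain ⟨f, ⟨n, hn⟩, hf⟩ := halg (u : K) u.2
  refine ⟨f.map (toIm V1 A0 hA0), ?_, ?_⟩
  · intro h0
    have h1 := congrArg (fun p => ((p.coeff n : im V1 A0) : ResidueField V1)) h0
    simp only [Polynomial.coeff_map, Polynomial.coeff_zero] at h1
    have h2 : ((toIm V1 A0 hA0 (f.coeff n) : im V1 A0) : ResidueField V1) =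
        rs V1 ((f.coeff n : A0) : K) := (rs_eq (hA0 (f.coeff n).2)).symm
    rw [h2] at h1
    exact rs_ne_zero hn h1
  · rw [← rs_coe, SA_eval V1 A0 hA0 u.2]
    have h3 : Polynomial.eval₂ A0.subtype (u : K) f ∈ V1 :=
      (V1.valuation_le_one_iff _).1 hf.le
    exact (rs_eq_zero h3).2 hf

private theorem SA_res {V V1 : ValuationSubring K} (h : V ≤ V1) {A0 : Subring K}
    (hA0 : A0 ≤ V.toSubring) {s : ℕ} {y : Fin s → K} (hy : ∀ j, y j ∈ V)
    (hres : ResIndep V A0 y) : ResIndep (resV V V1 h) (im V1 A0) (fun j => rs V1 (y j)) := by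
  intro p hp m
  have hA01 : A0 ≤ V1.toSubring := hA0.trans h
  obtain ⟨q, rfl⟩ := MvPolynomial.map_surjective (toIm V1 A0 hA01) (toIm_surjective V1 A0 hA01) p
  rw [(SA_mveval V1 A0 hA01 (fun j => h (hy j)) q).1,
    rs_resV_lt h (SA_mvmem V A0 hA0 hy q)] at hp
  have h1 := hres q hp m
  rw [MvPolynomial.coeff_map]
  have h2 : ((toIm V1 A0 hA01 (MvPolynomial.coeff m q) : im V1 A0) : ResidueField V1) =
      rs V1 ((MvPolynomial.coeff m q : A0) : K) := (rs_eq (hA01 (MvPolynomial.coeff m q).2)).symm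
  rw [h2, rs_resV_lt h (hA0 (MvPolynomial.coeff m q).2)]
  exact h1

private theorem SA_gen {V V1 : ValuationSubring K} (h : V ≤ V1) {A0 : Subring K}
    (hA0 : A0 ≤ V.toSubring) (G : Set K) (hG : ∀ z ∈ G, z ∈ V) :
    im V1 (locV V (Subring.closure ((A0 : Set K) ∪ G))) =
      locV (resV V V1 h) (Subring.closure ((im V1 A0 : Set (ResidueField V1)) ∪
        (rs V1 '' G))) := by
  rw [im_locV h _ (closure_le_val V A0 hA0 G hG),
    im_closure V1 A0 (hA0.trans h) G (fun z hz => h (hG z hz))]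
  congr 3
  ext w
  constructor
  · rintro ⟨z, hz, rfl⟩
    exact ⟨z, hz, rs_eq (h (hG z hz))⟩
  · rintro ⟨z, hz, rfl⟩
    exact ⟨z, hz, (rs_eq (h (hG z hz))).symm⟩

end aux

private theorem SA_part {Rb K : Type} [CommRing Rb] [Field K] (hRb : GoodBase Rb) (φ : Rb →+* K)
    {V V1 : ValuationSubring K} (g0 : Finset K) {r s : ℕ} {x : Fin r → K} {y : Fin s → K}
    (S : AStep V1 V (locV V (Subring.closure ((φ.range : Set K) ∪ (g0 : Set K)))) x y)
    (A1 : Subring K) (hA1V : A1 ≤ V.toSubring) (hA1l : locV V A1 = A1) (f1 : Rb →+* A1)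
    (hf1φ : ∀ c, (f1 c : K) = φ c) (hf1 : EFT f1)
    (hA01 : locV V (Subring.closure ((φ.range : Set K) ∪ (g0 : Set K))) ≤ A1)
    (hyA1 : ∀ j, y j ∈ A1) (hxA1 : ∀ i, x i ∈ A1 ∨ (x i)⁻¹ ∈ A1) :
    EMB3 (resV V V1 S.le) (im V1 A1) r := by
  classical
  have nRb : IsNoetherianRing Rb := hRb.1
  have hA1n : IsNoetherianRing A1 := hf1.isNoetherianRing
  have hA1V1 : A1 ≤ V1.toSubring := hA1V.trans S.le
  obtain ⟨g2, hg2A, hg2⟩ := exists_gens φ V A1 hA1V hA1l f1 hf1φ hf1
  -- the ring `A0`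
  have hφA0 : (φ.range : Set K) ⊆
      locV V (Subring.closure ((φ.range : Set K) ∪ (g0 : Set K))) := fun z hz =>
    le_locV _ _ (Subring.subset_closure (Or.inl hz))
  have hA0n : IsNoetherianRing (locV V (Subring.closure ((φ.range : Set K) ∪ (g0 : Set K)))) := by
    have n1 : IsNoetherianRing φ.range := isNoetherianRing_range φ
    have n2 : IsNoetherianRing (Subring.closure ((φ.range : Set K) ∪ (g0 : Set K))) :=
      isNoetherianRing_closure (A := φ.range) g0
    exact isNoetherianRing_locV V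
  have hA0V := S.sub
  have hA0l := S.loc
  have halg := S.alg
  have hyind := S.yind
  have hdim := S.dim
  generalize locV V (Subring.closure ((φ.range : Set K) ∪ (g0 : Set K))) = A0 at *
  have hA0V1 : A0 ≤ V1.toSubring := hA0V.trans S.le
  have hA1eq : A1 = locV V (Subring.closure ((A0 : Set K) ∪ (Set.range y ∪ (g2 : Set K)))) := by
    refine le_antisymm ?_ ?_
    · rw [hg2]
      apply locV_mono
      apply Subring.closure_mono
      rintro z (hz | hz)
      · exact Or.inl (hφA0 hz)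
      · exact Or.inr (Or.inr hz)
    · refine le_trans (locV_mono V (?_ : _ ≤ A1)) hA1l.le
      rw [Subring.closure_le]
      rintro z (hz | ⟨j, rfl⟩ | hz)
      · exact hA01 hz
      · exact hyA1 j
      · exact hg2A hz
  have hB : im V1 A1 = locV (resV V V1 S.le) (Subring.closure ((im V1 A0 : Set (ResidueField V1)) ∪
      (rs V1 '' (Set.range y ∪ (g2 : Set K))))) := by
    conv_lhs => rw [hA1eq]
    refine SA_gen S.le hA0V _ ?_
    rintro z (⟨j, rfl⟩ | hz)
    · exact S.ymem j
    · exact hA1V (hg2A hz)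
  have hB0V : im V1 A0 ≤ (resV V V1 S.le).toSubring := im_le_resV S.le A0 hA0V
  have hB0l : locV (resV V V1 S.le) (im V1 A0) = im V1 A0 := locV_im S.le A0 hA0V hA0l
  have hB0n : IsNoetherianRing (im V1 A0) := isNoetherianRing_im A0 hA0V1
  have hB0alg : ∀ w : ResidueField V1, AlgOver (im V1 A0) w := SA_alg (V := V) hA0V1 halg
  have hB0res := SA_res S.le hA0V S.ymem hyind
  have hyV' : ∀ j, rs V1 (y j) ∈ resV V V1 S.le := fun j =>
    (rs_mem_resV S.le (S.le (S.ymem j))).2 (S.ymem j)
  have hd1 := dim_alg_res (resV V V1 S.le) (im V1 A0) hB0V hB0l (fun j => rs V1 (y j))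
    (fun j => ⟨hyV' j, hB0alg _⟩) hB0res
  -- the ring `C`
  have hcl1 : Subring.closure ((im V1 A0 : Set (ResidueField V1)) ∪
      Set.range fun j => rs V1 (y j)) ≤ (resV V V1 S.le).toSubring := by
    refine closure_le_val _ _ hB0V _ ?_
    rintro _ ⟨j, rfl⟩
    exact hyV' j
  have hCn : IsNoetherianRing (locV (resV V V1 S.le) (Subring.closure
      ((im V1 A0 : Set (ResidueField V1)) ∪ Set.range fun j => rs V1 (y j)))) := by
    have n1 : IsNoetherianRing (Subring.closure ((im V1 A0 : Set (ResidueField V1)) ∪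
        ((Finset.univ.image fun j => rs V1 (y j) : Finset (ResidueField V1)) :
          Set (ResidueField V1)))) := isNoetherianRing_closure (A := im V1 A0) _
    rw [Finset.coe_image, Finset.coe_univ, Set.image_univ] at n1
    exact isNoetherianRing_locV _
  have hCV := locV_le (resV V V1 S.le) hcl1
  have hCl := locV_locV (resV V V1 S.le) (Subring.closure
      ((im V1 A0 : Set (ResidueField V1)) ∪ Set.range fun j => rs V1 (y j)))
  have hB0C : im V1 A0 ≤ locV (resV V V1 S.le) (Subring.closure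
      ((im V1 A0 : Set (ResidueField V1)) ∪ Set.range fun j => rs V1 (y j))) :=
    fun z hz => le_locV _ _ (Subring.subset_closure (Or.inl hz))
  have hBC : im V1 A1 = locV (resV V V1 S.le) (Subring.closure
      ((locV (resV V V1 S.le) (Subring.closure
      ((im V1 A0 : Set (ResidueField V1)) ∪ Set.range fun j => rs V1 (y j))) :
        Set (ResidueField V1)) ∪ ((g2.image (rs V1) : Finset (ResidueField V1)) :
          Set (ResidueField V1)))) := by
    rw [locV_closure_locV (le_refl _), A2_closure_closure, hB]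
    congr 3
    rw [Set.image_union, Finset.coe_image]
    congr 1
    rw [← Set.range_comp]
    rfl
  generalize locV (resV V V1 S.le) (Subring.closure
      ((im V1 A0 : Set (ResidueField V1)) ∪ Set.range fun j => rs V1 (y j))) = C at *
  have hd2 := dim_alg (resV V V1 S.le) C hCV hCl (g2.image (rs V1)) (by
    intro t ht
    obtain ⟨z, hz, rfl⟩ := Finset.mem_image.1 ht
    have hzV : z ∈ V := hA1V (hg2A hz)
    exact ⟨(rs_mem_resV S.le (S.le hzV)).2 hzV, (hB0alg _).mono hB0C⟩)
  rw [← hBC] at hd2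
  have hdB : ringKrullDim (im V1 A1) ≤ (r : WithBot ℕ∞) := by
    obtain ⟨m, hm⟩ := exists_nat_dim (resV V V1 S.le) C hCV hCl
    refine hd2.trans ?_
    rw [hm] at hd1 ⊢
    have h1 : ((m : ℕ) : WithBot ℕ∞) + ((s : ℕ) : WithBot ℕ∞) ≤ ((r + s : ℕ) : WithBot ℕ∞) :=
      hd1.trans hdim
    have h2 : m + s ≤ r + s := by exact_mod_cast h1
    have h3 : m ≤ r := by omega
    exact_mod_cast h3
  -- apply the theorem for Abhyankar valuations
  have hBV : im V1 A1 ≤ (resV V V1 S.le).toSubring := im_le_resV S.le A1 hA1V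
  have hBl : locV (resV V V1 S.le) (im V1 A1) = im V1 A1 := locV_im S.le A1 hA1V hA1l
  have hBn : IsNoetherianRing (im V1 A1) := isNoetherianRing_im A1 hA1V1
  have hx' : IndV (resV V V1 S.le) fun i => rs V1 (x i) := by
    refine ⟨fun i => rs_ne_zero (S.one i), fun δ hδ => S.ind δ ?_⟩
    rw [← rs_mon x S.one δ] at hδ
    have hm1 : V1.valuation (mon x δ) = 1 := by
      unfold mon
      rw [map_prod]
      exact Finset.prod_eq_one fun i _ => by rw [map_zpow₀, S.one i, one_zpow]
    have hmV1 : mon x δ ∈ V1 := (V1.valuation_le_one_iff _).1 hm1.le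
    have hmV : mon x δ ∈ V :=
      (rs_mem_resV S.le hmV1).1 (((resV V V1 S.le).valuation_le_one_iff _).1 hδ.le)
    exact (rs_resV_val S.le hmV).1 hδ
  have hE : EMB (resV V V1 S.le) (im V1 A1) r := by
    refine embAt Rb (fun B _ _ _ _ f hf => anUnr_of_GFR B (hRb.2 B f hf)) r
      (ResidueField V1) (resV V V1 S.le) (im V1 A1) hBV hBl
      ((toIm V1 A1 hA1V1).comp f1) (EFT_comp_surjective _ _ hf1 (toIm_surjective V1 _ _))
      (fun i => rs V1 (x i)) hx' ?_ hdB
    intro i
    have hxV1 : x i ∈ V1 := (V1.valuation_le_one_iff _).1 (S.one i).le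
    rcases hxA1 i with h | h
    · exact ⟨rs V1 (x i), (mem_im_iff hA1V1 _).2 ⟨_, h, rfl⟩, 1, one_mem _, one_ne_zero,
        mul_one _⟩
    · refine ⟨1, one_mem _, rs V1 (x i)⁻¹, (mem_im_iff hA1V1 _).2 ⟨_, h, rfl⟩, ?_, ?_⟩
      · rw [rs_inv (S.one i)]
        exact inv_ne_zero (rs_ne_zero (S.one i))
      · rw [rs_inv (S.one i), mul_inv_cancel₀ (rs_ne_zero (S.one i))]
  exact EMB3_of_EMB hBV hE

theorem unif_A {Rb K : Type} [CommRing Rb] [Field K] (hRb : GoodBase Rb) (φ : Rb →+* K)
    {V V1 : ValuationSubring K} (g0 : Finset K) {r s : ℕ} {x : Fin r → K} {y : Fin s → K}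
    (S : AStep V1 V (locV V (Subring.closure ((φ.range : Set K) ∪ (g0 : Set K)))) x y)
    {r1 : ℕ} (H : Unif φ V1 r1) : Unif φ V (r1 + r) := by
  classical
  intro A hA hloc f hfφ hf hfrac
  have nRb : IsNoetherianRing Rb := hRb.1
  -- the elements to adjoin
  have hxx : ∀ i, ∃ t : K, t ∈ V ∧ (t = x i ∨ t = (x i)⁻¹) := by
    intro i
    rcases V.mem_or_inv_mem (x i) with h | h
    · exact ⟨_, h, Or.inl rfl⟩
    · exact ⟨_, h, Or.inr rfl⟩
  choose x' hx'V hx' using hxx
  set g : Finset K := g0 ∪ (Finset.univ.image y ∪ Finset.univ.image x') with hg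
  have hgV : ∀ t ∈ g, t ∈ V ∧ ∃ a ∈ A, ∃ b ∈ A, b ≠ 0 ∧ t * b = a := by
    intro t ht
    refine ⟨?_, hfrac t⟩
    rcases Finset.mem_union.1 ht with ht | ht
    · exact S.sub (le_locV _ _ (Subring.subset_closure (Or.inr ht)))
    rcases Finset.mem_union.1 ht with ht | ht
    · obtain ⟨j, _, rfl⟩ := Finset.mem_image.1 ht
      exact S.ymem j
    · obtain ⟨i, _, rfl⟩ := Finset.mem_image.1 ht
      exact hx'V i
  refine EMB3_trans V A g hgV ?_ hA
  have hcl : Subring.closure ((A : Set K) ∪ (g : Set K)) ≤ V.toSubring :=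
    closure_le_val V A hA _ fun t ht => (hgV t ht).1
  have hA' : locV V (Subring.closure ((A : Set K) ∪ (g : Set K))) ≤ V.toSubring :=
    locV_le _ hcl
  have hloc' := locV_locV V (Subring.closure ((A : Set K) ∪ (g : Set K)))
  have hAA' : A ≤ locV V (Subring.closure ((A : Set K) ∪ (g : Set K))) :=
    fun a ha => le_locV _ _ (Subring.subset_closure (Or.inl ha))
  have hf' : ∃ f' : Rb →+* locV V (Subring.closure ((A : Set K) ∪ (g : Set K))), EFT f' ∧
      ∀ c, (f' c : K) = φ c :=
    ⟨_, EFT_locV V A f hf g (Subring.inclusion hAA') (fun a => rfl), fun c => hfφ c⟩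
  have hgA' : ∀ t ∈ g, t ∈ locV V (Subring.closure ((A : Set K) ∪ (g : Set K))) := fun t ht =>
    le_locV _ _ (Subring.subset_closure (Or.inr ht))
  have hA0A' : locV V (Subring.closure ((φ.range : Set K) ∪ (g0 : Set K))) ≤
      locV V (Subring.closure ((A : Set K) ∪ (g : Set K))) := by
    apply locV_mono
    apply Subring.closure_mono
    rintro z (⟨c, rfl⟩ | hz)
    · left
      rw [← hfφ c]
      exact (f c).2
    · right
      rw [hg]
      exact Finset.mem_union_left _ hz
  generalize locV V (Subring.closure ((A : Set K) ∪ (g : Set K))) = A' at *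
  obtain ⟨f', hf', hf'φ⟩ := hf'
  have nA' : IsNoetherianRing A' := hf'.isNoetherianRing
  have hfrac' : ∀ z : K, ∃ a ∈ A', ∃ b ∈ A', b ≠ 0 ∧ z * b = a := by
    intro z
    obtain ⟨a, ha, b, hb, hb0, h⟩ := hfrac z
    exact ⟨a, hAA' ha, b, hAA' hb, hb0, h⟩
  have hA'V1 : A' ≤ V1.toSubring := hA'.trans S.le
  refine EMB3_comp S.le A' hA' ?_ ?_
  · -- the coarser valuation
    refine H (locV V1 A') (locV_le _ hA'V1) (locV_locV _ _)
      ((Subring.inclusion (le_locV V1 A')).comp f') (fun c => hf'φ c)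
      (EFT_locV' V1 A' f' hf' (Subring.inclusion (le_locV V1 A')) (fun a => rfl)) ?_
    intro z
    obtain ⟨a, ha, b, hb, hb0, h⟩ := hfrac' z
    exact ⟨a, le_locV _ _ ha, b, le_locV _ _ hb, hb0, h⟩
  · -- the residual valuation
    intro g1 hg1
    have hcl1 : Subring.closure ((A' : Set K) ∪ (g1 : Set K)) ≤ V.toSubring :=
      closure_le_val V A' hA' _ fun t ht => (hg1 t ht).1
    have hA1V : locV V (Subring.closure ((A' : Set K) ∪ (g1 : Set K))) ≤ V.toSubring :=
      locV_le V hcl1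
    have hAA1 : A' ≤ locV V (Subring.closure ((A' : Set K) ∪ (g1 : Set K))) :=
      fun a ha => le_locV V _ (Subring.subset_closure (Or.inl ha))
    have hf1 : EFT ((Subring.inclusion hAA1).comp f') :=
      EFT_locV V A' f' hf' g1 (Subring.inclusion hAA1) (fun a => rfl)
    refine SA_part hRb φ g0 S _ hA1V (locV_locV V _) ((Subring.inclusion hAA1).comp f')
      (fun c => hf'φ c) hf1 (hA0A'.trans hAA1) ?_ ?_
    · intro j
      refine hAA1 (hgA' _ ?_)
      rw [hg]
      exact Finset.mem_union_right _ (Finset.mem_union_left _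
        (Finset.mem_image_of_mem _ (Finset.mem_univ _)))
    · intro i
      have h1 : x' i ∈ A' := by
        refine hgA' _ ?_
        rw [hg]
        exact Finset.mem_union_right _ (Finset.mem_union_right _
          (Finset.mem_image_of_mem _ (Finset.mem_univ _)))
      rcases hx' i with h | h
      · left
        rw [← h]
        exact hAA1 h1
      · right
        rw [← h]
        exact hAA1 h1

end TC
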