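import Pool.Agent.Lib.TC.Defs

/-!
# Module TC.Tr: translation of statements about `V` modulo `V1` to the residual valuation

Let `V ≤ V1`, `V' = resV V V1 h` on `L = ResidueField V1`.

PROOFS.  Every nonzero element of `L` is `rs V1 w` with `V1.valuation w = 1` (`residue_surjective`, `rs_coe`,
`rs_val_one`).
* `exists_lift_ne`: this.
* `val_le_iff`: for `V1`-units `a, b`: `V'(rs a) ≤ V'(rs b)` iff `rs a / rs b ∈ V'` iff `rs (a / b) ∈ V'`
  iff `a / b ∈ V` (`rs_mem_resV`) iff `V(a) ≤ V(b)` (`rs_inv`, `rs_mul`; `ValuationSubring.valuation_le_one_iff`,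
  `map_div₀`, `div_le_one₀`).
* `val_eq_iff`: two inequalities.
* `tr_ind`: `rs_mon` and `val_eq_iff` with `1` (`rs_one`).
* `tr_arch`: `a = rs a'`, `V1.valuation a' = 1`; `b = 0`: `n = 1`, `V'(0) = 0 ≤ _`; `b ≠ 0`: `b = rs b'`,
  `V.valuation b' < 1` (`V'(rs b') < 1`, `val_le_iff`/`rs_resV_lt` after `b' ∈ V`), `hb`, `rs_pow`, `val_le_iff`.
* `tr_gen`, `tr_gen1`: `val_eq_iff`, `rs_mon`, `rs_zpow`.
* `tr_rank`: lift the `z i`, `rs_mon`, `val_eq_iff`.
-/

open IsLocalRing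

namespace TC
open Pool.Agent.Lib.MP_3029eb_ag Pool.Agent.Lib.MP_3029eb_ag.Abh

section
variable {K : Type} [Field K] {V V1 : ValuationSubring K}

theorem exists_lift_ne (z : ResidueField V1) (hz : z ≠ 0) :
    ∃ w : K, V1.valuation w = 1 ∧ rs V1 w = z := by
  obtain ⟨u, rfl⟩ := residue_surjective z
  rw [← rs_coe] at hz ⊢
  exact ⟨u, rs_val_one u.2 hz, rfl⟩

theorem val_le_iff (h : V ≤ V1) {a b : K} (ha : V1.valuation a = 1) (hb : V1.valuation b = 1) :
    (resV V V1 h).valuation (rs V1 a) ≤ (resV V V1 h).valuation (rs V1 b) ↔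
      V.valuation a ≤ V.valuation b := by
  have hb0 : b ≠ 0 := by
    rintro rfl
    rw [map_zero] at hb
    exact zero_ne_one hb
  have ha' := (V1.valuation_le_one_iff a).1 ha.le
  have hbi : V1.valuation b⁻¹ = 1 := by rw [map_inv₀, hb, inv_one]
  have hbi' := (V1.valuation_le_one_iff b⁻¹).1 hbi.le
  have hab : a * b⁻¹ ∈ V1 := V1.mul_mem _ _ ha' hbi'
  have e1 : rs V1 (a * b⁻¹) = rs V1 a * (rs V1 b)⁻¹ := by
    rw [rs_mul ha' hbi', rs_inv hb]
  have hrb : rs V1 b ≠ 0 := rs_ne_zero hb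
  have p1 : (0 : (resV V V1 h).ValueGroup) < (resV V V1 h).valuation (rs V1 b) :=
    zero_lt_iff.2 (by simpa using hrb)
  have p2 : (0 : V.ValueGroup) < V.valuation b := zero_lt_iff.2 (by simpa using hb0)
  have e2 : (resV V V1 h).valuation (rs V1 a) ≤ (resV V V1 h).valuation (rs V1 b) ↔
      rs V1 (a * b⁻¹) ∈ resV V V1 h := by
    rw [← (resV V V1 h).valuation_le_one_iff, e1, map_mul, map_inv₀, ← div_eq_mul_inv,
      div_le_one₀ p1]
  have e3 : V.valuation a ≤ V.valuation b ↔ a * b⁻¹ ∈ V := by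
    rw [← V.valuation_le_one_iff, map_mul, map_inv₀, ← div_eq_mul_inv, div_le_one₀ p2]
  rw [e2, e3, rs_mem_resV h hab]

theorem val_eq_iff (h : V ≤ V1) {a b : K} (ha : V1.valuation a = 1) (hb : V1.valuation b = 1) :
    (resV V V1 h).valuation (rs V1 a) = (resV V V1 h).valuation (rs V1 b) ↔
      V.valuation a = V.valuation b := by
  rw [le_antisymm_iff, le_antisymm_iff, val_le_iff h ha hb, val_le_iff h hb ha]

private theorem val_mon_one {r : ℕ} {x : Fin r → K} (hx1 : ∀ i, V1.valuation (x i) = 1)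
    (δ : Fin r → ℤ) : V1.valuation (mon x δ) = 1 := by
  unfold mon
  rw [map_prod]
  refine Finset.prod_eq_one fun i _ => ?_
  rw [map_zpow₀, hx1 i, one_zpow]

theorem tr_ind (h : V ≤ V1) {r : ℕ} {x : Fin r → K} (hx1 : ∀ i, V1.valuation (x i) = 1)
    (hx : ∀ δ : Fin r → ℤ, V.valuation (mon x δ) = 1 → δ = 0) :
    IndV (resV V V1 h) fun i => rs V1 (x i) := by
  refine ⟨fun i => rs_ne_zero (hx1 i), fun δ hδ => hx δ ?_⟩
  rw [← rs_mon x hx1 δ] at hδ
  have h1 : (resV V V1 h).valuation (rs V1 (mon x δ)) =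
      (resV V V1 h).valuation (rs V1 (1 : K)) := by
    rw [hδ, rs_one, map_one]
  have h2 := (val_eq_iff h (val_mon_one hx1 δ) (map_one V1.valuation)).1 h1
  rw [h2, map_one]

theorem tr_arch (h : V ≤ V1)
    (harch : ∀ a b : K, V1.valuation a = 1 → V1.valuation b = 1 → V.valuation b < 1 →
      ∃ n : ℕ, V.valuation (b ^ n) ≤ V.valuation a) :
    ∀ a b : ResidueField V1, a ≠ 0 → (resV V V1 h).valuation b < 1 →
      ∃ n : ℕ, (resV V V1 h).valuation (b ^ n) ≤ (resV V V1 h).valuation a := by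
  intro a b ha hb
  obtain ⟨a', ha1, rfl⟩ := exists_lift_ne a ha
  rcases eq_or_ne b 0 with rfl | hb0
  · refine ⟨1, ?_⟩
    rw [pow_one, map_zero]
    exact zero_le
  · obtain ⟨b', hb1, rfl⟩ := exists_lift_ne b hb0
    have hlt : V.valuation b' < 1 := by
      have h1 : (resV V V1 h).valuation (rs V1 b') < (resV V V1 h).valuation (rs V1 (1 : K)) := by
        rwa [rs_one, map_one]
      rw [lt_iff_not_ge, val_le_iff h (map_one V1.valuation) hb1, map_one, not_le] at h1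
      exact h1
    obtain ⟨n, hn⟩ := harch a' b' ha1 hb1 hlt
    refine ⟨n, ?_⟩
    rw [← rs_pow ((V1.valuation_le_one_iff b').1 hb1.le),
      val_le_iff h (by rw [map_pow, hb1, one_pow]) ha1]
    exact hn

theorem tr_gen1 (h : V ≤ V1) {π : K} (hπ : V1.valuation π = 1)
    (hgen : ∀ z : K, V1.valuation z = 1 → ∃ n : ℤ, V.valuation z = V.valuation (π ^ n)) :
    ∀ z : ResidueField V1, z ≠ 0 →
      ∃ n : ℤ, (resV V V1 h).valuation z = (resV V V1 h).valuation (rs V1 π ^ n) := by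
  intro z hz
  obtain ⟨w, hw, rfl⟩ := exists_lift_ne z hz
  obtain ⟨n, hn⟩ := hgen w hw
  refine ⟨n, ?_⟩
  rw [← rs_zpow hπ, val_eq_iff h hw (by rw [map_zpow₀, hπ, one_zpow])]
  exact hn

theorem tr_gen (h : V ≤ V1) {r : ℕ} {x : Fin r → K} (hx1 : ∀ i, V1.valuation (x i) = 1)
    (hgen : ∀ z : K, V1.valuation z = 1 →
      ∃ δ : Fin r → ℤ, V.valuation z = V.valuation (mon x δ)) :
    ∀ z : ResidueField V1, z ≠ 0 → ∃ δ : Fin r → ℤ, (resV V V1 h).valuation z =
      (resV V V1 h).valuation (mon (fun i => rs V1 (x i)) δ) := by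
  intro z hz
  obtain ⟨w, hw, rfl⟩ := exists_lift_ne z hz
  obtain ⟨δ, hδ⟩ := hgen w hw
  refine ⟨δ, ?_⟩
  rw [← rs_mon x hx1 δ, val_eq_iff h hw (val_mon_one hx1 δ)]
  exact hδ

theorem tr_rank (h : V ≤ V1) {r : ℕ}
    (hrk : ∀ z : Fin r → K, (∀ i, V1.valuation (z i) = 1) →
      ∃ m : Fin r → ℤ, m ≠ 0 ∧ V.valuation (mon z m) = 1) :
    ∀ z : Fin r → ResidueField V1, (∀ i, z i ≠ 0) →
      ∃ m : Fin r → ℤ, m ≠ 0 ∧ (resV V V1 h).valuation (mon z m) = 1 := by
  intro z hz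
  choose w hw hwz using fun i => exists_lift_ne (z i) (hz i)
  obtain ⟨m, hm, hm1⟩ := hrk w hw
  refine ⟨m, hm, ?_⟩
  have h1 : z = fun i => rs V1 (w i) := funext fun i => (hwz i).symm
  rw [h1, ← rs_mon w hw m]
  have h2 := (val_eq_iff h (val_mon_one hw m) (map_one V1.valuation)).2 (by rw [hm1, map_one])
  rw [h2, rs_one, map_one]

end

end TC
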