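import Pool.Agent.Lib.TC.Defs

/-!
# Module TC.E6: changing the parameters by units; the dimension of the composite

PROOFS.
* `scale3`: copy of `E6_scale` (Pool/Agent/Lib/MP_3029eb_ag/AbhE6.lean; see also `scale2` in ImpSub.lean), scaling
  also the additional parameters: `d j * (b' j)⁻¹`.
* `mem_span3`: `Submodule.span A (Set.range x ∪ Set.range p)` as in `E6_mem_span`, via
  `Fin.append x p` (its range is the union).
* `im_closure_zero`: `im_closure` (Comp1.lean): the residues of the elements of `s` are zero.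
* `locV_eq_of_denoms`: `⊆`: every element of `C ∪ s` is in `locV V1 A1`: for `t ∈ s` there are `d, a` with
  `t * d = a`, `d, a ∈ locV V1 A1`, `V1.valuation d = 1`, hence `t = a * d⁻¹ ∈ locV V1 (locV V1 A1) = locV V1 A1`
  (`locV_locV`); then `locV_mono`, `locV_locV`.  `⊇`: `locV_mono`.
* `dim_comp`: `dim_split h A3 hA3` (AbhC4.lean) and `add_le_of_nat` (AbhAll.lean).
-/

open IsLocalRing

namespace TC
open Pool.Agent.Lib.MP_3029eb_ag Pool.Agent.Lib.MP_3029eb_ag.Abh

theorem scale3 {K : Type} [Field K] {V : ValuationSubring K} {A0 A : Subring K}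
    (hloc : locV V A = A) {r h : ℕ} {u : Fin r → K} {w : Fin h → K} (hG : GoodPar3 V A0 A u w)
    (b : Fin r → K) (hb : ∀ i, b i ∈ A ∧ V.valuation (b i) = 1)
    (b' : Fin h → K) (hb' : ∀ j, b' j ∈ A ∧ V.valuation (b' j) = 1) :
    GoodPar3 V A0 A (fun i => u i * b i) (fun j => w j * b' j) ∧
      ∀ f, MonV V A u f → MonV V A (fun i => u i * b i) f := by
  have hb0 : ∀ i, b i ≠ 0 := by
    intro i h0
    have := (hb i).2
    rw [h0, map_zero] at this
    exact zero_ne_one this
  have hbi : ∀ i, (b i)⁻¹ ∈ A := fun i => E5_inv hloc (hb i).1 (hb i).2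
  have hbi1 : ∀ i, V.valuation (b i)⁻¹ = 1 := fun i => by rw [map_inv₀, (hb i).2, inv_one]
  have hb'0 : ∀ j, b' j ≠ 0 := by
    intro j h0
    have := (hb' j).2
    rw [h0, map_zero] at this
    exact zero_ne_one this
  have hb'i : ∀ j, (b' j)⁻¹ ∈ A := fun j => E5_inv hloc (hb' j).1 (hb' j).2
  have hmono : ∀ f, MonV V A u f → MonV V A (fun i => u i * b i) f := by
    intro f hf
    refine hf.mono le_rfl fun i => ?_
    have h1 : u i = (b i)⁻¹ * (u i * b i) := by
      rw [mul_comm (u i), ← mul_assoc, inv_mul_cancel₀ (hb0 i), one_mul]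
    rw [h1]
    exact (MonV.of_unit (hbi i) (hbi1 i)).mul (MonV.var (u := fun i => u i * b i) i)
  refine ⟨⟨⟨fun i => mul_ne_zero (hG.ind.ne i) (hb0 i), fun δ hδ => ?_⟩,
    fun i => mul_mem (hG.mem i) (hb i).1, fun i => ?_, fun j => mul_mem (hG.wmem j) (hb' j).1,
    fun j => ?_, fun z hz hz1 => ?_, hG.dim, fun z hz => ?_⟩, hmono⟩
  · refine hG.ind.indep δ ?_
    rw [← hδ]
    unfold mon
    rw [map_prod, map_prod]
    exact Finset.prod_congr rfl fun i _ => by
      rw [map_zpow₀, map_zpow₀, map_mul, (hb i).2, mul_one]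
  · rw [map_mul, (hb i).2, mul_one]; exact hG.lt i
  · rw [map_mul, (hb' j).2, mul_one]; exact hG.wlt j
  · obtain ⟨c, d, hc, hd, hs⟩ := hG.gen z hz hz1
    refine ⟨fun i => c i * (b i)⁻¹, fun j => d j * (b' j)⁻¹, fun i => mul_mem (hc i) (hbi i),
      fun j => mul_mem (hd j) (hb'i j), ?_⟩
    rw [hs]
    congr 1
    · refine Finset.sum_congr rfl fun i _ => ?_
      have := hb0 i
      field_simp
    · refine Finset.sum_congr rfl fun j _ => ?_
      have := hb'0 j
      field_simp
  · obtain ⟨D, hD, hDm, hDz⟩ := hG.den z hz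
    exact ⟨D, hD, hmono D hDm, hDz⟩

theorem mem_span_append {K : Type} [Field K] (A : Subring K) {r h : ℕ} (x : Fin r → K)
    (p : Fin h → K) (z : K) :
    z ∈ Submodule.span A (Set.range (Fin.append x p)) ↔ ∃ (c : Fin r → K) (d : Fin h → K),
      (∀ i, c i ∈ A) ∧ (∀ j, d j ∈ A) ∧ z = ∑ i, c i * x i + ∑ j, d j * p j := by
  rw [E6_mem_span]
  constructor
  · rintro ⟨c, hc, hz⟩
    refine ⟨fun i => c (Fin.castAdd h i), fun j => c (Fin.natAdd r j), fun i => hc _,
      fun j => hc _, ?_⟩
    rw [hz, Fin.sum_univ_add]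
    simp only [Fin.append_left, Fin.append_right]
  · rintro ⟨c, d, hc, hd, hz⟩
    refine ⟨Fin.append c d, fun k => ?_, ?_⟩
    · refine Fin.addCases (fun i => ?_) (fun j => ?_) k
      · rw [Fin.append_left]; exact hc i
      · rw [Fin.append_right]; exact hd j
    · rw [hz, Fin.sum_univ_add]
      simp only [Fin.append_left, Fin.append_right]

/-- adjoining elements of the maximal ideal of `V1` does not change the image in the residue field -/
theorem im_closure_zero {K : Type} [Field K] (V1 : ValuationSubring K) (A : Subring K)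
    (hA : A ≤ V1.toSubring) (s : Set K) (hs : ∀ z ∈ s, V1.valuation z < 1) :
    im V1 (Subring.closure ((A : Set K) ∪ s)) = im V1 A := by
  have hs' : ∀ z ∈ s, z ∈ V1 := fun z hz => (V1.valuation_le_one_iff z).1 (hs z hz).le
  rw [im_closure V1 A hA s hs']
  apply le_antisymm
  · rw [Subring.closure_le]
    rintro w (hw | ⟨z, hz, rfl⟩)
    · exact hw
    · have h1 : residue V1 ⟨z, hs' z hz⟩ = 0 := by
        rw [residue_eq_zero_iff]
        exact (V1.valuation_lt_one_iff ⟨z, hs' z hz⟩).2 (hs z hz)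
      rw [h1]
      exact zero_mem _
  · exact fun w hw => Subring.subset_closure (Or.inl hw)

/-- adjoining elements with denominators which are units of `V1` does not change the
localization at the centre of `V1` -/
theorem locV_eq_of_denoms {K : Type} [Field K] (V1 : ValuationSubring K) (A : Subring K)
    (s : Set K)
    (hs : ∀ t ∈ s, ∃ d ∈ locV V1 A, V1.valuation d = 1 ∧ t * d ∈ locV V1 A) :
    locV V1 (Subring.closure ((A : Set K) ∪ s)) = locV V1 A := by
  apply le_antisymm
  · have h1 : Subring.closure ((A : Set K) ∪ s) ≤ locV V1 A := by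
      rw [Subring.closure_le]
      rintro z (hz | hz)
      · exact le_locV V1 A hz
      · obtain ⟨d, hd, hd1, hzd⟩ := hs z hz
        change z ∈ locV V1 A
        rw [← locV_locV]
        exact ⟨z * d, hzd, d, hd, hd1, rfl⟩
    have h2 := locV_mono V1 h1
    rwa [locV_locV] at h2
  · exact locV_mono V1 fun z hz => Subring.subset_closure (Or.inl hz)

theorem dim_comp {K : Type} [Field K] {V V1 : ValuationSubring K} (h : V ≤ V1) (A3 : Subring K)
    (hA3 : A3 ≤ V.toSubring) {a b : ℕ} (ha : ((a : ℕ) : WithBot ℕ∞) ≤ ringKrullDim (locV V1 A3))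
    (hb : ((b : ℕ) : WithBot ℕ∞) ≤ ringKrullDim (im V1 A3)) :
    ((a + b : ℕ) : WithBot ℕ∞) ≤ ringKrullDim A3 := by
  rw [Nat.cast_add]
  exact (add_le_add ha hb).trans (dim_split h A3 hA3)

end TC
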