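import Pool.Agent.Lib.TC.Defs
import Pool.Agent.Lib.MP_3029eb_ag.GRE3

/-!
# Module TC.Base: base rings

PROOFS.
* `goodBase_of_qe`: `GR.gfr_of_essFinite R (GR.isRegularRing_of_regular R H) B` with `Algebra R B := f.toAlgebra`
  (compare the result file of MP_3029eb_ag.EmbeddedAbhyankar and `hRb` in `lu_abhyankar`, AbhResult.lean).
* `goodBase_of_field`: apply `goodBase_of_qe` to the field `k` (a noetherian local ring).  The maximal ideal of `k` is
  `⊥`, so `k` is complete and `algebraMap k (AdicCompletion (maximalIdeal k) k)` is bijective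
  (`AdicCompletion.of` is bijective for an adically complete module; `IsAdicComplete ⊥`, `IsAdicComplete.bot`,
  `AdicCompletion.ofLinearEquiv` or `AdicCompletion.ofAlgEquiv`).  So `L ⊗[k] AdicCompletion _ k ≃+* L ⊗[k] k ≃+* L`
  is a field and its localization at a prime is regular: the only prime is `⊥`, and the localization of a field at
  `⊥` is a field (`IsRegularLocalRing` of a field: instance or `isRegularLocalRing_of_isField`/`of_ringEquiv`).
-/

open IsLocalRing
open scoped TensorProduct

namespace TC
open Pool.Agent.Lib.MP_3029eb_ag Pool.Agent.Lib.MP_3029eb_ag.Abh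

theorem goodBase_of_qe (R : Type) [CommRing R] [IsNoetherianRing R] [IsLocalRing R]
    (H : ∀ (p : Ideal R) [p.IsPrime] (L : Type) [Field L] [Algebra R L]
      [Algebra p.ResidueField L] [IsScalarTower R p.ResidueField L]
      [FiniteDimensional p.ResidueField L]
      (Q : Ideal (L ⊗[R] AdicCompletion (maximalIdeal R) R)) [Q.IsPrime],
      IsRegularLocalRing (Localization.AtPrime Q)) : GoodBase R := by
  refine ⟨inferInstance, ?_⟩
  intro B _ _ _ _ f hf
  let _ : Algebra R B := f.toAlgebra
  have hf' : Algebra.EssFiniteType R B := hf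
  exact GR.gfr_of_essFinite R (GR.isRegularRing_of_regular R H) B

theorem goodBase_of_field (k : Type) [Field k] : GoodBase k := by
  apply goodBase_of_qe
  intro p _ L _ _ _ _ _ Q _
  have hc : IsAdicComplete (maximalIdeal k) k := by
    rw [maximalIdeal_eq_bot]
    infer_instance
  let e1 : k ≃ₐ[k] AdicCompletion (maximalIdeal k) k := AdicCompletion.ofAlgEquiv (maximalIdeal k)
  let e2 : (L ⊗[k] k) ≃ₐ[k] (L ⊗[k] AdicCompletion (maximalIdeal k) k) :=
    Algebra.TensorProduct.congr AlgEquiv.refl e1
  let e3 : (L ⊗[k] k) ≃ₐ[k] L := Algebra.TensorProduct.rid k k L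
  have h1 : IsRegularRing L := inferInstance
  have h2 : IsRegularRing (L ⊗[k] AdicCompletion (maximalIdeal k) k) :=
    IsRegularRing.of_ringEquiv (e3.symm.trans e2).toRingEquiv
  exact h2.isRegularLocalRing_localization Q

end TC
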