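import Pool.Agent.Lib.TC.Defs
import Pool.Agent.Lib.TS.Defs

/-!
# Module TC.ResIso: the residue field of the residual valuation

PROOF.  Let `V ≤ V1`, `V' = resV V V1 h` on `L = ResidueField V1`.  The homomorphism
`V → V'`, `v ↦ ⟨residue V1 ⟨v, h v.2⟩, _⟩`, is surjective (`resV` is the range of `residue V1 ∘ inclusion`) and local
(`rs_resV_val`, `C1_resV_val`: an element of `V` has value one iff its residue has `V'`-value one), so it induces an
isomorphism `e : ResidueField V ≃+* ResidueField V'` (`IsLocalRing.ResidueField.map`, bijective: injective as a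
homomorphism of fields, surjective).  It is compatible with the homomorphisms from `k`: for `c : k` both
`resMap V' _ c` and `e (resMap V hk c)` are the residue of the residue of `algebraMap k K c`.  The first statement says
that the constants are in `V'`; for the second transport `Algebra.EssFiniteType` and `Algebra.trdeg` along `e`
(`Algebra.EssFiniteType.of_surjective` or `.algEquiv`, `AlgEquiv.trdeg_eq` / `Algebra.trdeg_eq_of_algEquiv`), with the
algebra structures `(resMap V hk).toAlgebra` and `(resMap V' _).toAlgebra` (here `k` acts on `L` by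
`(resMap V1 hk1).toAlgebra`).
-/

open IsLocalRing

namespace TC
open Pool.Agent.Lib.MP_3029eb_ag Pool.Agent.Lib.MP_3029eb_ag.Abh

private theorem resiso_transport {k R S : Type} [Field k] [Field R] [Field S] (i : k →+* R)
    (j : k →+* S) (e : R ≃+* S) (he : ∀ c, e (i c) = j c) (n : Cardinal)
    (h1 : letI := i.toAlgebra; Algebra.EssFiniteType k R)
    (h2 : letI := i.toAlgebra; Algebra.trdeg k R = n) :
    (letI := j.toAlgebra; Algebra.EssFiniteType k S) ∧
      (letI := j.toAlgebra; Algebra.trdeg k S = n) := by
  let _ := i.toAlgebra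
  let _ := j.toAlgebra
  let E : R ≃ₐ[k] S := { e with commutes' := he }
  refine ⟨?_, ?_⟩
  · exact Algebra.EssFiniteType.of_surjective E.toAlgHom E.surjective
  · rw [← h2]
    exact (AlgEquiv.trdeg_eq E).symm

theorem const_mem_resV {k K : Type} [Field k] [Field K] [Algebra k K]
    {V V1 : ValuationSubring K} (h : V ≤ V1) (hk : ∀ c : k, algebraMap k K c ∈ V)
    (hk1 : ∀ c : k, algebraMap k K c ∈ V1) :
    letI := (TA.resMap V1 hk1).toAlgebra
    ∀ c : k, algebraMap k (ResidueField V1) c ∈ resV V V1 h := by
  intro c
  exact ⟨⟨algebraMap k K c, hk c⟩, rfl⟩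

/-- the homomorphism from `V` onto the residual valuation ring -/
private noncomputable def toResV {K : Type} [Field K] {V V1 : ValuationSubring K} (h : V ≤ V1) :
    V →+* resV V V1 h :=
  RingHom.codRestrict ((residue V1).comp (ValuationSubring.inclusion V V1 h))
    (resV V V1 h).toSubring (fun v => ⟨v, rfl⟩)

private theorem toResV_val {K : Type} [Field K] {V V1 : ValuationSubring K} (h : V ≤ V1) (v : V) :
    ((toResV h v : resV V V1 h) : ResidueField V1) =
      residue V1 (ValuationSubring.inclusion V V1 h v) := rfl

private theorem toResV_surj {K : Type} [Field K] {V V1 : ValuationSubring K} (h : V ≤ V1) :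
    Function.Surjective (toResV h) := by
  intro x
  obtain ⟨v, hv⟩ := x.2
  exact ⟨v, Subtype.ext ((toResV_val h v).trans hv)⟩

private theorem toResV_local {K : Type} [Field K] {V V1 : ValuationSubring K} (h : V ≤ V1) :
    IsLocalHom (toResV h) := by
  refine ⟨fun v hv => ?_⟩
  rw [ValuationSubring.valuation_eq_one_iff] at hv ⊢
  exact (C1_resV_val h ⟨v, h v.2⟩ v.2).1 hv

theorem resFG_resV {k K : Type} [Field k] [Field K] [Algebra k K]
    {V V1 : ValuationSubring K} (h : V ≤ V1) (hk : ∀ c : k, algebraMap k K c ∈ V)
    (hk1 : ∀ c : k, algebraMap k K c ∈ V1) {s : ℕ} (hs : TA.ResFG V hk s) :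
    letI := (TA.resMap V1 hk1).toAlgebra
    TA.ResFG (resV V V1 h) (const_mem_resV h hk hk1) s := by
  let _ := (TA.resMap V1 hk1).toAlgebra
  have hloc := toResV_local h
  have hbij : Function.Bijective (ResidueField.map (toResV h)) := by
    refine ⟨(ResidueField.map (toResV h)).injective, ?_⟩
    intro y
    obtain ⟨x, rfl⟩ := residue_surjective y
    obtain ⟨v, rfl⟩ := toResV_surj h x
    exact ⟨residue V v, ResidueField.map_residue _ _⟩
  obtain ⟨h1, h2⟩ := resiso_transport (TA.resMap V hk)
    (TA.resMap (resV V V1 h) (const_mem_resV h hk hk1))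
    (RingEquiv.ofBijective _ hbij) (fun c => ResidueField.map_residue _ _) _ hs.fg hs.tr
  exact ⟨h1, h2⟩

end TC
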