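import Pool.Agent.Lib.TC.StepA
import Pool.Agent.Lib.TC.ResIso
import Pool.Agent.Lib.TC.Base

/-!
# Module TC.StepAk: dimension and transcendence degree; Abhyankar steps over a field
-/

open IsLocalRing

namespace TC
open Pool.Agent.Lib.MP_3029eb_ag Pool.Agent.Lib.MP_3029eb_ag.Abh

private theorem dim_int (A B : Type) [CommRing A] [CommRing B] [Algebra A B]
    [Algebra.IsIntegral A B] : ringKrullDim B ≤ ringKrullDim A := by
  refine Order.krullDim_le_of_strictMono
    (fun p : PrimeSpectrum B => PrimeSpectrum.comap (algebraMap A B) p) fun p q hpq => ?_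
  exact Ideal.IsIntegral.comap_lt_comap (I := p.asIdeal) (J := q.asIdeal) hpq

private theorem dim_loc (C B : Type) [CommRing C] [CommRing B] [Algebra C B] (M : Submonoid C)
    [IsLocalization M B] : ringKrullDim B ≤ ringKrullDim C := by
  refine Order.krullDim_le_of_strictMono
    (fun p : PrimeSpectrum B => PrimeSpectrum.comap (algebraMap C B) p) fun p q hpq => ?_
  have hinj := PrimeSpectrum.localization_comap_injective B M
  have hm : PrimeSpectrum.comap (algebraMap C B) p ≤ PrimeSpectrum.comap (algebraMap C B) q :=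
    Ideal.comap_mono hpq.le
  exact lt_of_le_of_ne hm fun h => hpq.ne (hinj h)

open scoped IntermediateField.algebraAdjoinAdjoin in
theorem dim_le_trdeg (k B : Type) [Field k] [CommRing B] [IsDomain B] [Algebra k B]
    [Algebra.EssFiniteType k B] {n : ℕ} (hn : Algebra.trdeg k B ≤ (n : Cardinal)) :
    ringKrullDim B ≤ ((n : ℕ) : WithBot ℕ∞) := by
  obtain ⟨s, g, hginj, hgint⟩ :=
    exists_integral_inj_algHom_of_fg k (Algebra.EssFiniteType.subalgebra k B)
  let : Algebra (MvPolynomial (Fin s) k) (Algebra.EssFiniteType.subalgebra k B) :=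
    g.toRingHom.toAlgebra
  have hst : IsScalarTower k (MvPolynomial (Fin s) k) (Algebra.EssFiniteType.subalgebra k B) :=
    IsScalarTower.of_algebraMap_eq fun c => (g.commutes c).symm
  have hint : Algebra.IsIntegral (MvPolynomial (Fin s) k)
    (Algebra.EssFiniteType.subalgebra k B) := ⟨hgint⟩
  have h1 : ringKrullDim B ≤ ringKrullDim (Algebra.EssFiniteType.subalgebra k B) :=
    dim_loc _ _ (Algebra.EssFiniteType.submonoid k B)
  have h2 : ringKrullDim (Algebra.EssFiniteType.subalgebra k B) ≤
      ringKrullDim (MvPolynomial (Fin s) k) := dim_int _ _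
  have h3 : ringKrullDim (MvPolynomial (Fin s) k) = ((s : ℕ) : WithBot ℕ∞) := by
    simp
  have h4 : s ≤ n := by
    have h5 : ((s : ℕ) : Cardinal) ≤ Algebra.trdeg k B := by
      have h6 := trdeg_le_of_injective
        ((Algebra.EssFiniteType.subalgebra k B).val.comp g)
        (Subtype.val_injective.comp hginj)
      rw [MvPolynomial.trdeg_of_isDomain] at h6
      simpa using h6
    exact_mod_cast h5.trans hn
  calc ringKrullDim B ≤ ((s : ℕ) : WithBot ℕ∞) := (h1.trans h2).trans h3.le
    _ ≤ _ := by exact_mod_cast h4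

private theorem dim_units {k B : Type} [Field k] [CommRing B] [IsDomain B] [Algebra k B]
    [Algebra.EssFiniteType k B] {s n : ℕ} (y : Fin s → B)
    (hy : ∀ P : MvPolynomial (Fin s) k, P ≠ 0 → IsUnit (MvPolynomial.aeval y P))
    (hn : Algebra.trdeg k B ≤ ((n + s : ℕ) : Cardinal)) :
    ringKrullDim B ≤ ((n : ℕ) : WithBot ℕ∞) := by
  let F := FractionRing (MvPolynomial (Fin s) k)
  let φ : F →+* B := IsLocalization.lift (M := nonZeroDivisors (MvPolynomial (Fin s) k))
    (g := (MvPolynomial.aeval y : MvPolynomial (Fin s) k →ₐ[k] B).toRingHom)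
    fun P => hy P (nonZeroDivisors.ne_zero P.2)
  let : Algebra F B := φ.toAlgebra
  have hst : IsScalarTower k F B := IsScalarTower.of_algebraMap_eq fun c => by
    show _ = φ (algebraMap k F c)
    rw [IsScalarTower.algebraMap_apply k (MvPolynomial (Fin s) k) F]
    refine Eq.trans ?_ (IsLocalization.lift_eq _ _).symm
    exact ((MvPolynomial.aeval y : MvPolynomial (Fin s) k →ₐ[k] B).commutes c).symm
  have : Algebra.EssFiniteType F B := Algebra.EssFiniteType.of_comp k F B
  refine dim_le_trdeg F B ?_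
  have h1 : Algebra.trdeg k F + Algebra.trdeg F B ≤ Algebra.trdeg k B := trdeg_add_le
  have h2 : ((s : ℕ) : Cardinal) ≤ Algebra.trdeg k F := by
    have h3 := trdeg_le_of_injective
      (IsScalarTower.toAlgHom k (MvPolynomial (Fin s) k) F)
      (IsFractionRing.injective (MvPolynomial (Fin s) k) F)
    rw [MvPolynomial.trdeg_of_isDomain] at h3
    simpa using h3
  have h4 : ((s : ℕ) : Cardinal) + Algebra.trdeg F B ≤ ((n + s : ℕ) : Cardinal) :=
    ((add_le_add_left h2 _).trans h1).trans hn
  have h5 : Algebra.trdeg F B < Cardinal.aleph0 :=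
    (le_add_left le_rfl).trans_lt (h4.trans_lt (Cardinal.natCast_lt_aleph0 (n := n + s)))
  obtain ⟨m, hm⟩ := Cardinal.lt_aleph0.1 h5
  rw [hm] at h4 ⊢
  have h6 : s + m ≤ n + s := by exact_mod_cast h4
  have h7 : m ≤ n := by omega
  exact_mod_cast h7

/-- lifts of a transcendence basis of the residue field -/
theorem exists_res_lifts {k K : Type} [Field k] [Field K] [Algebra k K] (V : ValuationSubring K)
    (hk : ∀ c : k, algebraMap k K c ∈ V) {s : ℕ}
    (hs : letI := (TA.resMap V hk).toAlgebra
      Algebra.trdeg k (ResidueField V) = ((s : ℕ) : Cardinal)) :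
    ∃ y : Fin s → K, (∀ j, y j ∈ V) ∧
      ∀ p : MvPolynomial (Fin s) k, V.valuation (MvPolynomial.aeval y p) < 1 → p = 0 := by
  let : Algebra k (ResidueField V) := (TA.resMap V hk).toAlgebra
  have hs : Algebra.trdeg k (ResidueField V) = ((s : ℕ) : Cardinal) := hs
  obtain ⟨S, hS⟩ := exists_isTranscendenceBasis k (ResidueField V)
  have hc := hS.cardinalMk_eq_trdeg
  rw [hs] at hc
  have e : Nonempty (Fin s ≃ S) := by
    rw [← Cardinal.eq, hc, Cardinal.mk_fin]
  obtain ⟨e⟩ := e
  have hb : AlgebraicIndependent k (fun j : Fin s => ((e j : S) : ResidueField V)) :=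
    hS.1.comp e e.injective
  have hl : ∀ j, ∃ v : V, residue V v = ((e j : S) : ResidueField V) := fun j =>
    residue_surjective _
  choose v hv using hl
  refine ⟨fun j => v j, fun j => (v j).2, fun p hp => ?_⟩
  let f : k →+* V := (algebraMap k K).codRestrict V.toSubring hk
  have h1 : (MvPolynomial.aeval (fun j => ((v j : V) : K)) p : K) =
      V.toSubring.subtype (MvPolynomial.eval₂ f v p) := by
    rw [MvPolynomial.hom_eval₂]
    exact rfl
  have h2 : residue V (MvPolynomial.eval₂ f v p) =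
      MvPolynomial.aeval (fun j : Fin s => ((e j : S) : ResidueField V)) p := by
    rw [MvPolynomial.hom_eval₂]
    have : (fun j => residue V (v j)) = fun j : Fin s => ((e j : S) : ResidueField V) := funext hv
    rw [this]
    exact rfl
  have h3 : residue V (MvPolynomial.eval₂ f v p) = 0 := by
    rw [residue_eq_zero_iff]
    rw [h1] at hp
    exact (ValuationSubring.valuation_lt_one_iff V _).2 hp
  rw [h2] at h3
  exact (injective_iff_map_eq_zero _).1 hb p h3

/-- if the residues of the elements of `V` span the residue field algebraically -/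
private theorem alg_over {L : Type} [Field L] {k : Type} [Field k] [Algebra k L] (B : Subring L)
    (hkB : ∀ c : k, algebraMap k L c ∈ B) {t : ℕ} {z : Fin t → L} (hz : IsTranscendenceBasis k z)
    (hzB : ∀ i, z i ∈ B ∨ (z i)⁻¹ ∈ B) (c : L) :
    ∃ q : Polynomial B, q ≠ 0 ∧ Polynomial.eval₂ B.subtype c q = 0 := by
  have hal : Algebra.IsAlgebraic (Algebra.adjoin k (Set.range z)) L := hz.isAlgebraic
  let T := Subalgebra.algebraicClosure B L
  have hT : ∀ d ∈ Algebra.adjoin k (Set.range z), d ∈ T := by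
    intro d hd
    induction hd using Algebra.adjoin_induction with
    | mem x hx =>
      obtain ⟨i, rfl⟩ := hx
      rcases hzB i with h | h
      · exact isAlgebraic_algebraMap (⟨z i, h⟩ : B)
      · have h1 : IsAlgebraic B ((z i)⁻¹) := isAlgebraic_algebraMap (⟨(z i)⁻¹, h⟩ : B)
        have h2 := h1.inv
        rwa [inv_inv] at h2
    | algebraMap r => exact isAlgebraic_algebraMap (⟨algebraMap k L r, hkB r⟩ : B)
    | add x y _ _ hx hy => exact add_mem hx hy
    | mul x y _ _ hx hy => exact mul_mem hx hy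
  obtain ⟨p, hp0, hp⟩ := hal.isAlgebraic c
  let ι : Algebra.adjoin k (Set.range z) →+* T :=
    { toFun := fun d => ⟨d, hT d d.2⟩
      map_one' := rfl
      map_zero' := rfl
      map_add' := fun _ _ => rfl
      map_mul' := fun _ _ => rfl }
  have hι : Function.Injective ι := fun a b hab => Subtype.ext (congrArg (fun d : T => (d : L)) hab)
  have h1 : IsAlgebraic T c := by
    refine ⟨p.map ι, (Polynomial.map_ne_zero_iff hι).2 hp0, ?_⟩
    rw [Polynomial.aeval_def, Polynomial.eval₂_map]
    exact hp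
  have h2 : IsAlgebraic B c := h1.restrictScalars B
  obtain ⟨q, hq0, hq⟩ := h2
  exact ⟨q, hq0, hq⟩

theorem unif_Ak {k K : Type} [Field k] [Field K] [Algebra k K] {V V1 : ValuationSubring K}
    (h : V ≤ V1) (hk1 : ∀ c : k, algebraMap k K c ∈ V1) (hk : ∀ c : k, algebraMap k K c ∈ V)
    {r s : ℕ} {x : Fin r → K} (hx1 : ∀ i, V1.valuation (x i) = 1)
    (hx : ∀ δ : Fin r → ℤ, V.valuation (mon x δ) = 1 → δ = 0)
    (hs : letI := (TA.resMap V hk).toAlgebra
      Algebra.trdeg k (ResidueField V) = ((s : ℕ) : Cardinal))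
    (hs1 : letI := (TA.resMap V1 hk1).toAlgebra
      Algebra.trdeg k (ResidueField V1) ≤ ((r + s : ℕ) : Cardinal)) {r1 : ℕ}
    (H : Unif (algebraMap k K) V1 r1) : Unif (algebraMap k K) V (r1 + r) := by
  classical
  obtain ⟨y, hyV, hy⟩ := exists_res_lifts V hk hs
  have ht : ∃ t : ℕ, letI := (TA.resMap V1 hk1).toAlgebra
      Algebra.trdeg k (ResidueField V1) = ((t : ℕ) : Cardinal) := by
    refine Cardinal.lt_aleph0.1 (lt_of_le_of_lt hs1 ?_)
    exact Cardinal.natCast_lt_aleph0 (n := r + s)
  obtain ⟨t, ht⟩ := ht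
  obtain ⟨z, w, hz, hwV, hzw⟩ := exists_tr_lifts h hk1 ht
  let : Algebra k (ResidueField V1) := (TA.resMap V1 hk1).toAlgebra
  have hs1 : Algebra.trdeg k (ResidueField V1) ≤ ((r + s : ℕ) : Cardinal) := hs1
  have hz : IsTranscendenceBasis k z := hz
  set g0 : Finset K := Finset.univ.image y ∪ Finset.univ.image w with hg0
  set Rk : Subring K := (algebraMap k K).range with hRk
  have hRkV : Rk ≤ V.toSubring := by
    rintro _ ⟨c, rfl⟩
    exact hk c
  have hg0V : ∀ v ∈ (g0 : Set K), v ∈ V := by
    intro v hv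
    rw [Finset.mem_coe, hg0, Finset.mem_union, Finset.mem_image, Finset.mem_image] at hv
    rcases hv with ⟨j, -, rfl⟩ | ⟨j, -, rfl⟩
    · exact hyV j
    · exact hwV j
  set C : Subring K := Subring.closure ((Rk : Set K) ∪ (g0 : Set K)) with hC
  have hCV : C ≤ V.toSubring := closure_le_val V Rk hRkV _ hg0V
  set A0 : Subring K := locV V C with hA0
  have hA0V : A0 ≤ V.toSubring := locV_le _ hCV
  have hA0V1 : A0 ≤ V1.toSubring := hA0V.trans h
  have hloc : locV V A0 = A0 := locV_locV _ _
  have hRA : Rk ≤ A0 := fun v hv => le_locV _ _ (Subring.subset_closure (Or.inl hv))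
  have hgA : ∀ v ∈ g0, v ∈ A0 := fun v hv => le_locV _ _ (Subring.subset_closure (Or.inr hv))
  have hyA : ∀ j, y j ∈ A0 := fun j =>
    hgA _ (Finset.mem_union_left _ (Finset.mem_image_of_mem _ (Finset.mem_univ _)))
  have hwA : ∀ j, w j ∈ A0 := fun j =>
    hgA _ (Finset.mem_union_right _ (Finset.mem_image_of_mem _ (Finset.mem_univ _)))
  -- the homomorphisms from `k`
  let f0 : k →+* A0 := (Subring.inclusion hRA).comp (algebraMap k K).rangeRestrict
  have hf0 : EFT f0 := by
    have h1 : EFT (algebraMap k K).rangeRestrict := by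
      have h2 : EFT (RingHom.id k) := by
        show @Algebra.EssFiniteType k k _ _ (RingHom.id k).toAlgebra
        exact Algebra.EssFiniteType.of_id k
      have h3 := EFT_comp_surjective (RingHom.id k) (algebraMap k K).rangeRestrict h2
        (algebraMap k K).rangeRestrict_surjective
      rwa [RingHom.comp_id] at h3
    exact EFT_locV V Rk _ h1 g0 (Subring.inclusion hRA) fun _ => rfl
  let fB : k →+* im V1 A0 := (toIm V1 A0 hA0V1).comp f0
  have hfB : EFT fB := EFT_comp_surjective f0 _ hf0 (toIm_surjective V1 A0 hA0V1)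
  have hfBk : ∀ c, ((fB c : im V1 A0) : ResidueField V1) = algebraMap k (ResidueField V1) c :=
    fun _ => rfl
  have hzB : ∀ i, z i ∈ im V1 A0 ∨ (z i)⁻¹ ∈ im V1 A0 := by
    intro i
    rcases hzw i with h1 | h1
    · exact Or.inl ((mem_im_iff hA0V1 _).2 ⟨w i, hwA i, h1⟩)
    · exact Or.inr ((mem_im_iff hA0V1 _).2 ⟨w i, hwA i, h1⟩)
  refine unif_A (goodBase_of_field k) (algebraMap k K) g0 (s := 0) (x := x) (y := Fin.elim0)
    ⟨h, hA0V, hloc, ?_, hx1, hx, fun j => j.elim0, ?_, ?_⟩ H
  · -- algebraic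
    intro v hv
    obtain ⟨q, hq0, hq⟩ := alg_over (im V1 A0) (fun c => (hfBk c) ▸ (fB c).2) hz hzB
      (residue V1 ⟨v, hv⟩)
    obtain ⟨f, hf⟩ := Polynomial.map_surjective (toIm V1 A0 hA0V1) (toIm_surjective V1 A0 hA0V1) q
    refine ⟨f, ?_, ?_⟩
    · obtain ⟨n, hn⟩ : ∃ n, q.coeff n ≠ 0 := by
        by_contra hc
        push Not at hc
        exact hq0 (Polynomial.ext fun n => by rw [hc n, Polynomial.coeff_zero])
      refine ⟨n, rs_val_one (hA0V1 (f.coeff n).2) fun h0 => hn ?_⟩
      rw [← hf, Polynomial.coeff_map]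
      rw [rs_eq (hA0V1 (f.coeff n).2)] at h0
      exact Subtype.ext h0
    · have h1 : Polynomial.eval₂ A0.subtype v f = V1.toSubring.subtype
          (Polynomial.eval₂ (Subring.inclusion hA0V1) (⟨v, hv⟩ : V1.toSubring) f) := by
        rw [Polynomial.hom_eval₂]
        rfl
      have h2 : residue V1 (Polynomial.eval₂ (Subring.inclusion hA0V1)
          (⟨v, hv⟩ : V1.toSubring) f) = 0 := by
        have h3 : residue V1 (Polynomial.eval₂ (Subring.inclusion hA0V1)
          (⟨v, hv⟩ : V1.toSubring) f) = Polynomial.eval₂ ((residue V1).comp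
            (Subring.inclusion hA0V1)) (residue V1 ⟨v, hv⟩) f := Polynomial.hom_eval₂ _ _ _ _
        rw [h3, ← hq, ← hf, Polynomial.eval₂_map]
        rfl
      rw [h1]
      exact (ValuationSubring.valuation_lt_one_iff V1 _).1 ((residue_eq_zero_iff _).1 h2)
  · -- residues
    intro p hp m
    obtain ⟨c, rfl⟩ := MvPolynomial.C_surjective (Fin 0) p
    rw [MvPolynomial.eval₂_C] at hp
    rw [MvPolynomial.coeff_C]
    split_ifs
    · exact hp
    · rw [show ((0 : A0) : K) = 0 from rfl, map_zero]
      exact zero_lt_one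
  · -- dimension
    let : Algebra k (im V1 A0) := fB.toAlgebra
    have : Algebra.EssFiniteType k (im V1 A0) := hfB
    have h1 : Algebra.trdeg k (im V1 A0) ≤ ((r + s : ℕ) : Cardinal) := by
      refine le_trans (trdeg_le_of_injective (A' := ResidueField V1)
        { (im V1 A0).subtype with commutes' := hfBk } Subtype.val_injective) hs1
    rw [add_zero]
    refine dim_units (fun j => toIm V1 A0 hA0V1 ⟨y j, hyA j⟩) (fun P hP => ?_) h1
    have h2 : MvPolynomial.aeval (fun j => toIm V1 A0 hA0V1 ⟨y j, hyA j⟩) P =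
        toIm V1 A0 hA0V1 (MvPolynomial.eval₂ f0 (fun j => (⟨y j, hyA j⟩ : A0)) P) := by
      rw [MvPolynomial.hom_eval₂]
      exact rfl
    rw [h2]
    refine IsUnit.map _ ((A2_isUnit_iff V hA0V hloc _).2 ?_)
    have h3 : ((MvPolynomial.eval₂ f0 (fun j => (⟨y j, hyA j⟩ : A0)) P : A0) : K) =
        MvPolynomial.aeval y P := by
      show A0.subtype _ = _
      rw [MvPolynomial.hom_eval₂]
      exact rfl
    rw [h3]
    refine le_antisymm ((V.valuation_le_one_iff _).2 ?_) (not_lt.1 fun hlt => hP (hy P hlt))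
    rw [← h3]
    exact hA0V (Subtype.property _)

end TC
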