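import Pool.Agent.Lib.TC.StepAk

/-!
# Module TC.DimLow: the dimension of local domains essentially of finite type over a field

PROOFS.
* `dim_ge_trdeg`: `B` is a local domain essentially of finite type over `k` with residue field algebraic over `k`.
  `B = C_M`, `C` a finitely generated domain over `k` with the same fraction field (`Algebra.EssFiniteType.subalgebra`;
  `B` is the localization of `C` at the prime `M` of nonunits of `B`), `C / M` is algebraic over `k` so `M` is maximal
  (`Algebra.IsAlgebraic...isField` / `Ideal.isMaximal_of_isIntegral...`), and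
  `trdeg k C ≤ M.height` (`DimFG_alg` in Pool/Agent/Lib/TDO/DimFG.lean is private: copy it) `= ringKrullDim B`.
* `dim_eq`: let `A` be a ring as in the statement.  Let `y j ∈ A` (`j < s`) have residues algebraically independent over
  `k` in `ResidueField V`.  Then `A` contains the field `k' = k(y)` (nonzero polynomials over `k` in the `y j` have value
  one), so `A` is essentially of finite type over `k'` (`Algebra.EssFiniteType.of_comp`), the residue field of `A` is
  contained in `ResidueField V` (trdeg `s` over `k`), so it is algebraic over `k'`; the `y j` are algebraically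
  independent in `K`, so `trdeg k' K = n - s` (`_root_.trdeg_add_eq`).  `dim_le_trdeg k' A` and `dim_ge_trdeg k' A`
  give `ringKrullDim A = n - s` (the fraction field of `A` is `K`).
-/

open IsLocalRing

namespace TC
open Pool.Agent.Lib.MP_3029eb_ag Pool.Agent.Lib.MP_3029eb_ag.Abh

/-- maximal ideals of polynomial rings over a field -/
private theorem DL_mv (k : Type) [Field k] (m : ℕ) :
    ∀ P : Ideal (MvPolynomial (Fin m) k), P.IsMaximal → (m : ℕ∞) ≤ P.height := by
  induction m with
  | zero => intro P _; simp
  | succ m ih =>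
    intro P hP
    let e := (MvPolynomial.finSuccEquiv k m).toRingEquiv
    have hP' : (P.map e).IsMaximal := Ideal.map_isMaximal_of_equiv e
    have h1 : ((P.map e).comap (Polynomial.C : MvPolynomial (Fin m) k →+* _)).IsMaximal :=
      Polynomial.isMaximal_comap_C_of_isJacobsonRing (P.map e)
    have h2 : (P.map e).LiesOver
        ((P.map e).comap (Polynomial.C : MvPolynomial (Fin m) k →+* _)) := ⟨rfl⟩
    have h3 := Polynomial.height_eq_height_add_one
      ((P.map e).comap (Polynomial.C : MvPolynomial (Fin m) k →+* _)) (P.map e)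
    have h4 : (P.map e).height = P.height := e.height_map P
    rw [← h4, h3]
    push_cast
    gcongr
    exact ih _ h1

open scoped IntermediateField.algebraAdjoinAdjoin in
private theorem DL_alg {k C : Type} [Field k] [CommRing C] [IsDomain C] [Algebra k C]
    [Algebra.FiniteType k C] (M : Ideal C) (hM : M.IsMaximal) :
    ∃ s : ℕ, Algebra.trdeg k C = s ∧ (s : ℕ∞) ≤ M.height := by
  obtain ⟨s, g, hginj, hgint⟩ := exists_integral_inj_algHom_of_fg k C
  let : Algebra (MvPolynomial (Fin s) k) C := g.toRingHom.toAlgebra
  have hst : IsScalarTower k (MvPolynomial (Fin s) k) C :=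
    IsScalarTower.of_algebraMap_eq fun c => (g.commutes c).symm
  have hint : Algebra.IsIntegral (MvPolynomial (Fin s) k) C := ⟨hgint⟩
  have hinj : Function.Injective (algebraMap (MvPolynomial (Fin s) k) C) := hginj
  have hfs : FaithfulSMul (MvPolynomial (Fin s) k) C :=
    (faithfulSMul_iff_algebraMap_injective _ _).2 hinj
  have hno : IsNoetherianRing C := Algebra.FiniteType.isNoetherianRing k C
  refine ⟨s, ?_, ?_⟩
  · have h1 := _root_.trdeg_add_eq k (MvPolynomial (Fin s) k) (A := C)
    rw [← h1, _root_.trdeg_eq_zero (R := MvPolynomial (Fin s) k) (A := C), add_zero,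
      MvPolynomial.trdeg_of_isDomain]
    simp
  · have hp : (M.under (MvPolynomial (Fin s) k)).IsMaximal :=
      Ideal.isMaximal_comap_of_isIntegral_of_isMaximal M
    have h2 := Ideal.height_eq_height_add_of_liesOver_of_hasGoingDown
      (M.under (MvPolynomial (Fin s) k)) M
    rw [h2]
    exact (DL_mv k s _ hp).trans (self_le_add_right _ _)

theorem dim_ge_trdeg (k B : Type) [Field k] [CommRing B] [IsDomain B] [IsLocalRing B]
    [Algebra k B] [Algebra.EssFiniteType k B] [Algebra.IsAlgebraic k (ResidueField B)] {n : ℕ}
    (hn : Algebra.trdeg k B = (n : Cardinal)) : ((n : ℕ) : WithBot ℕ∞) ≤ ringKrullDim B := by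
  let C := Algebra.EssFiniteType.subalgebra k B
  have hloc : IsLocalization (Algebra.EssFiniteType.submonoid k B) B := inferInstance
  let f : C →ₐ[k] ResidueField B := (IsScalarTower.toAlgHom k B (ResidueField B)).comp C.val
  have hM : RingHom.ker f = (maximalIdeal B).under C := by
    ext x
    rw [RingHom.mem_ker, Ideal.mem_comap]
    exact residue_eq_zero_iff _
  have halg : Algebra.IsAlgebraic k (C ⧸ RingHom.ker f) :=
    Algebra.IsAlgebraic.of_injective (Ideal.kerLiftAlg f) (Ideal.kerLiftAlg_injective f)
  have hint : Algebra.IsIntegral k (C ⧸ RingHom.ker f) := inferInstance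
  have hprime : (RingHom.ker f).IsPrime := RingHom.ker_isPrime f
  have hMmax : (RingHom.ker f).IsMaximal := by
    apply Ideal.Quotient.maximal_of_isField
    exact isField_of_isIntegral_of_isField' (R := k) (Field.toIsField k)
  obtain ⟨s, hs, hsM⟩ := DL_alg (k := k) (RingHom.ker f) hMmax
  have hh : (RingHom.ker f).height = (maximalIdeal B).height := by
    rw [hM]
    exact IsLocalization.height_under (Algebra.EssFiniteType.submonoid k B) (maximalIdeal B)
  have hCB : Algebra.IsAlgebraic C B := hloc.isAlgebraic
  have h1 := _root_.trdeg_add_eq k C (A := B)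
  rw [_root_.trdeg_eq_zero (R := C) (A := B), add_zero, hs, hn] at h1
  have h2 : s = n := by exact_mod_cast h1
  rw [← IsLocalRing.maximalIdeal_height_eq_ringKrullDim, ← hh, ← h2]
  exact_mod_cast hsM

open scoped IntermediateField.algebraAdjoinAdjoin in
private theorem DL_adj (k : Type) {K : Type} [Field k] [Field K] [Algebra k K] {s : ℕ}
    (y : Fin s → K) (hind : AlgebraicIndependent k y) :
    Algebra.trdeg k (IntermediateField.adjoin k (Set.range y)) = ((s : ℕ) : Cardinal) := by
  have h1 := _root_.trdeg_add_eq k (Algebra.adjoin k (Set.range y))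
    (A := IntermediateField.adjoin k (Set.range y))
  rw [_root_.trdeg_eq_zero (R := Algebra.adjoin k (Set.range y)), add_zero] at h1
  rw [← h1, ← hind.aevalEquiv.trdeg_eq, MvPolynomial.trdeg_of_isDomain]
  simp

theorem dim_eq {k K : Type} [Field k] [Field K] [Algebra k K] (V : ValuationSubring K)
    (hk : ∀ c : k, algebraMap k K c ∈ V) {n s : ℕ}
    (hn : Algebra.trdeg k K = ((n : ℕ) : Cardinal))
    (hs : letI := (TA.resMap V hk).toAlgebra
      Algebra.trdeg k (ResidueField V) = ((s : ℕ) : Cardinal))
    (y : Fin s → K) (hyV : ∀ j, y j ∈ V)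
    (hy : ∀ p : MvPolynomial (Fin s) k, V.valuation (MvPolynomial.aeval y p) < 1 → p = 0)
    (A : Subring K) (hA : A ≤ V.toSubring) (hloc : locV V A = A) (f : k →+* A)
    (hfk : ∀ c, (f c : K) = algebraMap k K c) (hf : EFT f) (hyA : ∀ j, y j ∈ A)
    (hfrac : ∀ z : K, ∃ a ∈ A, ∃ b ∈ A, b ≠ 0 ∧ z * b = a) :
    ∃ d : ℕ, ringKrullDim A = ((d : ℕ) : WithBot ℕ∞) ∧ d + s = n := by
  -- values of polynomials
  have hkA : ∀ c : k, algebraMap k K c ∈ A := fun c => by
    rw [← hfk c]
    exact (f c).2
  have hpA : ∀ p : MvPolynomial (Fin s) k, MvPolynomial.aeval y p ∈ A := by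
    intro p
    induction p using MvPolynomial.induction_on with
    | C a =>
      rw [MvPolynomial.algHom_C]
      exact hkA a
    | add p q hp hq =>
      rw [map_add]
      exact A.add_mem hp hq
    | mul_X p i hp =>
      rw [map_mul, MvPolynomial.aeval_X]
      exact A.mul_mem hp (hyA i)
  have hpv : ∀ p : MvPolynomial (Fin s) k, p ≠ 0 → V.valuation (MvPolynomial.aeval y p) = 1 := by
    intro p hp
    refine le_antisymm ((V.valuation_le_one_iff _).2 (hA (hpA p))) ?_
    by_contra hcon
    exact hp (hy p (not_le.mp hcon))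
  have hind : AlgebraicIndependent k y := by
    rw [algebraicIndependent_iff]
    intro p hp
    apply hy p
    rw [hp, map_zero]
    exact zero_lt_one
  -- the subfield
  let k' : IntermediateField k K := IntermediateField.adjoin k (Set.range y)
  have hk'A : ∀ z ∈ k', z ∈ A := by
    intro z hz
    obtain ⟨p, q, hpq⟩ := (IntermediateField.mem_adjoin_range_iff k y z).mp hz
    by_cases hq : q = 0
    · rw [hpq, hq, map_zero, div_zero]
      exact A.zero_mem
    · have hq1 := hpv q hq
      have hq0 : MvPolynomial.aeval y q ≠ 0 := by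
        intro h0
        rw [h0, map_zero] at hq1
        exact zero_ne_one hq1
      rw [← hloc]
      exact ⟨_, hpA p, _, hpA q, hq1, by rw [hpq, div_mul_cancel₀ _ hq0]⟩
  let g : k' →+* A := (k'.toSubring.subtype).codRestrict A (fun z => hk'A z.1 z.2)
  have hg : ∀ z : k', ((g z : A) : K) = z := fun z => rfl
  let _ : Algebra k A := f.toAlgebra
  let _ : Algebra k' A := g.toAlgebra
  have hkA' : ∀ c : k, ((algebraMap k A c : A) : K) = algebraMap k K c := hfk
  have hk'A' : ∀ z : k', ((algebraMap k' A z : A) : K) = z := fun z => rfl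
  have hst : IsScalarTower k k' A := IsScalarTower.of_algebraMap_eq fun c => by
    apply Subtype.ext
    rw [hkA', hk'A']
    rfl
  have heft : Algebra.EssFiniteType k A := hf
  have heft' : Algebra.EssFiniteType k' A := Algebra.EssFiniteType.of_comp k k' A
  -- local ring
  have hlr : IsLocalRing A := by
    have := isLocalRing_locV V hA
    rwa [hloc] at this
  have hstk'K : IsScalarTower k' A K := IsScalarTower.of_algebraMap_eq fun z => rfl
  -- transcendence degrees
  have hk's : Algebra.trdeg k k' = ((s : ℕ) : Cardinal) := DL_adj k y hind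
  have hAK : Algebra.IsAlgebraic A K := by
    refine ⟨fun z => ?_⟩
    obtain ⟨a, ha, b, hb, hb0, hz⟩ := hfrac z
    refine ⟨Polynomial.C (⟨b, hb⟩ : A) * Polynomial.X - Polynomial.C (⟨a, ha⟩ : A), ?_, ?_⟩
    · intro h0
      have h1 := congrArg (fun p : Polynomial A => p.coeff 1) h0
      simp only [Polynomial.coeff_sub, Polynomial.coeff_C_mul, Polynomial.coeff_X_one, mul_one,
        Polynomial.coeff_zero] at h1
      rw [Polynomial.coeff_C_of_ne_zero one_ne_zero, sub_zero] at h1
      exact hb0 (congrArg Subtype.val h1)
    · rw [map_sub, map_mul, Polynomial.aeval_C, Polynomial.aeval_C, Polynomial.aeval_X]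
      change b * z - a = 0
      rw [← hz]
      ring
  have hadd : Algebra.trdeg k k' + Algebra.trdeg k' K = Algebra.trdeg k K :=
    _root_.trdeg_add_eq k k' (A := K)
  rw [hk's, hn] at hadd
  obtain ⟨d, hd⟩ : ∃ d : ℕ, Algebra.trdeg k' K = ((d : ℕ) : Cardinal) := by
    have h1 : Algebra.trdeg k' K < Cardinal.aleph0 := by
      refine lt_of_le_of_lt ?_ (Cardinal.natCast_lt_aleph0 (n := n))
      rw [← hadd]
      exact self_le_add_left _ _
    obtain ⟨d, hd⟩ := Cardinal.lt_aleph0.mp h1
    exact ⟨d, hd⟩
  have hdn : d + s = n := by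
    rw [hd] at hadd
    have : s + d = n := by exact_mod_cast hadd
    omega
  have hdA : Algebra.trdeg k' A = ((d : ℕ) : Cardinal) := by
    have h1 := _root_.trdeg_add_eq k' A (A := K)
    rw [_root_.trdeg_eq_zero (R := A) (A := K), add_zero, hd] at h1
    exact h1
  -- the residue field
  have hres : Algebra.IsAlgebraic k' (ResidueField A) := by
    let incl : A →+* V := (A.subtype).codRestrict V.toSubring (fun z => hA z.2)
    have hincl : ∀ z : A, ((incl z : V) : K) = z := fun z => rfl
    have hlh : IsLocalHom incl := ⟨fun a ha => by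
      have h1 : V.valuation ((incl a : V) : K) = 1 := (V.valuation_eq_one_iff _).mp ha
      rw [hincl] at h1
      have h2 : (a : K) ∈ locV V A := le_locV V A a.2
      have h3 := (isUnit_locV_iff V hA ⟨(a : K), h2⟩).mpr h1
      obtain ⟨w, hw⟩ := h3.exists_right_inv
      have hwA : (w : K) ∈ A := hloc.le w.2
      exact IsUnit.of_mul_eq_one ⟨(w : K), hwA⟩
        (Subtype.ext (congrArg (Subtype.val : locV V A → K) hw))⟩
    let ρ : ResidueField A →+* ResidueField V := ResidueField.map incl
    let _ : Algebra k (ResidueField V) := (TA.resMap V hk).toAlgebra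
    let _ : Algebra k' (ResidueField V) := ((residue V).comp (incl.comp g)).toAlgebra
    have hsc : IsScalarTower k k' (ResidueField V) := IsScalarTower.of_algebraMap_eq fun c => by
      change residue V _ = residue V _
      congr 1
    have h1 := _root_.trdeg_add_eq k k' (A := ResidueField V)
    have hs' : Algebra.trdeg k (ResidueField V) = ((s : ℕ) : Cardinal) := hs
    rw [hk's, hs'] at h1
    have h2 : Algebra.trdeg k' (ResidueField V) = 0 := by
      have h3 : Algebra.trdeg k' (ResidueField V) < Cardinal.aleph0 := by
        refine lt_of_le_of_lt ?_ (Cardinal.natCast_lt_aleph0 (n := s))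
        rw [← h1]
        exact self_le_add_left _ _
      obtain ⟨e, he⟩ := Cardinal.lt_aleph0.mp h3
      rw [he] at h1 ⊢
      have h4 : s + e = s := by exact_mod_cast h1
      have h5 : e = 0 := by omega
      rw [h5]
      simp
    have h3 : Algebra.IsAlgebraic k' (ResidueField V) := _root_.trdeg_eq_zero_iff.mp h2
    let ρ' : ResidueField A →ₐ[k'] ResidueField V :=
      { ρ with
        commutes' := fun z => rfl }
    exact Algebra.IsAlgebraic.of_injective ρ' ρ.injective
  refine ⟨d, le_antisymm ?_ ?_, hdn⟩
  · exact dim_le_trdeg k' A hdA.le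
  · exact dim_ge_trdeg k' A hdA

end TC
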