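import Pool.Agent.Lib.TC.Trans
import Pool.Agent.Lib.TC.DimLow

/-!
# Module TC.FinF: the final step over a field

PROOF.  Lift a transcendence basis of `ResidueField V / k` (indexed by `Fin s`) to `y : Fin s → K`, `y j ∈ V`; then
`hy` of `dim_eq` holds: a polynomial `p` over `k` with `V(p(y)) < 1` vanishes at the residues, so `p = 0` (the residue
of `aeval y p` is `aeval ȳ p` for the algebra structure `(TA.resMap V hk).toAlgebra`).  Let
`A0 = (algebraMap R K).range`, `f0 : k →+* A0` the composite `k → R → A0`, `EFT f0` (`EFT_comp_surjective`;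
`algebraMap k R` is `EFT` by hypothesis), `A = locV V (closure (A0 ∪ image y))`, `f : k →+* A`, `EFT f` (`EFT_locV`),
`(f c : K) = algebraMap k K c` (`IsScalarTower`).  `hU A` gives `EMB3 V A r`.  `EMB3.dim` with `dim_eq` for each
`A1 = locV V (closure (A ∪ g))` (`EFT_locV` again; it contains `A`, hence the `y j` and all fractions).
`EMB3d_trans V A0 (image y)` (every element of `K` is a fraction of elements of `A0`).
-/

open IsLocalRing

namespace TC
open Pool.Agent.Lib.MP_3029eb_ag Pool.Agent.Lib.MP_3029eb_ag.Abh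

/-- a transcendence basis of the residue field lifts -/
private theorem finF_basis {k K : Type} [Field k] [Field K] [Algebra k K]
    (V : ValuationSubring K) (hk : ∀ c : k, algebraMap k K c ∈ V) {s : ℕ}
    (hs : letI := (TA.resMap V hk).toAlgebra
      Algebra.trdeg k (ResidueField V) = ((s : ℕ) : Cardinal)) :
    ∃ y : Fin s → K, (∀ j, y j ∈ V) ∧
      ∀ p : MvPolynomial (Fin s) k, V.valuation (MvPolynomial.aeval y p) < 1 → p = 0 := by
  let := (TA.resMap V hk).toAlgebra
  have hs' : Algebra.trdeg k (ResidueField V) = ((s : ℕ) : Cardinal) := hs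
  obtain ⟨ι, x, hx⟩ := exists_isTranscendenceBasis' k (ResidueField V)
  have hcard : Cardinal.mk ι = Cardinal.mk (Fin s) := by
    rw [hx.cardinalMk_eq_trdeg, hs', Cardinal.mk_fin]
  obtain ⟨e⟩ := Cardinal.eq.1 hcard
  have hind : AlgebraicIndependent k (x ∘ e.symm) := hx.1.comp e.symm e.symm.injective
  have hlift : ∀ j : Fin s, ∃ w : V, residue V w = x (e.symm j) := fun j =>
    residue_surjective _
  choose w hw using hlift
  refine ⟨fun j => (w j : K), fun j => (w j).2, fun p hp => ?_⟩
  set g : k →+* V := (algebraMap k K).codRestrict V.toSubring hk with hg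
  have h1 : ((MvPolynomial.eval₂ g w p : V) : K) = MvPolynomial.aeval (fun j => (w j : K)) p := by
    rw [MvPolynomial.aeval_def]
    exact MvPolynomial.eval₂_comp_left V.toSubring.subtype g w p
  have h2 : residue V (MvPolynomial.eval₂ g w p) = MvPolynomial.aeval (x ∘ e.symm) p := by
    rw [MvPolynomial.aeval_def, MvPolynomial.eval₂_comp_left (residue V) g w p]
    have h3 : (residue V) ∘ w = x ∘ e.symm := funext hw
    rw [h3]
    rfl
  have h4 : residue V (MvPolynomial.eval₂ g w p) = 0 := by
    rw [residue_eq_zero_iff]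
    refine (V.valuation_lt_one_iff _).2 ?_
    rw [h1]
    exact hp
  exact (algebraicIndependent_iff.1 hind) p (by rw [← h2, h4])

/-- the dimension after adjoining elements -/
private theorem finF_step {k K : Type} [Field k] [Field K] [Algebra k K]
    (V : ValuationSubring K) (hk : ∀ c : k, algebraMap k K c ∈ V) {n s : ℕ}
    (hn : Algebra.trdeg k K = ((n : ℕ) : Cardinal))
    (hs : letI := (TA.resMap V hk).toAlgebra
      Algebra.trdeg k (ResidueField V) = ((s : ℕ) : Cardinal))
    (y : Fin s → K) (hyV : ∀ j, y j ∈ V)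
    (hy : ∀ p : MvPolynomial (Fin s) k, V.valuation (MvPolynomial.aeval y p) < 1 → p = 0)
    (A : Subring K) (hAV : A ≤ V.toSubring) (f : k →+* A)
    (hfk : ∀ c, (f c : K) = algebraMap k K c) (hfE : EFT f) (hyA : ∀ j, y j ∈ A)
    (hfracA : ∀ z : K, ∃ a ∈ A, ∃ b ∈ A, b ≠ 0 ∧ z * b = a) (g : Finset K)
    (hg : ∀ t ∈ g, t ∈ V) :
    ∃ m : ℕ, ringKrullDim (locV V (Subring.closure ((A : Set K) ∪ (g : Set K)))) =
      ((m : ℕ) : WithBot ℕ∞) ∧ m + s = n := by
  have hcl1 : Subring.closure ((A : Set K) ∪ (g : Set K)) ≤ V.toSubring :=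
    closure_le_val V _ hAV _ hg
  have hAA1 : A ≤ locV V (Subring.closure ((A : Set K) ∪ (g : Set K))) :=
    fun a ha => le_locV _ _ (Subring.subset_closure (Or.inl ha))
  have hfE1 : EFT ((Subring.inclusion hAA1).comp f) :=
    EFT_locV V A f hfE g (Subring.inclusion hAA1) (fun a => rfl)
  have hfk1 : ∀ c, (((Subring.inclusion hAA1).comp f) c : K) = algebraMap k K c := hfk
  have hA1V : locV V (Subring.closure ((A : Set K) ∪ (g : Set K))) ≤ V.toSubring :=
    locV_le _ hcl1
  have hA1loc : locV V (locV V (Subring.closure ((A : Set K) ∪ (g : Set K)))) =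
    locV V (Subring.closure ((A : Set K) ∪ (g : Set K))) := locV_locV _ _
  have hfracA1 : ∀ z : K, ∃ a ∈ locV V (Subring.closure ((A : Set K) ∪ (g : Set K))),
      ∃ b ∈ locV V (Subring.closure ((A : Set K) ∪ (g : Set K))), b ≠ 0 ∧ z * b = a := by
    intro z
    obtain ⟨a, ha, b, hb, hb0, h⟩ := hfracA z
    exact ⟨a, hAA1 ha, b, hAA1 hb, hb0, h⟩
  exact dim_eq V hk hn hs y hyV hy _ hA1V hA1loc _ hfk1 hfE1 (fun j => hAA1 (hyA j)) hfracA1

theorem finF (k R K : Type) [Field k] [CommRing R] [IsDomain R] [Algebra k R]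
    [Algebra.EssFiniteType k R] [Field K] [Algebra R K] [IsFractionRing R K] [Algebra k K]
    [IsScalarTower k R K] (V : ValuationSubring K) (hRV : ∀ a : R, algebraMap R K a ∈ V)
    (hk : ∀ c : k, algebraMap k K c ∈ V) {n s r : ℕ}
    (hn : Algebra.trdeg k K = ((n : ℕ) : Cardinal))
    (hs : letI := (TA.resMap V hk).toAlgebra
      Algebra.trdeg k (ResidueField V) = ((s : ℕ) : Cardinal))
    (hU : Unif (algebraMap k K) V r) :
    EMB3d V (algebraMap R K).range r
      fun d => ∃ m : ℕ, d = ((m : ℕ) : WithBot ℕ∞) ∧ m + s = n := by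
  classical
  obtain ⟨y, hyV, hy⟩ := finF_basis V hk hs
  have hinj : Function.Injective (algebraMap R K) := IsFractionRing.injective R K
  have hsurj : Function.Surjective (algebraMap R K).rangeRestrict :=
    (algebraMap R K).rangeRestrict_surjective
  have hle : (algebraMap R K).range ≤ V.toSubring := by
    rintro _ ⟨r, rfl⟩; exact hRV r
  have hkR : EFT (algebraMap k R) := by
    have e : (algebraMap k R).toAlgebra = ‹Algebra k R› := by
      apply Algebra.algebra_ext
      intro c
      rfl
    unfold EFT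
    rw [e]
    infer_instance
  have hf : EFT ((algebraMap R K).rangeRestrict.comp (algebraMap k R)) :=
    EFT_comp_surjective (algebraMap k R) (algebraMap R K).rangeRestrict hkR hsurj
  have hfrac : ∀ z : K, ∃ a ∈ (algebraMap R K).range, ∃ b ∈ (algebraMap R K).range,
      b ≠ 0 ∧ z * b = a := by
    intro z
    obtain ⟨⟨a, b⟩, hab⟩ := IsLocalization.surj (nonZeroDivisors R) z
    refine ⟨_, ⟨a, rfl⟩, _, ⟨b, rfl⟩, ?_, hab⟩
    intro h0
    exact nonZeroDivisors.ne_zero b.2 (hinj (by rw [h0, map_zero]))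
  have hg : ∀ t ∈ Finset.univ.image y, t ∈ V ∧ ∃ a ∈ (algebraMap R K).range,
      ∃ b ∈ (algebraMap R K).range, b ≠ 0 ∧ t * b = a := by
    intro t ht
    obtain ⟨i, -, rfl⟩ := Finset.mem_image.1 ht
    exact ⟨hyV i, hfrac _⟩
  have hcl : Subring.closure (((algebraMap R K).range : Set K) ∪
      ((Finset.univ.image y : Finset K) : Set K)) ≤ V.toSubring :=
    closure_le_val V _ hle _ fun t ht => (hg t ht).1
  set A := locV V (Subring.closure (((algebraMap R K).range : Set K) ∪
      ((Finset.univ.image y : Finset K) : Set K))) with hA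
  have hAA' : (algebraMap R K).range ≤ A :=
    fun a ha => le_locV _ _ (Subring.subset_closure (Or.inl ha))
  have hyA : ∀ j, y j ∈ A := fun j => le_locV _ _ (Subring.subset_closure
    (Or.inr (Finset.mem_coe.2 (Finset.mem_image_of_mem _ (Finset.mem_univ j)))))
  have hAV : A ≤ V.toSubring := locV_le _ hcl
  have hAloc : locV V A = A := locV_locV _ _
  set f : k →+* A := (Subring.inclusion hAA').comp
    ((algebraMap R K).rangeRestrict.comp (algebraMap k R)) with hfd
  have hfk : ∀ c, (f c : K) = algebraMap k K c := fun c =>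
    (IsScalarTower.algebraMap_apply k R K c).symm
  have hfE : EFT f := EFT_locV V _ _ hf _ (Subring.inclusion hAA') (fun a => rfl)
  have hfracA : ∀ z : K, ∃ a ∈ A, ∃ b ∈ A, b ≠ 0 ∧ z * b = a := by
    intro z
    obtain ⟨a, ha, b, hb, hb0, h⟩ := hfrac z
    exact ⟨a, hAA' ha, b, hAA' hb, hb0, h⟩
  have hE : EMB3 V A r := hU A hAV hAloc f hfk hfE hfracA
  refine EMB3d_trans V _ (Finset.univ.image y) hg (hE.dim fun g hg' => ?_) hle
  exact finF_step V hk hn hs y hyV hy A hAV f hfk hfE hyA hfracA g fun t ht => (hg' t ht).1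

end TC
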