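import Pool.Agent.Lib.TC.Dvr4
import Pool.Agent.Lib.TC.Trans

/-!
# Module TC.Dvr: embedded local uniformization along discrete valuations, general case
-/

open IsLocalRing

namespace TC
open Pool.Agent.Lib.MP_3029eb_ag Pool.Agent.Lib.MP_3029eb_ag.Abh

theorem emb3_discrete {Rb K : Type} [CommRing Rb] [Field K] (hRb : GoodBase Rb)
    (V : ValuationSubring K) (π : K) (hπ0 : π ≠ 0) (hπ : V.valuation π < 1)
    (hgen : ∀ z : K, z ≠ 0 → ∃ n : ℤ, V.valuation z = V.valuation (π ^ n))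
    (A : Subring K) (hA : A ≤ V.toSubring) (hloc : locV V A = A) (f : Rb →+* A) (hf : EFT f)
    (hπA : ∃ a ∈ A, ∃ b ∈ A, b ≠ 0 ∧ π * b = a) : EMB3 V A 1 := by
  have nRb : IsNoetherianRing Rb := hRb.1
  have nA : IsNoetherianRing A := hf.isNoetherianRing
  obtain ⟨K0, _, φ, V0, A0, e, hV0, hV0u, he, hfrac, hsurj, hA0, hloc0, -⟩ :=
    exists_restrict V A hA hloc
  have hmap : A0.map φ = A := by
    ext z
    constructor
    · rintro ⟨a, ha, rfl⟩
      obtain ⟨a', ha'⟩ := e.surjective ⟨a, ha⟩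
      have h1 := he a'
      rw [ha'] at h1
      rw [h1]
      exact a'.2
    · intro hz
      exact ⟨_, (e ⟨z, hz⟩).2, he ⟨z, hz⟩⟩
  refine EMB3_map φ V V0 hV0 hV0u A A0 hmap hfrac hsurj ?_
  obtain ⟨π0, hπ0'⟩ := hsurj π hπA
  have hπ00 : π0 ≠ 0 := by
    rintro rfl
    rw [map_zero] at hπ0'
    exact hπ0 hπ0'.symm
  have hπ01 : V0.valuation π0 < 1 := by
    refine lt_of_le_of_ne ((V0.valuation_le_one_iff _).2 ((hV0 π0).2 ?_)) fun h => ?_
    · rw [hπ0']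
      exact (V.valuation_le_one_iff _).1 hπ.le
    · rw [hV0u, hπ0'] at h
      exact absurd hπ (by rw [h]; exact lt_irrefl _)
  refine emb3_discrete_frac hRb V0 π0 hπ00 hπ01 (fun z hz => ?_) A0 hA0 hloc0
    ((e : A →+* A0).comp f) (EFT_comp_surjective _ _ hf e.surjective) hfrac
  have hz' : φ z ≠ 0 := (map_ne_zero φ).2 hz
  obtain ⟨n, hn⟩ := hgen (φ z) hz'
  refine ⟨n, ?_⟩
  have hn0 : π0 ^ n ≠ 0 := zpow_ne_zero n hπ00
  have h1 : V.valuation (φ (z / π0 ^ n)) = 1 := by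
    rw [map_div₀, map_zpow₀, hπ0', map_div₀, hn]
    exact div_self ((map_ne_zero V.valuation).2 (zpow_ne_zero n hπ0))
  have h2 := (hV0u _).2 h1
  rw [map_div₀, div_eq_one_iff_eq ((map_ne_zero V0.valuation).2 hn0)] at h2
  exact h2

end TC
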