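import Pool.Agent.Lib.TC.Comp
import Pool.Agent.Lib.TC.Trans
import Pool.Agent.Lib.TC.Dvr

/-!
# Module TC.StepD: discrete steps

PROOF.  Let `A ≤ V` be as in `Unif`.  `π ∈ V` and `π` is a fraction of elements of `A` (`hfrac`).
`EMB3_trans V A {π}`: replace `A` by `A' = locV V (closure (A ∪ {π}))` (`EFT_locV`, `locV_locV`, `hfrac` monotone; as
in the proof of `embAt_frac`, Pool/Agent/Lib/MP_3029eb_ag/AbhE11.lean, lines `have hcl ... generalize`).
`EMB3_comp D.le A'`:
* coarser valuation: `H (locV V1 A')`: `locV_le`, `locV_locV`, `EFT_locV'`, fractions;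
* residual valuation: for `g1` let `A1 = locV V (closure (A' ∪ g1))`, `B = im V1 A1`, `V' = resV V V1 _`:
  `im_le_resV`, `locV_im`, `EFT_comp_surjective` with `toIm` (exactly as at the end of the proof of `embAt_frac`).
  Apply `emb3_discrete` with `rs V1 π` as uniformizer: it is in `B` (`mem_im_iff`), nonzero (`rs_ne_zero`), of value
  `< 1` (`rs_resV_lt`); for `z ≠ 0` in the residue field write `z = rs V1 w`, `V1.valuation w = 1`
  (`residue_surjective`, `rs_coe`, `rs_val_one`), `V.valuation w = V.valuation (π ^ n)`; then `w / π ^ n` has value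
  one, so its residue `z / (rs V1 π) ^ n` has `V'`-value one (`rs_zpow`, `rs_mul`, `rs_inv`, `rs_resV_val`).
-/

open IsLocalRing

namespace TC
open Pool.Agent.Lib.MP_3029eb_ag Pool.Agent.Lib.MP_3029eb_ag.Abh

theorem unif_D {Rb K : Type} [CommRing Rb] [Field K] (hRb : GoodBase Rb) (φ : Rb →+* K)
    {V V1 : ValuationSubring K} {π : K} (D : DStep V1 V π) {r : ℕ} (H : Unif φ V1 r) :
    Unif φ V (r + 1) := by
  classical
  intro A hA hloc f hfφ hf hfrac
  have hRn : IsNoetherianRing Rb := hRb.1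
  have hVV1 := D.le
  have hπV : π ∈ V := (V.valuation_le_one_iff _).1 D.lt.le
  have hg : ∀ t ∈ ({π} : Finset K), t ∈ V ∧ ∃ a ∈ A, ∃ b ∈ A, b ≠ 0 ∧ t * b = a := by
    intro t ht
    rw [Finset.mem_singleton.1 ht]
    exact ⟨hπV, hfrac π⟩
  refine EMB3_trans V A {π} hg ?_ hA
  have nA : IsNoetherianRing A := hf.isNoetherianRing
  have hcl : Subring.closure ((A : Set K) ∪ (({π} : Finset K) : Set K)) ≤ V.toSubring :=
    closure_le_val V A hA _ fun t ht => (hg t ht).1
  have hA' : locV V (Subring.closure ((A : Set K) ∪ (({π} : Finset K) : Set K))) ≤ V.toSubring :=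
    locV_le _ hcl
  have hloc' := locV_locV V (Subring.closure ((A : Set K) ∪ (({π} : Finset K) : Set K)))
  have hAA' : A ≤ locV V (Subring.closure ((A : Set K) ∪ (({π} : Finset K) : Set K))) :=
    fun a ha => le_locV _ _ (Subring.subset_closure (Or.inl ha))
  have hπA' : π ∈ locV V (Subring.closure ((A : Set K) ∪ (({π} : Finset K) : Set K))) :=
    le_locV _ _ (Subring.subset_closure (Or.inr (Finset.mem_coe.2 (Finset.mem_singleton_self π))))
  have hf' : ∃ f' : Rb →+* locV V (Subring.closure ((A : Set K) ∪ (({π} : Finset K) : Set K))),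
      EFT f' ∧ ∀ c, (f' c : K) = φ c :=
    ⟨_, EFT_locV V A f hf {π} (Subring.inclusion hAA') (fun a => rfl), fun c => hfφ c⟩
  generalize locV V (Subring.closure ((A : Set K) ∪ (({π} : Finset K) : Set K))) = A' at *
  obtain ⟨f', hf', hfφ'⟩ := hf'
  have nA' : IsNoetherianRing A' := hf'.isNoetherianRing
  have hfrac' : ∀ z : K, ∃ a ∈ A', ∃ b ∈ A', b ≠ 0 ∧ z * b = a := by
    intro z
    obtain ⟨a, ha, b, hb, hb0, h⟩ := hfrac z
    exact ⟨a, hAA' ha, b, hAA' hb, hb0, h⟩
  have hA'V1 : A' ≤ V1.toSubring := hA'.trans hVV1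
  refine EMB3_comp hVV1 A' hA' ?_ ?_
  · -- the coarser valuation
    refine H (locV V1 A') (locV_le _ hA'V1) (locV_locV _ _)
      ((Subring.inclusion (le_locV V1 A')).comp f') (fun c => hfφ' c)
      (EFT_locV' V1 A' f' hf' (Subring.inclusion (le_locV V1 A')) (fun a => rfl)) fun z => ?_
    obtain ⟨a, ha, b, hb, hb0, h⟩ := hfrac' z
    exact ⟨a, le_locV _ _ ha, b, le_locV _ _ hb, hb0, h⟩
  · -- the residual valuation
    intro s' hs'V
    have hcl1 : Subring.closure ((A' : Set K) ∪ (s' : Set K)) ≤ V.toSubring :=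
      closure_le_val V A' hA' _ fun t ht => (hs'V t ht).1
    have hA1V : locV V (Subring.closure ((A' : Set K) ∪ (s' : Set K))) ≤ V.toSubring :=
      locV_le V hcl1
    have hAA1 : A' ≤ locV V (Subring.closure ((A' : Set K) ∪ (s' : Set K))) :=
      fun a ha => le_locV V _ (Subring.subset_closure (Or.inl ha))
    have hf1 : EFT ((Subring.inclusion hAA1).comp f') :=
      EFT_locV V A' f' hf' s' (Subring.inclusion hAA1) (fun a => rfl)
    have hA1l := locV_locV V (Subring.closure ((A' : Set K) ∪ (s' : Set K)))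
    refine emb3_discrete hRb (resV V V1 hVV1) (rs V1 π) (rs_ne_zero D.one)
      ((rs_resV_lt hVV1 hπV).2 D.lt) ?_ _ (im_le_resV hVV1 _ hA1V) (locV_im hVV1 _ hA1V hA1l)
      ((toIm V1 _ (hA1V.trans hVV1)).comp ((Subring.inclusion hAA1).comp f'))
      (EFT_comp_surjective _ _ hf1 (toIm_surjective V1 _ _))
      ⟨rs V1 π, (mem_im_iff (hA1V.trans hVV1) _).2 ⟨π, hAA1 hπA', rfl⟩, 1, one_mem _,
        one_ne_zero, mul_one _⟩
    intro z hz
    obtain ⟨w, hw⟩ := residue_surjective z
    rw [← rs_coe] at hw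
    have hw1 : V1.valuation (w : K) = 1 := rs_val_one w.2 (by rw [hw]; exact hz)
    obtain ⟨n, hn⟩ := D.gen w hw1
    refine ⟨n, ?_⟩
    have hπn : V1.valuation (π ^ n) = 1 := by rw [map_zpow₀, D.one, one_zpow]
    have hπn0 : (π ^ n) ≠ 0 := by
      intro h0
      rw [h0, map_zero] at hπn
      exact zero_ne_one hπn
    have hq1 : V.valuation ((w : K) * (π ^ n)⁻¹) = 1 := by
      rw [map_mul, map_inv₀, hn]
      exact mul_inv_cancel₀ (by rw [Ne, map_eq_zero]; exact hπn0)
    have hqV : (w : K) * (π ^ n)⁻¹ ∈ V := (V.valuation_le_one_iff _).1 hq1.le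
    have hwe : (w : K) = ((w : K) * (π ^ n)⁻¹) * π ^ n := by
      rw [inv_mul_cancel_right₀ hπn0]
    have h1 : z = rs V1 ((w : K) * (π ^ n)⁻¹) * rs V1 π ^ n := by
      rw [← rs_zpow D.one n, ← rs_mul (hVV1 hqV) ((V1.valuation_le_one_iff _).1 hπn.le), ← hwe,
        hw]
    rw [h1, map_mul, (rs_resV_val hVV1 hqV).2 hq1, one_mul]

end TC
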