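import Pool.Agent.Lib.TC.Restr

/-!
# Module TC.RestrU: restriction to the fraction field of a local ring essentially of finite type over k
(no hypothesis on the residue field)
-/

open IsLocalRing

namespace TC
open Pool.Agent.Lib.MP_3029eb_ag Pool.Agent.Lib.MP_3029eb_ag.Abh

theorem restrict_dataU {k L : Type} [Field k] [Field L] [Algebra k L] (V : ValuationSubring L)
    (B : Subring L) (hB : B ≤ V.toSubring)
    (hloc : locV V B = B) (f : k →+* B) (hfk : ∀ c, (f c : L) = algebraMap k L c) (hf : EFT f)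
    {r s t : ℕ} (x : Fin r → L) (hxB : ∀ i, ∃ a ∈ B, ∃ b ∈ B, b ≠ 0 ∧ x i * b = a)
    (y : Fin s → L) (hyB : ∀ j, y j ∈ B)
    (z : Fin t → L) (hz : AlgebraicIndependent k z)
    (hzB : ∀ i, ∃ a ∈ B, ∃ b ∈ B, b ≠ 0 ∧ z i * b = a)
    (htr : Algebra.trdeg k L = ((t : ℕ) : Cardinal)) :
    ∃ (L0 : Type) (_ : Field L0) (_ : Algebra k L0) (φ : L0 →ₐ[k] L) (V0 : ValuationSubring L0)
      (B0 : Subring L0) (f0 : k →+* B0) (x0 : Fin r → L0) (y0 : Fin s → L0),
      (∀ z, z ∈ V0 ↔ φ z ∈ V) ∧ (∀ z, V0.valuation z = 1 ↔ V.valuation (φ z) = 1) ∧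
      B0.map (φ : L0 →+* L) = B ∧ (∀ z : L0, ∃ a ∈ B0, ∃ b ∈ B0, b ≠ 0 ∧ z * b = a) ∧
      (∀ z : L, (∃ a ∈ B, ∃ b ∈ B, b ≠ 0 ∧ z * b = a) → ∃ z0, φ z0 = z) ∧
      B0 ≤ V0.toSubring ∧ locV V0 B0 = B0 ∧ (∀ c, (f0 c : L0) = algebraMap k L0 c) ∧ EFT f0 ∧
      (∀ i, φ (x0 i) = x i) ∧ (∀ j, φ (y0 j) = y j) ∧
      Algebra.trdeg k L0 = ((t : ℕ) : Cardinal) := by
  have nB : IsNoetherianRing B := hf.isNoetherianRing
  obtain ⟨L0, iL0, φ, V0, B0, e, hV0, hV0u, he, hfrac, hsurj, hB0, hloc0, -⟩ :=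
    exists_restrict V B hB hloc
  have hmap : B0.map φ = B := by
    ext z
    constructor
    · rintro ⟨a, ha, rfl⟩
      obtain ⟨a', ha'⟩ := e.surjective ⟨a, ha⟩
      have h1 := he a'
      rw [ha'] at h1
      rw [h1]
      exact a'.2
    · intro hz
      exact ⟨_, (e ⟨z, hz⟩).2, he ⟨z, hz⟩⟩
  let f0 : k →+* B0 := (e : B →+* B0).comp f
  letI iA : Algebra k L0 := (B0.subtype.comp f0).toAlgebra
  have hφ : ∀ c : k, φ (algebraMap k L0 c) = algebraMap k L c := by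
    intro c
    show φ ((e (f c) : B0) : L0) = algebraMap k L c
    rw [he, hfk]
  let φ' : L0 →ₐ[k] L := { φ with commutes' := hφ }
  choose x0 hx0 using fun i => hsurj (x i) (hxB i)
  choose z0 hz0 using fun i => hsurj (z i) (hzB i)
  choose y0 hy0 using fun j => hsurj (y j) ⟨y j, hyB j, 1, one_mem _, one_ne_zero, mul_one _⟩
  refine ⟨L0, iL0, iA, φ', V0, B0, f0, x0, y0, hV0, hV0u, ?_, hfrac, hsurj, hB0, hloc0,
    fun c => rfl, EFT_comp_surjective f (e : B →+* B0) hf e.surjective, hx0, hy0, ?_⟩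
  · have h1 : (φ' : L0 →+* L) = φ := rfl
    rw [h1]
    exact hmap
  · apply le_antisymm
    · have h1 := trdeg_le_of_injective φ' φ.injective
      rw [htr] at h1
      exact h1
    · have h2 : AlgebraicIndependent k z0 := by
        have h3 : z = φ' ∘ z0 := funext fun i => (hz0 i).symm
        rw [h3] at hz
        exact hz.of_comp φ'
      have h3 := h2.cardinalMk_le_trdeg
      simpa using h3

end TC
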