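import Pool.Agent.Lib.TC.Conv
import Pool.Agent.Lib.TC.Trans
import Pool.Agent.Lib.TC.RestrU

/-!
# Module TC.PieceU: from the rank one theorem over a perfect field to subrings
-/

open IsLocalRing

namespace TC
open Pool.Agent.Lib.MP_3029eb_ag Pool.Agent.Lib.MP_3029eb_ag.Abh

/-- The rank one theorem for valuations of transcendence defect one over perfect fields. -/
def MainU (p : ℕ) : Prop :=
  ∀ (k : Type) [Field k] [PerfectField k] [CharP k p] (R K : Type) [CommRing R] [IsDomain R]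
    [Algebra k R] [Algebra.EssFiniteType k R] [Field K] [Algebra R K] [IsFractionRing R K]
    [Algebra k K] [IsScalarTower k R K] (V : ValuationSubring K),
    (∀ a b : K, a ≠ 0 → V.valuation b < 1 → ∃ n : ℕ, V.valuation (b ^ n) ≤ V.valuation a) →
    (∀ a : R, algebraMap R K a ∈ V) →
    ∀ (r m : ℕ), 0 < r → Algebra.trdeg k K = ((r + m + 1 : ℕ) : Cardinal) →
    ∀ x : Fin r → K, (∀ i, x i ≠ 0) →
    (∀ m : Fin r → ℤ, V.valuation (∏ i, x i ^ m i) = 1 → m = 0) →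
    (∀ z : Fin (r + 1) → K, (∀ i, z i ≠ 0) →
      ∃ m : Fin (r + 1) → ℤ, m ≠ 0 ∧ V.valuation (∏ i, z i ^ m i) = 1) →
    ∀ y : Fin m → K, (∀ j, y j ∈ V) →
    (∀ P : MvPolynomial (Fin m) k, P ≠ 0 → V.valuation (MvPolynomial.aeval y P) = 1) →
    (∀ z : Fin (m + 1) → K, (∀ i, z i ∈ V) →
      ∃ P : MvPolynomial (Fin (m + 1)) k, P ≠ 0 ∧ V.valuation (MvPolynomial.aeval z P) < 1) →
    Imp.EMB2 V (algebraMap R K).range r 1

private theorem isFractionRing_sub {L : Type} [Field L] (B : Subring L)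
    (hfrac : ∀ z : L, ∃ a ∈ B, ∃ b ∈ B, b ≠ 0 ∧ z * b = a) : IsFractionRing B L :=
  { map_units := fun y => by
      have h1 : ((y : B) : L) ≠ 0 := by
        intro h
        exact nonZeroDivisors.ne_zero y.2 (Subtype.ext h)
      exact IsUnit.mk0 _ h1
    surj := fun z => by
      obtain ⟨a, ha, b, hb, hb0, h⟩ := hfrac z
      exact ⟨(⟨a, ha⟩, ⟨⟨b, hb⟩, mem_nonZeroDivisors_of_ne_zero
        (fun h => hb0 (congrArg Subtype.val h))⟩), h⟩
    exists_of_eq := fun {x y} h => ⟨1, by rw [Subtype.ext h]⟩ }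

theorem emb3_U0 {k L : Type} [Field k] [PerfectField k] [Field L] [Algebra k L] {p : ℕ}
    [CharP k p] (M : MainU p) (V : ValuationSubring L)
    (harch : ∀ a b : L, a ≠ 0 → V.valuation b < 1 →
      ∃ n : ℕ, V.valuation (b ^ n) ≤ V.valuation a)
    {r s : ℕ} (hr : 0 < r) (x : Fin r → L) (hx : IndV V x)
    (hrank : ∀ z : Fin (r + 1) → L, (∀ i, z i ≠ 0) →
      ∃ m : Fin (r + 1) → ℤ, m ≠ 0 ∧ V.valuation (mon z m) = 1)
    (y : Fin s → L) (hyV : ∀ j, y j ∈ V)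
    (hy : ∀ P : MvPolynomial (Fin s) k, P ≠ 0 → V.valuation (MvPolynomial.aeval y P) = 1)
    (hres : ∀ z : Fin (s + 1) → L, (∀ i, z i ∈ V) →
      ∃ P : MvPolynomial (Fin (s + 1)) k, P ≠ 0 ∧ V.valuation (MvPolynomial.aeval z P) < 1)
    (htr : Algebra.trdeg k L = ((r + s + 1 : ℕ) : Cardinal))
    (B : Subring L) (hB : B ≤ V.toSubring) (f : k →+* B)
    (hfk : ∀ c, (f c : L) = algebraMap k L c) (hf : EFT f)
    (hfrac : ∀ z : L, ∃ a ∈ B, ∃ b ∈ B, b ≠ 0 ∧ z * b = a) : EMB3 V B r := by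
  let _ : Algebra k B := f.toAlgebra
  have _ : Algebra.EssFiniteType k B := hf
  have _ : IsScalarTower k B L := IsScalarTower.of_algebraMap_eq fun c => (hfk c).symm
  have _ : IsFractionRing B L := isFractionRing_sub B hfrac
  have h := M k B L V harch (fun a => hB a.2) r s hr htr x hx.ne hx.indep hrank y hyV hy hres
  have hrange : (algebraMap B L).range = B := by
    ext z
    constructor
    · rintro ⟨a, rfl⟩
      exact a.2
    · intro hz
      exact ⟨⟨z, hz⟩, rfl⟩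
  rw [hrange] at h
  exact EMB3_of_EMB2 h

theorem emb3_U {k L : Type} [Field k] [PerfectField k] [Field L] [Algebra k L] {p : ℕ}
    [CharP k p] (M : MainU p) (V : ValuationSubring L)
    (harch : ∀ a b : L, a ≠ 0 → V.valuation b < 1 →
      ∃ n : ℕ, V.valuation (b ^ n) ≤ V.valuation a)
    {r s : ℕ} (hr : 0 < r) (x : Fin r → L) (hx : IndV V x)
    (hrank : ∀ z : Fin (r + 1) → L, (∀ i, z i ≠ 0) →
      ∃ m : Fin (r + 1) → ℤ, m ≠ 0 ∧ V.valuation (mon z m) = 1)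
    (y : Fin s → L)
    (hy : ∀ P : MvPolynomial (Fin s) k, P ≠ 0 → V.valuation (MvPolynomial.aeval y P) = 1)
    (hres : ∀ z : Fin (s + 1) → L, (∀ i, z i ∈ V) →
      ∃ P : MvPolynomial (Fin (s + 1)) k, P ≠ 0 ∧ V.valuation (MvPolynomial.aeval z P) < 1)
    (htr : Algebra.trdeg k L = ((r + s + 1 : ℕ) : Cardinal))
    (B : Subring L) (hB : B ≤ V.toSubring) (hloc : locV V B = B) (f : k →+* B)
    (hfk : ∀ c, (f c : L) = algebraMap k L c) (hf : EFT f)
    (hxB : ∀ i, ∃ a ∈ B, ∃ b ∈ B, b ≠ 0 ∧ x i * b = a)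
    (hyB : ∀ j, y j ∈ B)
    {t : ℕ} (ht : t = r + s + 1) (z : Fin t → L) (hz : AlgebraicIndependent k z)
    (hzB : ∀ i, ∃ a ∈ B, ∃ b ∈ B, b ≠ 0 ∧ z i * b = a) : EMB3 V B r := by
  subst ht
  obtain ⟨L0, _, _, φ, V0, B0, f0, x0, y0, hV0, hV0u, hmap, hfrac0, hsurj0, hB0, hloc0, hf0k,
    hf0, hx0, hy0, htr0⟩ := restrict_dataU V B hB hloc f hfk hf x hxB y hyB z hz hzB htr
  have hinj : Function.Injective φ := φ.toRingHom.injective
  have hlt : ∀ z, V0.valuation z < 1 ↔ V.valuation (φ z) < 1 := by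
    intro z
    constructor
    · intro h1
      have h2 : φ z ∈ V := (hV0 z).1 ((V0.valuation_le_one_iff z).1 h1.le)
      exact lt_of_le_of_ne ((V.valuation_le_one_iff _).2 h2) fun h3 => h1.ne ((hV0u z).2 h3)
    · intro h1
      have h2 : z ∈ V0 := (hV0 z).2 ((V.valuation_le_one_iff _).1 h1.le)
      exact lt_of_le_of_ne ((V0.valuation_le_one_iff _).2 h2) fun h3 => h1.ne ((hV0u z).1 h3)
  have hle : ∀ u w : L0, w ≠ 0 →
      (V0.valuation u ≤ V0.valuation w ↔ V.valuation (φ u) ≤ V.valuation (φ w)) := by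
    intro u w hw
    have hw' : φ w ≠ 0 := fun h => hw (hinj (by rw [h, map_zero]))
    have h1 : (0 : V0.ValueGroup) < V0.valuation w := zero_lt_iff.2 ((V0.valuation.ne_zero_iff).2 hw)
    have h2 : (0 : V.ValueGroup) < V.valuation (φ w) :=
      zero_lt_iff.2 ((V.valuation.ne_zero_iff).2 hw')
    rw [← div_le_one₀ h1, ← div_le_one₀ h2, ← map_div₀, ← map_div₀, V0.valuation_le_one_iff,
      V.valuation_le_one_iff, hV0, map_div₀]
  have hae : ∀ {n : ℕ} (w : Fin n → L0) (P : MvPolynomial (Fin n) k),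
      φ (MvPolynomial.aeval w P) = MvPolynomial.aeval (fun i => φ (w i)) P := by
    intro n w P
    exact (MvPolynomial.comp_aeval_apply (φ := φ) (f := w) P)
  refine EMB3_map (φ : L0 →+* L) V V0 hV0 hV0u B B0 hmap hfrac0 hsurj0 ?_
  refine emb3_U0 (p := p) M V0 ?_ hr x0 ?_ ?_ y0 ?_ ?_ ?_ htr0 B0 hB0 f0 hf0k hf0 hfrac0
  · intro a b ha hb
    have ha' : φ a ≠ 0 := fun h => ha (hinj (by rw [h, map_zero]))
    obtain ⟨n, hn⟩ := harch (φ a) (φ b) ha' ((hlt b).1 hb)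
    refine ⟨n, ?_⟩
    rw [hle _ _ ha, map_pow]
    exact hn
  · refine ⟨fun i h => hx.ne i (by rw [← hx0, h, map_zero]), fun δ hδ => hx.indep δ ?_⟩
    rw [hV0u] at hδ
    have h1 := map_monF (φ : L0 →+* L) x0 δ
    have h2 : (fun i => (φ : L0 →+* L) (x0 i)) = x := funext fun i => hx0 i
    rw [h2] at h1
    rw [← h1]
    exact hδ
  · intro w hw
    obtain ⟨m, hm, h1⟩ := hrank (fun i => φ (w i)) fun i h => hw i (hinj (by rw [h, map_zero]))
    refine ⟨m, hm, ?_⟩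
    rw [hV0u]
    have h2 := map_monF (φ : L0 →+* L) w m
    show V.valuation ((φ : L0 →+* L) (mon w m)) = 1
    rw [h2]
    exact h1
  · intro j
    rw [hV0, hy0]
    exact hB (hyB j)
  · intro P hP
    rw [hV0u, hae]
    have h2 : (fun i => φ (y0 i)) = y := funext hy0
    rw [h2]
    exact hy P hP
  · intro w hw
    obtain ⟨P, hP, h1⟩ := hres (fun i => φ (w i)) fun i => (hV0 _).1 (hw i)
    refine ⟨P, hP, ?_⟩
    rw [hlt, hae]
    exact h1

end TC
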