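import Pool.Agent.Lib.TC.Comp
import Pool.Agent.Lib.TC.Trans
import Pool.Agent.Lib.TC.Gen
import Pool.Agent.Lib.TC.Tr
import Pool.Agent.Lib.TC.PieceU

/-!
# Module TC.StepU: rank one steps of transcendence defect one, over a perfect field
(no hypothesis on the residue field)
-/

open IsLocalRing

namespace TC
open Pool.Agent.Lib.MP_3029eb_ag Pool.Agent.Lib.MP_3029eb_ag.Abh

theorem unif_RU {k K : Type} [Field k] [Field K] [Algebra k K] {V V1 : ValuationSubring K}
    (h : V ≤ V1) (hk1 : ∀ c : k, algebraMap k K c ∈ V1)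
    {r s t : ℕ} (x : Fin r → K) (hx1 : ∀ i, V1.valuation (x i) = 1)
    (y : Fin s → K) (hyV : ∀ j, y j ∈ V)
    (ht : letI := (TA.resMap V1 hk1).toAlgebra
      Algebra.trdeg k (ResidueField V1) = ((t : ℕ) : Cardinal))
    (P : ∀ (B : Subring (ResidueField V1)), B ≤ (resV V V1 h).toSubring →
      locV (resV V V1 h) B = B → ∀ f : k →+* B,
      (∀ c, (f c : ResidueField V1) = TA.resMap V1 hk1 c) → EFT f →
      (∀ i, ∃ a ∈ B, ∃ b ∈ B, b ≠ 0 ∧ rs V1 (x i) * b = a) →
      (∀ j, rs V1 (y j) ∈ B) →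
      (∃ z : Fin t → ResidueField V1,
        (letI := (TA.resMap V1 hk1).toAlgebra; AlgebraicIndependent k z) ∧
        ∀ i, ∃ a ∈ B, ∃ b ∈ B, b ≠ 0 ∧ z i * b = a) →
      EMB3 (resV V V1 h) B r)
    {r1 : ℕ} (H : Unif (algebraMap k K) V1 r1) : Unif (algebraMap k K) V (r1 + r) := by
  classical
  intro A hA hloc f hfφ hf hfrac
  obtain ⟨z, w, hz, hwV, hwz⟩ := exists_tr_lifts h hk1 ht
  -- the elements to adjoin
  have hxx : ∀ i, ∃ t : K, t ∈ V ∧ (t = x i ∨ t = (x i)⁻¹) := by
    intro i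
    rcases V.mem_or_inv_mem (x i) with h | h
    · exact ⟨_, h, Or.inl rfl⟩
    · exact ⟨_, h, Or.inr rfl⟩
  choose x' hx'V hx' using hxx
  set g : Finset K := Finset.univ.image y ∪ (Finset.univ.image w ∪ Finset.univ.image x') with hg
  have hgV : ∀ t ∈ g, t ∈ V ∧ ∃ a ∈ A, ∃ b ∈ A, b ≠ 0 ∧ t * b = a := by
    intro t ht
    refine ⟨?_, hfrac t⟩
    rcases Finset.mem_union.1 ht with ht | ht
    · obtain ⟨j, _, rfl⟩ := Finset.mem_image.1 ht
      exact hyV j
    rcases Finset.mem_union.1 ht with ht | ht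
    · obtain ⟨j, _, rfl⟩ := Finset.mem_image.1 ht
      exact hwV j
    · obtain ⟨i, _, rfl⟩ := Finset.mem_image.1 ht
      exact hx'V i
  refine EMB3_trans V A g hgV ?_ hA
  have hcl : Subring.closure ((A : Set K) ∪ (g : Set K)) ≤ V.toSubring :=
    closure_le_val V A hA _ fun t ht => (hgV t ht).1
  have hA' : locV V (Subring.closure ((A : Set K) ∪ (g : Set K))) ≤ V.toSubring :=
    locV_le _ hcl
  have hloc' := locV_locV V (Subring.closure ((A : Set K) ∪ (g : Set K)))
  have hAA' : A ≤ locV V (Subring.closure ((A : Set K) ∪ (g : Set K))) :=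
    fun a ha => le_locV _ _ (Subring.subset_closure (Or.inl ha))
  have hf' : ∃ f' : k →+* locV V (Subring.closure ((A : Set K) ∪ (g : Set K))), EFT f' ∧
      ∀ c, (f' c : K) = algebraMap k K c :=
    ⟨_, EFT_locV V A f hf g (Subring.inclusion hAA') (fun a => rfl), fun c => hfφ c⟩
  have hgA' : ∀ t ∈ g, t ∈ locV V (Subring.closure ((A : Set K) ∪ (g : Set K))) := fun t ht =>
    le_locV _ _ (Subring.subset_closure (Or.inr ht))
  generalize locV V (Subring.closure ((A : Set K) ∪ (g : Set K))) = A' at *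
  obtain ⟨f', hf', hf'φ⟩ := hf'
  have nA' : IsNoetherianRing A' := hf'.isNoetherianRing
  have hfrac' : ∀ z : K, ∃ a ∈ A', ∃ b ∈ A', b ≠ 0 ∧ z * b = a := by
    intro z
    obtain ⟨a, ha, b, hb, hb0, h⟩ := hfrac z
    exact ⟨a, hAA' ha, b, hAA' hb, hb0, h⟩
  have hA'V1 : A' ≤ V1.toSubring := hA'.trans h
  refine EMB3_comp h A' hA' ?_ ?_
  · -- the coarser valuation
    refine H (locV V1 A') (locV_le _ hA'V1) (locV_locV _ _)
      ((Subring.inclusion (le_locV V1 A')).comp f') (fun c => hf'φ c)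
      (EFT_locV' V1 A' f' hf' (Subring.inclusion (le_locV V1 A')) (fun a => rfl)) ?_
    intro z
    obtain ⟨a, ha, b, hb, hb0, h⟩ := hfrac' z
    exact ⟨a, le_locV _ _ ha, b, le_locV _ _ hb, hb0, h⟩
  · -- the residual valuation
    intro g1 hg1
    have hcl1 : Subring.closure ((A' : Set K) ∪ (g1 : Set K)) ≤ V.toSubring :=
      closure_le_val V A' hA' _ fun t ht => (hg1 t ht).1
    have hA1V : locV V (Subring.closure ((A' : Set K) ∪ (g1 : Set K))) ≤ V.toSubring :=
      locV_le V hcl1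
    have hAA1 : A' ≤ locV V (Subring.closure ((A' : Set K) ∪ (g1 : Set K))) :=
      fun a ha => le_locV V _ (Subring.subset_closure (Or.inl ha))
    have hf1 : EFT ((Subring.inclusion hAA1).comp f') :=
      EFT_locV V A' f' hf' g1 (Subring.inclusion hAA1) (fun a => rfl)
    have hA1l := locV_locV V (Subring.closure ((A' : Set K) ∪ (g1 : Set K)))
    have hf1φ : ∀ c, (((Subring.inclusion hAA1).comp f') c : K) = algebraMap k K c :=
      fun c => hf'φ c
    generalize (Subring.inclusion hAA1).comp f' = f1 at *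
    have hgA1 : ∀ t ∈ g, t ∈ locV V (Subring.closure ((A' : Set K) ∪ (g1 : Set K))) :=
      fun t ht => hAA1 (hgA' t ht)
    generalize locV V (Subring.closure ((A' : Set K) ∪ (g1 : Set K))) = A1 at *
    have hA1V1 : A1 ≤ V1.toSubring := hA1V.trans h
    have hkA1 : ∀ c : k, algebraMap k K c ∈ A1 := fun c => by
      rw [← hf1φ c]
      exact (f1 c).2
    refine P (im V1 A1) (im_le_resV h _ hA1V) (locV_im h _ hA1V hA1l)
      ((toIm V1 A1 hA1V1).comp f1) ?_ (EFT_comp_surjective _ _ hf1 (toIm_surjective V1 _ _))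
      ?_ ?_ ⟨z, hz.1, ?_⟩
    · -- the constants
      intro c
      show residue V1 ⟨(f1 c : K), hA1V1 (f1 c).2⟩ =
        residue V1 ⟨algebraMap k K c, hk1 c⟩
      congr 1
      exact Subtype.ext (hf1φ c)
    · -- the elements `x i`
      intro i
      have h1 : x' i ∈ A1 := by
        refine hgA1 _ ?_
        rw [hg]
        exact Finset.mem_union_right _ (Finset.mem_union_right _
          (Finset.mem_image_of_mem _ (Finset.mem_univ _)))
      rcases hx' i with h2 | h2
      · rw [h2] at h1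
        exact ⟨rs V1 (x i), (mem_im_iff hA1V1 _).2 ⟨_, h1, rfl⟩, 1, one_mem _, one_ne_zero,
          mul_one _⟩
      · rw [h2] at h1
        refine ⟨1, one_mem _, rs V1 (x i)⁻¹, (mem_im_iff hA1V1 _).2 ⟨_, h1, rfl⟩, ?_, ?_⟩
        · rw [rs_inv (hx1 i)]
          exact inv_ne_zero (rs_ne_zero (hx1 i))
        · rw [rs_inv (hx1 i), mul_inv_cancel₀ (rs_ne_zero (hx1 i))]
    · -- residues
      intro j
      have h1 : y j ∈ A1 := by
        refine hgA1 _ ?_
        rw [hg]
        exact Finset.mem_union_left _ (Finset.mem_image_of_mem _ (Finset.mem_univ _))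
      exact (mem_im_iff hA1V1 _).2 ⟨_, h1, rfl⟩
    · -- the transcendence basis
      intro i
      have h1 : w i ∈ A1 := by
        refine hgA1 _ ?_
        rw [hg]
        exact Finset.mem_union_right _ (Finset.mem_union_left _
          (Finset.mem_image_of_mem _ (Finset.mem_univ _)))
      have h2 : rs V1 (w i) ∈ im V1 A1 := (mem_im_iff hA1V1 _).2 ⟨_, h1, rfl⟩
      rcases hwz i with h3 | h3
      · rw [h3] at h2
        exact ⟨z i, h2, 1, one_mem _, one_ne_zero, mul_one _⟩
      · rw [h3] at h2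
        have hz0 : z i ≠ 0 := by
          let := (TA.resMap V1 hk1).toAlgebra
          exact hz.1.ne_zero i
        exact ⟨1, one_mem _, (z i)⁻¹, h2, inv_ne_zero hz0, mul_inv_cancel₀ hz0⟩



/-- A transcendence basis of the residue field, lifted to the valuation ring. -/
theorem exists_res_basis {k K : Type} [Field k] [Field K] [Algebra k K] (V : ValuationSubring K)
    (hk : ∀ c : k, algebraMap k K c ∈ V) {s : ℕ}
    (hs : letI := (TA.resMap V hk).toAlgebra
      Algebra.trdeg k (ResidueField V) = ((s : ℕ) : Cardinal)) :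
    ∃ y : Fin s → K, (∀ j, y j ∈ V) ∧
      (∀ P : MvPolynomial (Fin s) k, P ≠ 0 → V.valuation (MvPolynomial.aeval y P) = 1) ∧
      ∀ z : Fin (s + 1) → K, (∀ i, z i ∈ V) →
        ∃ P : MvPolynomial (Fin (s + 1)) k, P ≠ 0 ∧ V.valuation (MvPolynomial.aeval z P) < 1 := by
  letI := (TA.resMap V hk).toAlgebra
  let κ : k →+* V := (algebraMap k K).codRestrict V.toSubring hk
  letI : Algebra k V := κ.toAlgebra
  let ρ : V →ₐ[k] ResidueField V := { residue V with commutes' := fun c => rfl }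
  let ι : V →ₐ[k] K := { V.subtype with commutes' := fun c => rfl }
  have hι : ∀ {n : ℕ} (w : Fin n → V) (P : MvPolynomial (Fin n) k),
      MvPolynomial.aeval (fun i => ((w i : V) : K)) P = ((MvPolynomial.aeval w P : V) : K) := by
    intro n w P
    exact (MvPolynomial.comp_aeval_apply (φ := ι) (f := w) P).symm
  have hρ : ∀ {n : ℕ} (w : Fin n → V) (P : MvPolynomial (Fin n) k),
      MvPolynomial.aeval (fun i => residue V (w i)) P = residue V (MvPolynomial.aeval w P) := by
    intro n w P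
    exact (MvPolynomial.comp_aeval_apply (φ := ρ) (f := w) P).symm
  obtain ⟨σ, hσ⟩ := exists_isTranscendenceBasis k (ResidueField V)
  have hc : Cardinal.mk σ = ((s : ℕ) : Cardinal) := by
    rw [← hσ.cardinalMk_eq_trdeg] at hs
    exact hs
  have hc' : Cardinal.mk (Fin s) = Cardinal.mk σ := by rw [hc, Cardinal.mk_fin]
  obtain ⟨e⟩ := Cardinal.eq.1 hc'
  have hb : IsTranscendenceBasis k (fun i : Fin s => ((e i : σ) : ResidueField V)) :=
    hσ.comp_equiv e
  choose l hl using (residue_surjective (R := V))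
  have hly : (fun i : Fin s => residue V (l (e i : σ))) =
      fun i : Fin s => ((e i : σ) : ResidueField V) := funext fun i => hl _
  refine ⟨fun i => ((l (e i : σ) : V) : K), fun j => (l (e j : σ)).2, ?_, ?_⟩
  · intro P hP
    rw [hι (fun i => l (e i : σ)) P]
    refine rs_val_one (Subtype.property _) ?_
    rw [rs_coe, ← hρ (fun i => l (e i : σ)) P, hly]
    exact fun h0 => hP ((algebraicIndependent_iff.1 hb.1) P h0)
  · intro z hz
    have h1 : ¬ AlgebraicIndependent k (fun i => residue V ⟨z i, hz i⟩) := by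
      intro h2
      have h3 := h2.cardinalMk_le_trdeg
      rw [hs, Cardinal.mk_fin, Nat.cast_le] at h3
      omega
    rw [algebraicIndependent_iff] at h1
    push Not at h1
    obtain ⟨P, hP, hP0⟩ := h1
    refine ⟨P, hP0, ?_⟩
    have h2 := hι (fun i => (⟨z i, hz i⟩ : V)) P
    have h3 := hρ (fun i => (⟨z i, hz i⟩ : V)) P
    rw [hP] at h3
    have h4 : (fun i => (((⟨z i, hz i⟩ : V)) : K)) = z := rfl
    rw [h4] at h2
    rw [h2]
    exact (rs_eq_zero (Subtype.property _)).1 (by rw [rs_coe]; exact h3.symm)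

theorem unif_U {k K : Type} [Field k] [PerfectField k] [Field K] [Algebra k K] {p : ℕ}
    [CharP k p] (M : MainU p) {V V1 : ValuationSubring K}
    (h : V ≤ V1) (hk1 : ∀ c : k, algebraMap k K c ∈ V1) (hk : ∀ c : k, algebraMap k K c ∈ V)
    (harch : ∀ a b : K, V1.valuation a = 1 → V1.valuation b = 1 → V.valuation b < 1 →
      ∃ n : ℕ, V.valuation (b ^ n) ≤ V.valuation a)
    {r s : ℕ} (hr : 0 < r) (x : Fin r → K) (hx1 : ∀ i, V1.valuation (x i) = 1)
    (hx : ∀ δ : Fin r → ℤ, V.valuation (mon x δ) = 1 → δ = 0)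
    (hrank : ∀ z : Fin (r + 1) → K, (∀ i, V1.valuation (z i) = 1) →
      ∃ m : Fin (r + 1) → ℤ, m ≠ 0 ∧ V.valuation (mon z m) = 1)
    (hs : letI := (TA.resMap V hk).toAlgebra
      Algebra.trdeg k (ResidueField V) = ((s : ℕ) : Cardinal))
    (ht : letI := (TA.resMap V1 hk1).toAlgebra
      Algebra.trdeg k (ResidueField V1) = ((r + s + 1 : ℕ) : Cardinal))
    {r1 : ℕ} (H : Unif (algebraMap k K) V1 r1) : Unif (algebraMap k K) V (r1 + r) := by
  obtain ⟨y, hyV, hy, hymax⟩ := exists_res_basis V hk hs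
  letI := (TA.resMap V1 hk1).toAlgebra
  -- evaluation of polynomials and residues
  let κ : k →+* V1 := (algebraMap k K).codRestrict V1.toSubring hk1
  letI : Algebra k V1 := κ.toAlgebra
  let ρ : V1 →ₐ[k] ResidueField V1 := { residue V1 with commutes' := fun c => rfl }
  let ι : V1 →ₐ[k] K := { V1.subtype with commutes' := fun c => rfl }
  have hrs : ∀ {n : ℕ} (w : Fin n → K), (∀ i, w i ∈ V) → ∀ P : MvPolynomial (Fin n) k,
      MvPolynomial.aeval w P ∈ V ∧
      MvPolynomial.aeval (fun i => rs V1 (w i)) P = rs V1 (MvPolynomial.aeval w P) := by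
    intro n w hw P
    constructor
    · induction P using MvPolynomial.induction_on with
      | C c => rw [MvPolynomial.aeval_C]; exact hk c
      | add p q hp hq => rw [map_add]; exact add_mem hp hq
      | mul_X p i hp => rw [map_mul, MvPolynomial.aeval_X]; exact mul_mem hp (hw i)
    · have h1 : MvPolynomial.aeval (fun i => ((⟨w i, h (hw i)⟩ : V1) : K)) P =
          ((MvPolynomial.aeval (fun i => (⟨w i, h (hw i)⟩ : V1)) P : V1) : K) :=
        (MvPolynomial.comp_aeval_apply (φ := ι) (f := fun i => (⟨w i, h (hw i)⟩ : V1)) P).symm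
      have h2 : MvPolynomial.aeval (fun i => residue V1 (⟨w i, h (hw i)⟩ : V1)) P =
          residue V1 (MvPolynomial.aeval (fun i => (⟨w i, h (hw i)⟩ : V1)) P) :=
        (MvPolynomial.comp_aeval_apply (φ := ρ) (f := fun i => (⟨w i, h (hw i)⟩ : V1)) P).symm
      have h3 : (fun i => residue V1 (⟨w i, h (hw i)⟩ : V1)) = fun i => rs V1 (w i) :=
        funext fun i => (rs_eq (h (hw i))).symm
      rw [h3] at h2
      rw [h2, ← rs_coe, ← h1]
  refine unif_RU h hk1 (t := r + s + 1) x hx1 y hyV ht ?_ H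
  intro B hB hloc f hfk hf hx' hy' hz
  obtain ⟨z, hz1, hz2⟩ := hz
  refine emb3_U (p := p) M (resV V V1 h) (tr_arch h harch) hr
    (fun i => rs V1 (x i)) (tr_ind h hx1 hx) (tr_rank h hrank) (fun j => rs V1 (y j)) ?_ ?_ ht
    B hB hloc f hfk hf hx' hy' rfl z hz1 hz2
  · intro P hP
    obtain ⟨h1, h2⟩ := hrs y hyV P
    have h3 := hy P hP
    rw [h2]
    have h4 : ¬ (resV V V1 h).valuation (rs V1 (MvPolynomial.aeval y P)) < 1 := by
      rw [rs_resV_lt h h1, h3]
      exact lt_irrefl _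
    have h5 : rs V1 (MvPolynomial.aeval y P) ∈ resV V V1 h :=
      (C1_mem_resV h _).2 ⟨⟨_, h h1⟩, h1, (rs_eq (h h1)).symm⟩
    exact le_antisymm (((resV V V1 h).valuation_le_one_iff _).2 h5) (not_lt.1 h4)
  · intro w hw
    choose u hu hur using fun i => (C1_mem_resV h (w i)).1 (hw i)
    obtain ⟨P, hP, hlt⟩ := hymax (fun i => ((u i : V1) : K)) hu
    refine ⟨P, hP, ?_⟩
    obtain ⟨h1, h2⟩ := hrs (fun i => ((u i : V1) : K)) hu P
    have h3 : (fun i => rs V1 ((u i : V1) : K)) = w := by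
      funext i
      rw [rs_coe, hur]
    rw [h3] at h2
    rw [h2]
    exact (rs_resV_lt h h1).2 hlt

end TC
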