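import Pool.Agent.Lib.TC.Trans
import Pool.Agent.Lib.MP_3029eb_ag.AbhResult

/-!
# Module TC.FinQ: the final step for local rings

PROOF.  Everything is in the proof of `lu_abhyankar` (Pool/Agent/Lib/MP_3029eb_ag/AbhResult.lean): let
`A0 = (algebraMap R K).range` (`hle, hloc, hfrac, nA` there), `A = locV V (closure (A0 ∪ image y))`; `f` is the
composite of `R → A0` and the inclusion, `EFT` by `EFT_locV` (as there, from `EFT (RingHom.id R)` and
`EFT_comp_surjective`); `hdrop`: `ringKrullDim A + s ≤ ringKrullDim R`.  `hU A` gives `EMB3 V A r`;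
`EMB3.dim` with `krullDim_adjoin V A` (the dimension of `locV V (closure (A ∪ g))` is at most that of `A`; `+ s` is
monotone: `add_le_add_left`/`gcongr`); `EMB3d_trans V A0 (image y)`.
-/

open IsLocalRing

namespace TC
open Pool.Agent.Lib.MP_3029eb_ag Pool.Agent.Lib.MP_3029eb_ag.Abh

theorem finQ (R : Type) [CommRing R] [IsDomain R] [IsNoetherianRing R] [IsLocalRing R]
    (K : Type) [Field K] [Algebra R K] [IsFractionRing R K]
    (V : ValuationSubring K) (hRV : ∀ a : R, algebraMap R K a ∈ V)
    (hRm : ∀ a : R, a ∈ maximalIdeal R ↔ V.valuation (algebraMap R K a) < 1) {r : ℕ}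
    (hU : Unif (algebraMap R K) V r) {s : ℕ} (y : Fin s → K) (hyV : ∀ j, y j ∈ V)
    (hy : ∀ p : MvPolynomial (Fin s) R, V.valuation (MvPolynomial.aeval y p) < 1 →
      ∀ m, MvPolynomial.coeff m p ∈ maximalIdeal R) :
    EMB3d V (algebraMap R K).range r
      fun d => d + ((s : ℕ) : WithBot ℕ∞) ≤ ringKrullDim R := by
  classical
  have hinj : Function.Injective (algebraMap R K) := IsFractionRing.injective R K
  have hsurj : Function.Surjective (algebraMap R K).rangeRestrict :=
    (algebraMap R K).rangeRestrict_surjective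
  have hle : (algebraMap R K).range ≤ V.toSubring := by
    rintro _ ⟨r, rfl⟩; exact hRV r
  have hloc : locV V (algebraMap R K).range = (algebraMap R K).range := by
    apply le_antisymm
    · rintro z ⟨a, ⟨a', rfl⟩, b, ⟨b', rfl⟩, hb1, hz⟩
      have hu : IsUnit b' := by
        by_contra hcon
        have := (hRm b').1 ((mem_maximalIdeal _).2 hcon)
        exact this.ne hb1
      obtain ⟨u, rfl⟩ := hu
      refine ⟨a' * ((u⁻¹ : Rˣ) : R), ?_⟩
      rw [map_mul, ← hz, mul_assoc, ← map_mul, Units.mul_inv, map_one, mul_one]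
    · exact le_locV V _
  have hid : EFT (RingHom.id R) := by
    have : Algebra.EssFiniteType R R := inferInstance
    exact this
  have hf : EFT ((algebraMap R K).rangeRestrict.comp (RingHom.id R)) :=
    EFT_comp_surjective (RingHom.id R) (algebraMap R K).rangeRestrict hid hsurj
  have nA : IsNoetherianRing (algebraMap R K).range :=
    isNoetherianRing_of_surjective _ _ _ hsurj
  have hfrac : ∀ z : K, ∃ a ∈ (algebraMap R K).range, ∃ b ∈ (algebraMap R K).range,
      b ≠ 0 ∧ z * b = a := by
    intro z
    obtain ⟨⟨a, b⟩, hab⟩ := IsLocalization.surj (nonZeroDivisors R) z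
    refine ⟨_, ⟨a, rfl⟩, _, ⟨b, rfl⟩, ?_, hab⟩
    intro h0
    exact nonZeroDivisors.ne_zero b.2 (hinj (by rw [h0, map_zero]))
  have hres : ResIndep V (algebraMap R K).range y := by
    intro p hp m
    obtain ⟨p', rfl⟩ := MvPolynomial.map_surjective _ hsurj p
    have h1 : MvPolynomial.eval₂ (algebraMap R K).range.subtype y
        (MvPolynomial.map (algebraMap R K).rangeRestrict p') = MvPolynomial.aeval y p' := by
      rw [MvPolynomial.eval₂_map, MvPolynomial.aeval_def]
      rfl
    rw [h1] at hp
    rw [MvPolynomial.coeff_map]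
    exact (hRm _).1 (hy p' hp m)
  have hdimA : ringKrullDim (algebraMap R K).range = ringKrullDim R :=
    (ringKrullDim_eq_of_ringEquiv (RingEquiv.ofBijective (algebraMap R K).rangeRestrict
      ⟨fun a b h => hinj (congrArg Subtype.val h), hsurj⟩)).symm
  have hdrop := krullDim_resIndep V (algebraMap R K).range hle hloc y
    (fun i => ⟨hyV i, hfrac _⟩) hres
  have hset : (Set.range y) = ((Finset.univ.image y : Finset K) : Set K) := by
    rw [Finset.coe_image, Finset.coe_univ, Set.image_univ]
  rw [hset, hdimA] at hdrop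
  have hg : ∀ t ∈ Finset.univ.image y, t ∈ V ∧ ∃ a ∈ (algebraMap R K).range,
      ∃ b ∈ (algebraMap R K).range, b ≠ 0 ∧ t * b = a := by
    intro t ht
    obtain ⟨i, -, rfl⟩ := Finset.mem_image.1 ht
    exact ⟨hyV i, hfrac _⟩
  have hcl : Subring.closure (((algebraMap R K).range : Set K) ∪
      ((Finset.univ.image y : Finset K) : Set K)) ≤ V.toSubring :=
    closure_le_val V _ hle _ fun t ht => (hg t ht).1
  have hAA' : (algebraMap R K).range ≤ locV V (Subring.closure (((algebraMap R K).range : Set K) ∪
      ((Finset.univ.image y : Finset K) : Set K))) :=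
    fun a ha => le_locV _ _ (Subring.subset_closure (Or.inl ha))
  have n1 : IsNoetherianRing (Subring.closure (((algebraMap R K).range : Set K) ∪
      ((Finset.univ.image y : Finset K) : Set K))) := isNoetherianRing_closure _
  have n2 : IsNoetherianRing (locV V (Subring.closure (((algebraMap R K).range : Set K) ∪
      ((Finset.univ.image y : Finset K) : Set K)))) := isNoetherianRing_locV _
  have hE : EMB3 V (locV V (Subring.closure (((algebraMap R K).range : Set K) ∪
      ((Finset.univ.image y : Finset K) : Set K)))) r := by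
    refine hU _ (locV_le _ hcl) (locV_locV _ _)
      ((Subring.inclusion hAA').comp ((algebraMap R K).rangeRestrict.comp (RingHom.id R)))
      (fun c => rfl) (EFT_locV V _ _ hf _ (Subring.inclusion hAA') (fun a => rfl)) fun z => ?_
    obtain ⟨a, ha, b, hb, hb0, h⟩ := hfrac z
    exact ⟨a, hAA' ha, b, hAA' hb, hb0, h⟩
  refine EMB3d_trans V _ (Finset.univ.image y) hg (hE.dim fun g hg' => ?_) hle
  have h1 := krullDim_adjoin V _ (locV_le _ hcl) (locV_locV _ _) g hg'
  exact (add_le_add h1 le_rfl).trans hdrop

end TC
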