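import Pool.Agent.Lib.TC.E7

/-!
# Module TC.Comp: composition of embedded local uniformizations

PROOF: copy of `EMB_comp` in Pool/Agent/Lib/MP_3029eb_ag/AbhE11.lean (80 lines), with `E7_comp3` and `scale3` in
place of `E7_comp` and `E6_scale` (the denominators of the additional parameters of the coarser valuation are cleared
in the same way).
-/

open IsLocalRing

namespace TC
open Pool.Agent.Lib.MP_3029eb_ag Pool.Agent.Lib.MP_3029eb_ag.Abh

/-- composition of embedded local uniformizations -/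
theorem EMB3_comp {K : Type} [Field K] {V V1 : ValuationSubring K} (h : V ≤ V1) (A : Subring K)
    (hA : A ≤ V.toSubring) [IsNoetherianRing A] {r1 r2 : ℕ} (h1 : EMB3 V1 (locV V1 A) r1)
    (h2 : ∀ g1 : Finset K, (∀ t ∈ g1, t ∈ V ∧ ∃ a ∈ A, ∃ b ∈ A, b ≠ 0 ∧ t * b = a) →
      EMB3 (resV V V1 h) (im V1 (locV V (Subring.closure ((A : Set K) ∪ (g1 : Set K))))) r2) :
    EMB3 V A (r1 + r2) := by
  classical
  intro s hs
  have hAV1 : A ≤ V1.toSubring := fun z hz => h (hA hz)
  obtain ⟨g, h0, x, p, hg, hG, hM⟩ := h1 s (by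
    intro f hf
    obtain ⟨h1, h2, a, ha, b, hb, hb0, h3⟩ := hs f hf
    exact ⟨h1, h h2, a, le_locV _ _ ha, b, le_locV _ _ hb, hb0, h3⟩)
  set B1 := locV V1 (Subring.closure ((locV V1 A : Set K) ∪ (g : Set K))) with hB1
  obtain ⟨g1, hg1, hg1e⟩ := exists_replace h A g (by
    intro t ht
    refine ⟨hg t ht, ?_⟩
    obtain ⟨D, hD, hDm, hDt⟩ := hG.den t (le_locV _ _ (Subring.subset_closure (Or.inr ht)))
    exact ⟨D * t, hDt, D, hD, hDm.ne hG.ind.ne, mul_comm _ _⟩)
  set C1 := Subring.closure ((A : Set K) ∪ (g1 : Set K)) with hC1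
  set A1 := locV V C1 with hA1
  have hAC : A ≤ C1 := fun z hz => Subring.subset_closure (Or.inl hz)
  have hC1V : C1 ≤ V.toSubring := closure_le_val V A hA _ fun t ht => (hg1 t ht).1
  have hCA : C1 ≤ A1 := le_locV _ _
  have hAA1 : A ≤ A1 := hAC.trans hCA
  have hA1V : A1 ≤ V.toSubring := locV_le _ hC1V
  have hA1V1 : A1 ≤ V1.toSubring := fun z hz => h (hA1V hz)
  have n1 : IsNoetherianRing C1 := isNoetherianRing_closure g1
  have n2 : IsNoetherianRing A1 := isNoetherianRing_locV _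
  have hBe : B1 = locV V1 A1 := by
    rw [hB1, locV_closure_locV (le_refl V1), ← hg1e, hA1, locV_locV_le h]
  rw [hBe] at hG hM
  have hlocB : locV V1 (locV V1 A1) = locV V1 A1 := locV_locV _ _
  -- clear the denominators of the parameters
  have hxe : ∀ i, ∃ b ∈ A1, V1.valuation b = 1 ∧ x i * b ∈ A1 := by
    intro i
    obtain ⟨a, ha, b, hb, hb1, hab⟩ := hG.mem i
    exact ⟨b, hb, hb1, by rw [hab]; exact ha⟩
  choose b hb hb1 hxb using hxe
  have hpe : ∀ i, ∃ b ∈ A1, V1.valuation b = 1 ∧ p i * b ∈ A1 := by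
    intro i
    obtain ⟨a, ha, b, hb, hb1, hab⟩ := hG.wmem i
    exact ⟨b, hb, hb1, by rw [hab]; exact ha⟩
  choose b' hb' hb1' hpb using hpe
  obtain ⟨hG', hM'⟩ := scale3 hlocB hG b (fun i => ⟨le_locV _ _ (hb i), hb1 i⟩) b'
    fun i => ⟨le_locV _ _ (hb' i), hb1' i⟩
  -- denominators of the elements of `g1`
  have hde : ∀ t : K, ∃ D : K, t ∈ g1 → D ∈ A ∧ D * t ∈ A ∧
      MonV V1 (locV V1 A1) (fun i => x i * b i) D := by
    intro t
    by_cases ht : t ∈ g1
    · have htB : t ∈ locV V1 A1 :=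
        le_locV _ _ (hCA (Subring.subset_closure (Or.inr ht)))
      obtain ⟨D, ⟨p, hp, q, hq, hq1, hpq⟩, hDm, ⟨p', hp', q', hq', hq1', hpq'⟩⟩ := hG'.den t htB
      refine ⟨D * q * q', fun _ => ⟨?_, ?_, ?_⟩⟩
      · rw [hpq]; exact mul_mem hp hq'
      · have : D * q * q' * t = q * (D * t * q') := by ring
        rw [this, hpq']
        exact mul_mem hq hp'
      · exact (hDm.mul (MonV.of_unit (le_locV _ _ (hAA1 hq)) hq1)).mul
          (MonV.of_unit (le_locV _ _ (hAA1 hq')) hq1')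
    · exact ⟨0, fun h' => absurd h' ht⟩
  choose D hD using hde
  obtain ⟨g3, n, u, w, A3, hg3, hA3, hmem, hlt, hmem', hlt', hind, hgen, hdim, hLm, hden⟩ :=
    E7_comp3 h A A1 hA1V (fun i => x i * b i) (fun i => p i * b' i) hG' hxb hpb (h2 g1 hg1)
    (s ∪ g1.image D) (by
      intro f hf
      rcases Finset.mem_union.1 hf with hf | hf
      · exact ⟨(hs f hf).2.1, hM' f (hM f hf)⟩
      · obtain ⟨t, ht, rfl⟩ := Finset.mem_image.1 hf
        obtain ⟨h3, h4, h5⟩ := hD t ht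
        exact ⟨hA h3, h5⟩)
  have hset : A3 = locV V (Subring.closure ((A : Set K) ∪ ((g1 ∪ g3 : Finset K) : Set K))) := by
    rw [hA3, hA1, locV_closure_locV (le_refl V), hC1, A2_closure_closure, Finset.coe_union]
  have hA13 : A1 ≤ A3 := by
    rw [hA3]
    exact fun z hz => le_locV _ _ (Subring.subset_closure (Or.inl hz))
  refine ⟨g1 ∪ g3, n, u, w, ?_, ?_, ?_⟩
  · intro t ht
    rcases Finset.mem_union.1 ht with ht | ht
    · exact (hg1 t ht).1
    · exact hg3 t ht
  · rw [← hset]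
    refine ⟨hind, hmem, hlt, hmem', hlt', hgen, hdim, hden ?_⟩
    refine locV_le_denRing ?_ (hCA.trans hA13)
    rw [hC1, Subring.closure_le]
    rintro t (ht | ht)
    · exact Den.of_mem ht
    · obtain ⟨h3, h4, h5⟩ := hD t ht
      exact ⟨D t, h3, hLm _ (Finset.mem_union_right _ (Finset.mem_image_of_mem _ ht)), h4⟩
  · rw [← hset]
    intro f hf
    exact hLm f (Finset.mem_union_left _ hf)

end TC
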