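import Pool.Agent.Lib.TC.Defs
import Pool.Agent.Lib.MP_3029eb_ag.H6Seq

/-!
# Module TC.Dvr1: sequences of quadratic transforms

Setting: `A n` is a sequence of quadratic transforms along `V` (`IsQuadTransform`, H6Seq.lean), `A 0` noetherian,
contained in `V`, `locV V (A 0) = A 0`.

PROOFS.
* `seq_base`: induction on `n`.  The elements `y / x n` (`y ∈ A n`, `V.valuation y < 1`) have value `≤ 1` by the
  choice of `x n`, so the closure is in `V` (`closure_le_val`, `locV_le`); `locV_locV`; noetherian: the maximal ideal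
  of `A n` is generated by finitely many elements `y_1, ..., y_m`; the closure of `A n` and all `y / x n` equals the
  closure of `A n` and the `y_i / x n`, which is noetherian (`isNoetherianRing_closure`), then
  `isNoetherianRing_locV`.
* `seq_fg`: induction: `A (n+1) = locV V (closure (A n ∪ g'))` with `g'` the finite set of the `y_i / x n`, and
  `A n = locV V (closure (A 0 ∪ g))`; `locV_closure_locV` and `A2_closure_closure`.
* `seq_mem`: let `P i = ∏ j < i, x j`.  Let `z ∈ V`, `z * b = a`, `a, b ∈ A 0`, `b ≠ 0`.  By divergence some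
  `V.valuation (P n) < V.valuation b`.  Claim: there is `i` with `b / P i ∈ A i` of value one and all
  `b / P j ∈ A j` of value `< 1` for `j < i`.  Otherwise by induction `b / P j ∈ A j` has value `< 1` for all `j`
  (if `b / P j ∈ A j` has value `< 1` then `b / P (j+1) = (b / P j) / x j ∈ A (j+1)` has value `≤ 1`), so
  `V.valuation b ≤ V.valuation (P n)`: contradiction.  For this `i`, `a / P j ∈ A j` for all `j ≤ i` by induction: for
  `j < i`, `V.valuation (a / P j) ≤ V.valuation (b / P j) < 1`.  So `z = (a / P i) * (b / P i)⁻¹ ∈ A i`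
  (`E5_inv`), and `z ∈ A m` for all `m ≥ i` (monotone).
-/

open IsLocalRing

namespace TC
open Pool.Agent.Lib.MP_3029eb_ag Pool.Agent.Lib.MP_3029eb_ag.Abh

/-- finitely many fractions suffice in a quadratic transform -/
private theorem qt_fin {K : Type} [Field K] {V : ValuationSubring K} {A A' : Subring K} {x : K}
    (h : IsQuadTransform V A A' x) (hA : A ≤ V.toSubring) [IsNoetherianRing A] :
    ∃ g : Finset K, (∀ t ∈ g, t ∈ V) ∧
      A' = locV V (Subring.closure ((A : Set K) ∪ (g : Set K))) := by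
  classical
  obtain ⟨hx, hx0, hx1, hmax, hA'⟩ := h
  obtain ⟨Z, hZ⟩ := (isNoetherianRing_iff_ideal_fg A).1 inferInstance (C3.cen V hA)
  have hZlt : ∀ z ∈ Z, V.valuation (z : K) < 1 := fun z hz =>
    (C3.mem_cen V hA z).1 (by rw [← hZ]; exact Ideal.subset_span hz)
  have hfr : ∀ y ∈ A, V.valuation y < 1 → y / x ∈ V := by
    intro y hy hy1
    rw [← V.valuation_le_one_iff, map_div₀]
    exact div_le_one_of_le₀ (hmax y hy hy1) zero_le
  refine ⟨Z.image fun z : A => (z : K) / x, ?_, ?_⟩
  · intro t ht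
    obtain ⟨z, hz, rfl⟩ := Finset.mem_image.1 ht
    exact hfr _ z.2 (hZlt z hz)
  · rw [hA']
    congr 1
    apply le_antisymm
    · rw [Subring.closure_le]
      rintro z (hz | ⟨y, hy, hy1, rfl⟩)
      · exact Subring.subset_closure (Or.inl hz)
      · set B := Subring.closure ((A : Set K) ∪ ((Z.image fun z : A => (z : K) / x : Finset K) :
          Set K)) with hBdef
        have hAB : A.subtype.range ≤ B := by
          rintro _ ⟨a, rfl⟩
          exact Subring.subset_closure (Or.inl a.2)
        have hI : C3.cen V hA ≤ ratioIdeal A.subtype B hAB ⟨x, hx⟩ 1 := by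
          rw [← hZ, Ideal.span_le]
          intro z hz
          refine ⟨(z : K) / x, Subring.subset_closure (Or.inr (Finset.mem_coe.2
            (Finset.mem_image.2 ⟨z, hz, rfl⟩))), ?_⟩
          rw [pow_one]
          exact (div_mul_cancel₀ _ hx0).symm
        obtain ⟨β, hβ, hβ2⟩ := hI ((C3.mem_cen V hA ⟨y, hy⟩).2 hy1)
        rw [pow_one] at hβ2
        have h3 : y = β * x := hβ2
        have h4 : y / x = β := by rw [h3, mul_div_cancel_right₀ _ hx0]
        rw [h4]
        exact hβ
    · rw [Subring.closure_le]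
      rintro z (hz | hz)
      · exact Subring.subset_closure (Or.inl hz)
      · obtain ⟨w, hw, rfl⟩ := Finset.mem_image.1 (Finset.mem_coe.1 hz)
        exact Subring.subset_closure (Or.inr ⟨w, w.2, hZlt w hw, rfl⟩)

private theorem qt_le {K : Type} [Field K] {V : ValuationSubring K} {A A' : Subring K} {x : K}
    (h : IsQuadTransform V A A' x) : A ≤ A' := by
  obtain ⟨hx, hx0, hx1, hmax, hA'⟩ := h
  rw [hA']
  exact fun z hz => le_locV V _ (Subring.subset_closure (Or.inl hz))

private theorem qt_div {K : Type} [Field K] {V : ValuationSubring K} {A A' : Subring K} {x : K}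
    (h : IsQuadTransform V A A' x) {y : K} (hy : y ∈ A) (hy1 : V.valuation y < 1) :
    y / x ∈ A' := by
  obtain ⟨hx, hx0, hx1, hmax, hA'⟩ := h
  rw [hA']
  exact le_locV V _ (Subring.subset_closure (Or.inr ⟨y, hy, hy1, rfl⟩))

section
variable {K : Type} [Field K] (V : ValuationSubring K) (A : ℕ → Subring K) (x : ℕ → K)

theorem seq_base (hA : ∀ n, IsQuadTransform V (A n) (A (n + 1)) (x n)) (h0 : A 0 ≤ V.toSubring)
    (hl : locV V (A 0) = A 0) [IsNoetherianRing (A 0)] (n : ℕ) :
    A n ≤ V.toSubring ∧ locV V (A n) = A n ∧ IsNoetherianRing (A n) := by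
  induction n with
  | zero => exact ⟨h0, hl, inferInstance⟩
  | succ n ih =>
    obtain ⟨h1, h2, h3⟩ := ih
    obtain ⟨g, hg, hgA⟩ := qt_fin (hA n) h1
    rw [hgA]
    refine ⟨locV_le V (closure_le_val V _ h1 _ fun z hz => hg z (Finset.mem_coe.1 hz)),
      locV_locV V _, ?_⟩
    have : IsNoetherianRing (Subring.closure ((A n : Set K) ∪ (g : Set K))) :=
      isNoetherianRing_closure g
    exact isNoetherianRing_locV V

theorem seq_mono (hA : ∀ n, IsQuadTransform V (A n) (A (n + 1)) (x n)) {m n : ℕ} (h : m ≤ n) :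
    A m ≤ A n :=
  monotone_nat_of_le_succ (fun n => qt_le (hA n)) h

theorem seq_fg (hA : ∀ n, IsQuadTransform V (A n) (A (n + 1)) (x n)) (h0 : A 0 ≤ V.toSubring)
    (hl : locV V (A 0) = A 0) [IsNoetherianRing (A 0)] (n : ℕ) :
    ∃ g : Finset K, (∀ t ∈ g, t ∈ V) ∧
      A n = locV V (Subring.closure ((A 0 : Set K) ∪ (g : Set K))) := by
  classical
  induction n with
  | zero =>
    refine ⟨∅, fun t ht => absurd ht (Finset.notMem_empty t), ?_⟩
    rw [Finset.coe_empty, locV_closure_of_subset V (A 0) ∅ (Set.empty_subset _), hl]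
  | succ n ih =>
    obtain ⟨g, hg, hgA⟩ := ih
    obtain ⟨h1, h2, h3⟩ := seq_base V A x hA h0 hl n
    obtain ⟨g', hg', hgA'⟩ := qt_fin (hA n) h1
    refine ⟨g ∪ g', ?_, ?_⟩
    · intro t ht
      rcases Finset.mem_union.1 ht with ht | ht
      · exact hg t ht
      · exact hg' t ht
    · rw [hgA', hgA, locV_closure_locV (le_refl V), A2_closure_closure, Finset.coe_union]

theorem seq_mem (hA : ∀ n, IsQuadTransform V (A n) (A (n + 1)) (x n)) (h0 : A 0 ≤ V.toSubring)
    (hl : locV V (A 0) = A 0) [IsNoetherianRing (A 0)]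
    (hfrac : ∀ z : K, ∃ a ∈ A 0, ∃ b ∈ A 0, b ≠ 0 ∧ z * b = a)
    (hdiv : ∀ z : K, z ≠ 0 → ∃ n, V.valuation (∏ i ∈ Finset.range n, x i) < V.valuation z)
    (z : K) (hz : z ∈ V) : ∃ n, ∀ m, n ≤ m → z ∈ A m := by
  obtain ⟨a, ha, b, hb, hb0, hzb⟩ := hfrac z
  obtain ⟨N, hN⟩ := hdiv b hb0
  have hx0 : ∀ n, x n ≠ 0 := fun n => (hA n).2.1
  have hP0 : ∀ n, (∏ i ∈ Finset.range n, x i) ≠ 0 := fun n =>
    Finset.prod_ne_zero_iff.2 fun i _ => hx0 i
  have hle : ∀ n, ∀ w ∈ A n, V.valuation w ≤ 1 := fun n w hw =>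
    (V.valuation_le_one_iff w).2 ((seq_base V A x hA h0 hl n).1 hw)
  have hstep : ∀ n (w : K), w / (∏ i ∈ Finset.range n, x i) ∈ A n →
      V.valuation (w / ∏ i ∈ Finset.range n, x i) < 1 →
      w / (∏ i ∈ Finset.range (n + 1), x i) ∈ A (n + 1) := by
    intro n w hw hw1
    rw [Finset.prod_range_succ, ← div_div]
    exact qt_div (hA n) hw hw1
  -- the first index where `b / P i` has value one
  have hex : ∃ i, ∃ (_ : ∀ j ≤ i, b / (∏ k ∈ Finset.range j, x k) ∈ A j),
      (∀ j < i, V.valuation (b / ∏ k ∈ Finset.range j, x k) < 1) ∧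
      V.valuation (b / ∏ k ∈ Finset.range i, x k) = 1 := by
    by_contra hcon
    have hall : ∀ i, (∀ j ≤ i, b / (∏ k ∈ Finset.range j, x k) ∈ A j) ∧
        (∀ j ≤ i, V.valuation (b / ∏ k ∈ Finset.range j, x k) < 1) := by
      intro i
      induction i with
      | zero =>
        have h1 : ∀ j ≤ 0, b / (∏ k ∈ Finset.range j, x k) ∈ A j := by
          intro j hj
          obtain rfl := Nat.le_zero.1 hj
          rw [Finset.prod_range_zero, div_one]
          exact hb
        refine ⟨h1, ?_⟩
        intro j hj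
        obtain rfl := Nat.le_zero.1 hj
        refine lt_of_le_of_ne (hle 0 _ (h1 0 le_rfl)) fun h2 => hcon ⟨0, h1, ?_, h2⟩
        intro j hj
        exact absurd hj (Nat.not_lt_zero j)
      | succ i ih =>
        have h1 : ∀ j ≤ i + 1, b / (∏ k ∈ Finset.range j, x k) ∈ A j := by
          intro j hj
          rcases Nat.lt_or_ge j (i + 1) with hj' | hj'
          · exact ih.1 j (Nat.lt_succ_iff.1 hj')
          · obtain rfl := le_antisymm hj hj'
            exact hstep i b (ih.1 i le_rfl) (ih.2 i le_rfl)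
        refine ⟨h1, ?_⟩
        intro j hj
        rcases Nat.lt_or_ge j (i + 1) with hj' | hj'
        · exact ih.2 j (Nat.lt_succ_iff.1 hj')
        · obtain rfl := le_antisymm hj hj'
          refine lt_of_le_of_ne (hle _ _ (h1 _ le_rfl)) fun h2 => hcon ⟨i + 1, h1, ?_, h2⟩
          intro j hj
          exact ih.2 j (Nat.lt_succ_iff.1 hj)
    have h2 := (hall N).1 N le_rfl
    have h3 := hle N _ h2
    have h5 : 0 < V.valuation (∏ i ∈ Finset.range N, x i) := by
      rw [zero_lt_iff]
      exact (Valuation.ne_zero_iff _).2 (hP0 N)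
    rw [map_div₀, div_le_one₀ h5] at h3
    exact absurd hN (not_lt.2 h3)
  obtain ⟨i, h1, h2, h3⟩ := hex
  have hza : ∀ w : K, V.valuation (a / w) ≤ V.valuation (b / w) := by
    intro w
    have h4 : a / w = z * (b / w) := by rw [← hzb]; ring
    rw [h4, map_mul]
    have h5 := (V.valuation_le_one_iff z).2 hz
    calc V.valuation z * V.valuation (b / w) ≤ 1 * V.valuation (b / w) := by gcongr
      _ = _ := one_mul _
  have ha' : ∀ j, j ≤ i → a / (∏ k ∈ Finset.range j, x k) ∈ A j := by
    intro j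
    induction j with
    | zero =>
      intro _
      rw [Finset.prod_range_zero, div_one]
      exact ha
    | succ j ih =>
      intro hj
      exact hstep j a (ih (Nat.le_of_succ_le hj)) ((hza _).trans_lt (h2 j hj))
  refine ⟨i, fun m hm => seq_mono V A x hA hm ?_⟩
  have h4 : z = (a / ∏ k ∈ Finset.range i, x k) * (b / ∏ k ∈ Finset.range i, x k)⁻¹ := by
    rw [← hzb]
    field_simp [hP0 i, hb0]
  rw [h4]
  exact mul_mem (ha' i le_rfl) (E5_inv (seq_base V A x hA h0 hl i).2.1 (h1 i le_rfl) h3)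

end

end TC
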