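import Pool.Agent.Lib.TC.Defs
import Pool.Agent.Lib.MP_3029eb_ag.H6Div
import Pool.Agent.Lib.MP_3029eb_ag.H6Exist

/-!
# Module TC.Dvr2: quadratic sequences along a discrete valuation become regular
-/

open IsLocalRing

namespace TC
open Pool.Agent.Lib.MP_3029eb_ag Pool.Agent.Lib.MP_3029eb_ag.Abh

theorem divergent_gfr (R : Type) [CommRing R] [IsDomain R]
    [IsNoetherianRing R] [IsLocalRing R]
    (K : Type) [Field K] [Algebra R K] [IsFractionRing R K] (hG : GFR R)
    (V : ValuationSubring K) (hRV : ∀ r : R, algebraMap R K r ∈ V)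
    (hdom : ∀ r : R, r ∈ maximalIdeal R ↔ V.valuation (algebraMap R K r) < 1)
    (A : ℕ → Subring K) (x : ℕ → K) (hA0 : A 0 = (algebraMap R K).range)
    (hA : ∀ n, IsQuadTransform V (A n) (A (n + 1)) (x n))
    (hdiv : ∀ z : K, z ≠ 0 → ∃ n, V.valuation (∏ i ∈ Finset.range n, x i) < V.valuation z) :
    ∃ n, IsRegularLocalRing (A n) := by
  classical
  by_contra hcon
  push Not at hcon
  obtain ⟨hx1, hx2, hx3, hx4, -⟩ := hA 0
  have hxV : x 0 ∈ V := (V.valuation_le_one_iff _).1 hx3.le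
  let ϖ : V := ⟨x 0, hxV⟩
  have hϖ : ϖ ∈ maximalIdeal V := (ValuationSubring.valuation_lt_one_iff V ϖ).2 hx3
  have hϖ0 : ϖ ≠ 0 := fun h0 => hx2 (congrArg Subtype.val h0)
  have harch : ∀ z : V, z ≠ 0 → ∃ n : ℕ, z ∣ ϖ ^ n := by
    intro z hz
    have hz0 : (z : K) ≠ 0 := fun h0 => hz (Subtype.ext h0)
    obtain ⟨n, hn⟩ := hdiv z hz0
    have h1 := (quadratic_mono V A x hA n).trans hn.le
    rw [← map_pow, ValuationSubring.valuation_le_iff] at h1
    obtain ⟨a, ha⟩ := h1
    exact ⟨n, a, Subtype.ext (by rw [mul_comm]; exact ha.symm)⟩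
  obtain ⟨W, KW, _, _, _, _, _, _, τ, θ, hcomplete, hθτ, hθloc, hV, hWarch⟩ :=
    exists_completion ϖ hϖ hϖ0 harch
  -- the homomorphism to the completion
  let ρ : R →+* V := (algebraMap R K).codRestrict V.toSubring hRV
  have hρ : ∀ r, (ρ r : K) = algebraMap R K r := fun r => rfl
  have hle : maximalIdeal R ≤ (Ideal.span {θ ϖ}).comap (θ.comp ρ) := by
    intro r hr
    have h1 := hx4 (algebraMap R K r) (by rw [hA0]; exact ⟨r, rfl⟩) ((hdom r).1 hr)
    rw [ValuationSubring.valuation_le_iff] at h1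
    obtain ⟨a, ha⟩ := h1
    rw [Ideal.mem_comap, Ideal.mem_span_singleton, RingHom.comp_apply]
    refine map_dvd θ ⟨a, Subtype.ext ?_⟩
    rw [mul_comm]
    exact ha.symm
  have hJ : Ideal.span {θ ϖ} ≤ maximalIdeal W := by
    rw [Ideal.span_singleton_le_iff_mem, mem_maximalIdeal, mem_nonunits_iff]
    intro hu
    exact (mem_maximalIdeal _).1 hϖ (isUnit_of_map_unit θ _ hu)
  obtain ⟨φ, hφ, hφι⟩ := exists_lift_completion' R W (Ideal.span {θ ϖ}) hJ (θ.comp ρ) hle
  set T := AdicCompletion (maximalIdeal R) R with hT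
  have hTn : IsNoetherianRing T := noetherian_adicCompletion R
  set ι : R →+* T := algebraMap R T with hι
  have hsame : SameCompletion ι := sameCompletion_adicCompletion R
  have hcomp : ∀ r, algebraMap W KW (φ (ι r)) = τ (algebraMap R K r) := by
    intro r
    have h1 : φ (ι r) = θ (ρ r) := RingHom.congr_fun hφι r
    rw [h1, hθτ, hρ]
  have hinjRK : Function.Injective (algebraMap R K) := IsFractionRing.injective R K
  have hPprime : (RingHom.ker φ).IsPrime := RingHom.ker_isPrime φ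
  have hP0 : (RingHom.ker φ).comap (algebraMap R T) = ⊥ := by
    rw [eq_bot_iff]
    intro r hr
    rw [Ideal.mem_comap, RingHom.mem_ker] at hr
    have h1 := hcomp r
    rw [hr, map_zero, eq_comm, map_eq_zero, map_eq_zero_iff _ hinjRK] at h1
    exact h1
  have hchar := char_alternative R T (algebraMap R T) (RingHom.ker φ) (fun r hr => by
    have h1 : r ∈ (RingHom.ker φ).comap (algebraMap R T) := hr
    rw [hP0] at h1
    exact h1)
  have hreg : IsRegularLocalRing (Localization.AtPrime (RingHom.ker φ)) :=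
    hG (RingHom.ker φ) hP0
  obtain ⟨S, _, _, π, hπ, hB⟩ := exists_presentation T W φ hchar
  have hQprime : (RingHom.ker (φ.comp π)).IsPrime := RingHom.ker_isPrime _
  have hB' : BddDer S (RingHom.ker (φ.comp π)) := hB hQprime
  obtain ⟨c, 𝔟, h𝔟, h1, h2, h3, Φ, hΦ1, hΦ2, f, hf, hdet⟩ :=
    init_state' (W := W) (KW := KW) S T π hπ φ hreg hB'
  obtain ⟨d, hd⟩ := det_jac_mem Φ hΦ2 f
  have hd0 : d ≠ 0 := by
    intro h0
    rw [h0, map_zero] at hd
    exact hdet hd.symm
  obtain ⟨N, hN⟩ := hWarch d hd0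
  obtain ⟨n, hn⟩ := hdiv (x 0 ^ N) (pow_ne_zero _ hx2)
  obtain ⟨w, hw, hwd⟩ := seq_main V τ hV c n R T S (algebraMap R K) hinjRK ι hsame π hπ φ hφ
    hcomp 𝔟 h1 h2 h3 Φ hΦ1 hΦ2 f hf d hd A x hA0 hA (fun i _ => hcon i)
  obtain ⟨e, he⟩ := hwd.trans hN
  have hprod : (∏ i ∈ Finset.range n, x i) ≠ 0 :=
    Finset.prod_ne_zero_iff.2 fun i _ => (hA i).2.1
  have h4 : x 0 ^ N / (∏ i ∈ Finset.range n, x i) ∈ V := by
    rw [hV]
    refine ⟨e, ?_⟩
    rw [map_div₀, eq_div_iff (by rw [Ne, map_eq_zero]; exact hprod), ← hw, ← map_mul, mul_comm e,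
      ← he, map_pow, hθτ, map_pow]
  rw [← V.valuation_le_one_iff, map_div₀] at h4
  have h5 : V.valuation (∏ i ∈ Finset.range n, x i) ≠ 0 :=
    (Valuation.ne_zero_iff _).2 hprod
  have h6 : V.valuation (x 0 ^ N) ≤ V.valuation (∏ i ∈ Finset.range n, x i) := by
    have := mul_le_mul_left h4 (V.valuation (∏ i ∈ Finset.range n, x i))
    rwa [div_mul_cancel₀ _ h5, one_mul] at this
  exact absurd hn (not_lt.2 h6)

theorem exists_regular_seq {K : Type} [Field K] (V : ValuationSubring K) (π : K)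
    (hπ : V.valuation π < 1)
    (hgen : ∀ z : K, z ≠ 0 → ∃ n : ℤ, V.valuation z = V.valuation (π ^ n))
    (A0 : Subring K) (hA : A0 ≤ V.toSubring) (hloc : locV V A0 = A0) [IsNoetherianRing A0]
    (hG : ∀ [IsLocalRing A0], GFR A0) (hπ0 : π ≠ 0)
    (hfrac : ∀ z : K, ∃ a ∈ A0, ∃ b ∈ A0, b ≠ 0 ∧ z * b = a) :
    ∃ (A : ℕ → Subring K) (x : ℕ → K) (N : ℕ), A 0 = A0 ∧
      (∀ n, IsQuadTransform V (A n) (A (n + 1)) (x n)) ∧
      (∀ z : K, z ≠ 0 → ∃ n, V.valuation (∏ i ∈ Finset.range n, x i) < V.valuation z) ∧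
      ∀ n, N ≤ n → IsRegularLocalRing (A n) := by
  classical
  have hlocal : IsLocalRing A0 := A2_isLocal V hA hloc
  have hπv : V.valuation π ≠ 0 := (map_ne_zero V.valuation).2 hπ0
  have hV : V ≠ ⊤ := by
    intro h
    have h1 : π⁻¹ ∈ V := by rw [h]; trivial
    have h2 : V.valuation π⁻¹ ≤ 1 := (V.valuation_le_one_iff _).2 h1
    have h3 : V.valuation π * V.valuation π⁻¹ = 1 := by
      rw [← map_mul, mul_inv_cancel₀ hπ0, map_one]
    have h4 : V.valuation π * V.valuation π⁻¹ < 1 := by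
      calc V.valuation π * V.valuation π⁻¹ ≤ V.valuation π * 1 := mul_le_mul_right h2 _
        _ < 1 := by rw [mul_one]; exact hπ
    rw [h3] at h4
    exact lt_irrefl _ h4
  let φ : A0 →+* V := Subring.inclusion hA
  have hφ : ∀ a : A0, ((φ a : V) : K) = a := fun a => rfl
  have hφinj : Function.Injective φ := Subring.inclusion_injective hA
  have hφloc : IsLocalHom φ := by
    constructor
    intro a ha
    rw [A2_isUnit_iff V hA hloc, ← hφ a]
    obtain ⟨u, hu⟩ := ha
    rw [← hu]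
    exact ValuationSubring.valuation_unit V u
  have hrange : A0 = (V.subtype.comp φ).range := by
    ext z
    constructor
    · intro hz
      exact ⟨⟨z, hz⟩, rfl⟩
    · rintro ⟨a, rfl⟩
      exact a.2
  have hdom : DomBy V A0 := ⟨A0, inferInstance, inferInstance, hlocal, φ, hφloc, hφinj, hrange⟩
  obtain ⟨A, x, hA0, hQ⟩ := exists_quad_sequence V hV A0 (fun z => by
    obtain ⟨a, ha, b, hb, hb0, h⟩ := hfrac z
    exact ⟨a, ha, b, hb, hb0, by rw [eq_div_iff hb0, h]⟩) hdom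
  have hxle : ∀ i, V.valuation (x i) ≤ V.valuation π := by
    intro i
    obtain ⟨-, hx0, hx1, -⟩ := hQ i
    obtain ⟨n, hn⟩ := hgen _ hx0
    have hn1 : 1 ≤ n := by
      by_contra hcon
      push Not at hcon
      obtain ⟨m, hm⟩ : ∃ m : ℕ, n = -(m : ℤ) := ⟨(-n).toNat, by omega⟩
      rw [hn, hm, zpow_neg, zpow_natCast, map_inv₀, map_pow] at hx1
      have h5 : V.valuation π ^ m ≤ 1 := pow_le_one₀ zero_le hπ.le
      have h6 : (V.valuation π ^ m)⁻¹ * V.valuation π ^ m = 1 :=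
        inv_mul_cancel₀ (pow_ne_zero _ hπv)
      have h7 : (V.valuation π ^ m)⁻¹ * V.valuation π ^ m < 1 := by
        calc (V.valuation π ^ m)⁻¹ * V.valuation π ^ m ≤ (V.valuation π ^ m)⁻¹ * 1 :=
              mul_le_mul_right h5 _
          _ < 1 := by rw [mul_one]; exact hx1
      rw [h6] at h7
      exact lt_irrefl _ h7
    obtain ⟨m, hm⟩ : ∃ m : ℕ, n = ((m + 1 : ℕ) : ℤ) := ⟨(n - 1).toNat, by omega⟩
    rw [hn, hm, zpow_natCast, map_pow, pow_succ]
    calc V.valuation π ^ m * V.valuation π ≤ 1 * V.valuation π :=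
          mul_le_mul_left (pow_le_one₀ zero_le hπ.le) _
      _ = _ := one_mul _
  have hprod : ∀ n, V.valuation (∏ i ∈ Finset.range n, x i) ≤ V.valuation π ^ n := by
    intro n
    rw [map_prod]
    calc ∏ i ∈ Finset.range n, V.valuation (x i) ≤ ∏ _i ∈ Finset.range n, V.valuation π :=
          Finset.prod_le_prod' fun i _ => hxle i
      _ = V.valuation π ^ n := by rw [Finset.prod_const, Finset.card_range]
  have hdiv : ∀ z : K, z ≠ 0 → ∃ n, V.valuation (∏ i ∈ Finset.range n, x i) < V.valuation z := by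
    intro z hz
    obtain ⟨n, hn⟩ := hgen z hz
    refine ⟨n.toNat + 1, (hprod _).trans_lt ?_⟩
    have h1 : V.valuation π ^ n.toNat ≤ V.valuation z := by
      rcases le_total 0 n with h0 | h0
      · obtain ⟨m, rfl⟩ := Int.eq_ofNat_of_zero_le h0
        rw [hn, Int.toNat_natCast, zpow_natCast, map_pow]
      · obtain ⟨m, hm⟩ : ∃ m : ℕ, n = -(m : ℤ) := ⟨(-n).toNat, by omega⟩
        have h2 : n.toNat = 0 := by omega
        rw [h2, pow_zero, hn, hm, zpow_neg, zpow_natCast, map_inv₀, map_pow]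
        have h5 : V.valuation π ^ m ≤ 1 := pow_le_one₀ zero_le hπ.le
        calc (1 : V.ValueGroup) = (V.valuation π ^ m)⁻¹ * V.valuation π ^ m :=
              (inv_mul_cancel₀ (pow_ne_zero _ hπv)).symm
          _ ≤ (V.valuation π ^ m)⁻¹ * 1 := mul_le_mul_right h5 _
          _ = _ := mul_one _
    calc V.valuation π ^ (n.toNat + 1) = V.valuation π ^ n.toNat * V.valuation π := pow_succ _ _
      _ < V.valuation π ^ n.toNat :=
          mul_lt_of_lt_one_right (zero_lt_iff.2 (pow_ne_zero _ hπv)) hπ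
      _ ≤ _ := h1
  have hinj : Function.Injective (algebraMap A0 K) := Subtype.val_injective
  have hfaith : FaithfulSMul A0 K := (faithfulSMul_iff_algebraMap_injective A0 K).2 hinj
  have hfr : IsFractionRing A0 K := IsFractionRing.of_field A0 K fun z => by
    obtain ⟨a, ha, b, hb, hb0, h⟩ := hfrac z
    exact ⟨⟨a, ha⟩, ⟨b, hb⟩, by
      rw [eq_div_iff]
      · exact h
      · exact hb0⟩
  obtain ⟨N, hN⟩ := divergent_gfr A0 K hG V (fun r => hA r.2)
    (fun r => A2_mem_maximalIdeal V hA hloc r) A x (by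
      rw [hA0]
      ext z
      constructor
      · intro hz
        exact ⟨⟨z, hz⟩, rfl⟩
      · rintro ⟨a, rfl⟩
        exact a.2) hQ hdiv
  refine ⟨A, x, N, hA0, hQ, hdiv, fun n hn => ?_⟩
  exact seq_reg V A x hQ ⟨A0, inferInstance, inferInstance, hlocal, φ, hφloc, hφinj, by
    rw [hA0]; exact hrange⟩ N hN n hn

end TC
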