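import Pool.Agent.Lib.TC.Defs

/-!
# Module TC.Dvr3: a uniformizer of a discrete valuation is a regular parameter
-/

open IsLocalRing

namespace TC
open Pool.Agent.Lib.MP_3029eb_ag Pool.Agent.Lib.MP_3029eb_ag.Abh

theorem exists_params (A : Type) [CommRing A] [IsRegularLocalRing A] (π : A)
    (h1 : π ∈ maximalIdeal A) (h2 : π ∉ maximalIdeal A ^ 2) :
    ∃ (h : ℕ) (w : Fin h → A), maximalIdeal A = Ideal.span ({π} ∪ Set.range w) ∧
      ringKrullDim A = ((h + 1 : ℕ) : WithBot ℕ∞) := by
  classical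
  have hfg : (maximalIdeal A).FG := (isNoetherianRing_iff_ideal_fg A).1 inferInstance _
  obtain ⟨s, hs1, hs2⟩ := Submodule.FG.exists_span_finset_card_eq_spanFinrank hfg
  have hd := IsRegularLocalRing.spanFinrank_maximalIdeal (R := A)
  have hsm : ∀ b ∈ s, b ∈ maximalIdeal A := fun b hb => by
    rw [← hs2]
    exact Submodule.subset_span hb
  have hπ : π ∈ Submodule.span A (s : Set A) := by
    rw [hs2]
    exact h1
  rw [Submodule.mem_span_finset] at hπ
  obtain ⟨c, hc1, hc2⟩ := hπ
  have hex : ∃ a ∈ s, IsUnit (c a) := by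
    by_contra hcon
    push Not at hcon
    apply h2
    rw [← hc2, pow_two]
    refine Ideal.sum_mem _ fun a ha => ?_
    rw [smul_eq_mul]
    exact Ideal.mul_mem_mul ((mem_maximalIdeal _).2 (hcon a ha)) (hsm a ha)
  obtain ⟨a, ha, hu⟩ := hex
  refine ⟨(s.erase a).card, fun j => ((s.erase a).equivFin.symm j : A), ?_, ?_⟩
  · have hr : Set.range (fun j => ((s.erase a).equivFin.symm j : A)) = (s.erase a : Finset A) := by
      ext z
      constructor
      · rintro ⟨j, rfl⟩
        exact ((s.erase a).equivFin.symm j).2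
      · intro hz
        exact ⟨(s.erase a).equivFin ⟨z, hz⟩, by simp⟩
    rw [hr]
    apply le_antisymm
    · rw [← hs2]
      refine Submodule.span_le.2 fun b hb => ?_
      by_cases hba : b = a
      · subst hba
        obtain ⟨u, hu'⟩ := hu
        have h3 : b = (↑u⁻¹ : A) * (π - ∑ x ∈ s.erase b, c x • x) := by
          rw [← hc2, ← Finset.add_sum_erase s _ ha, ← hu', add_sub_cancel_right, smul_eq_mul,
            ← mul_assoc, Units.inv_mul, one_mul]
        have h4 : (↑u⁻¹ : A) * (π - ∑ x ∈ s.erase b, c x • x) ∈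
            Ideal.span ({π} ∪ ((s.erase b : Finset A) : Set A)) := by
          refine Ideal.mul_mem_left _ _ (Ideal.sub_mem _ (Ideal.subset_span (Or.inl rfl)) ?_)
          refine Ideal.sum_mem _ fun x hx => ?_
          rw [smul_eq_mul]
          exact Ideal.mul_mem_left _ _ (Ideal.subset_span (Or.inr hx))
        rwa [← h3] at h4
      · exact Ideal.subset_span (Or.inr (Finset.mem_erase.2 ⟨hba, hb⟩))
    · rw [Ideal.span_le]
      rintro z (hz | hz)
      · rw [Set.mem_singleton_iff.1 hz]; exact h1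
      · exact hsm z (Finset.mem_of_mem_erase hz)
  · rw [← hd, ← hs1, ← Finset.card_erase_add_one ha]

theorem exists_par {K : Type} [Field K] (V : ValuationSubring K) (A : Subring K)
    (hA : A ≤ V.toSubring) (hloc : locV V A = A) (hreg : IsRegularLocalRing A) (π : K)
    (hπA : π ∈ A) (hπ0 : π ≠ 0) (hπ : V.valuation π < 1)
    (hmin : ∀ z ∈ A, V.valuation z < 1 → V.valuation z ≤ V.valuation π) :
    ∃ (h : ℕ) (w : Fin h → K), (∀ j, w j ∈ A) ∧ (∀ j, V.valuation (w j) < 1) ∧
      (∀ z ∈ A, V.valuation z < 1 → ∃ c ∈ A, ∃ d : Fin h → K, (∀ j, d j ∈ A) ∧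
        z = c * π + ∑ j, d j * w j) ∧
      ((1 + h : ℕ) : WithBot ℕ∞) ≤ ringKrullDim A := by
  have hmem : ∀ a : A, a ∈ maximalIdeal A ↔ V.valuation (a : K) < 1 := fun a =>
    A2_mem_maximalIdeal V hA hloc a
  have hπv : 0 < V.valuation π := by
    rw [zero_lt_iff]
    exact (map_ne_zero V.valuation).2 hπ0
  have hlt : V.valuation π * V.valuation π < V.valuation π := by
    calc V.valuation π * V.valuation π < 1 * V.valuation π :=
          mul_lt_mul_of_pos_right hπ hπv
      _ = V.valuation π := one_mul _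
  have h2 : (⟨π, hπA⟩ : A) ∉ maximalIdeal A ^ 2 := by
    intro hcon
    rw [pow_two] at hcon
    have key : ∀ z ∈ maximalIdeal A * maximalIdeal A,
        V.valuation (z : K) ≤ V.valuation π * V.valuation π := by
      intro z hz
      induction hz using Submodule.mul_induction_on' with
      | mem_mul_mem a ha b hb =>
        rw [Subring.coe_mul, map_mul]
        exact mul_le_mul' (hmin _ a.2 ((hmem a).1 ha)) (hmin _ b.2 ((hmem b).1 hb))
      | add a _ b _ iha ihb =>
        rw [Subring.coe_add]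
        exact (V.valuation.map_add _ _).trans (max_le iha ihb)
    exact absurd (key _ hcon) (not_le.2 hlt)
  obtain ⟨h, w, hw, hd⟩ := exists_params A ⟨π, hπA⟩ ((hmem _).2 hπ) h2
  refine ⟨h, fun j => (w j : K), fun j => (w j).2, fun j => (hmem _).1 ?_, ?_, ?_⟩
  · rw [hw]
    exact Ideal.subset_span (Or.inr ⟨j, rfl⟩)
  · intro z hz hz1
    have h3 : (⟨z, hz⟩ : A) ∈ maximalIdeal A := (hmem _).2 hz1
    rw [hw, Set.singleton_union, Ideal.mem_span_insert] at h3
    obtain ⟨c, y, hy, hcy⟩ := h3
    rw [Ideal.mem_span_range_iff_exists_fun] at hy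
    obtain ⟨d, hdy⟩ := hy
    refine ⟨(c : K), c.2, fun j => (d j : K), fun j => (d j).2, ?_⟩
    have h4 := congrArg (fun t : A => (t : K)) hcy
    simp only at h4
    rw [h4, ← hdy]
    push_cast
    rfl
  · rw [hd, add_comm]

end TC
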