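import Pool.Agent.Lib.TC.Dvr1
import Pool.Agent.Lib.TC.Dvr2
import Pool.Agent.Lib.TC.Dvr3

/-!
# Module TC.Dvr4: embedded local uniformization along discrete valuations

The residue field extension is arbitrary.
-/

open IsLocalRing

namespace TC
open Pool.Agent.Lib.MP_3029eb_ag Pool.Agent.Lib.MP_3029eb_ag.Abh

/-- the exponent of an element of value less than one is positive -/
private theorem exp_pos {K : Type} [Field K] {V : ValuationSubring K} {π : K} (hπ0 : π ≠ 0)
    (hπ : V.valuation π < 1) {n : ℤ} (hn : V.valuation (π ^ n) < 1) : 1 ≤ n := by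
  have hπv : V.valuation π ≠ 0 := (map_ne_zero V.valuation).2 hπ0
  by_contra hcon
  push Not at hcon
  obtain ⟨m, hm⟩ : ∃ m : ℕ, n = -(m : ℤ) := ⟨(-n).toNat, by omega⟩
  rw [hm, zpow_neg, zpow_natCast, map_inv₀, map_pow] at hn
  have h5 : V.valuation π ^ m ≤ 1 := pow_le_one₀ zero_le hπ.le
  have h6 : (V.valuation π ^ m)⁻¹ * V.valuation π ^ m = 1 :=
    inv_mul_cancel₀ (pow_ne_zero _ hπv)
  have h7 : (V.valuation π ^ m)⁻¹ * V.valuation π ^ m < 1 := by
    calc (V.valuation π ^ m)⁻¹ * V.valuation π ^ m ≤ (V.valuation π ^ m)⁻¹ * 1 :=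
          mul_le_mul_right h5 _
      _ < 1 := by rw [mul_one]; exact hn
  rw [h6] at h7
  exact lt_irrefl _ h7

private theorem pow_lt {K : Type} [Field K] {V : ValuationSubring K} {π : K}
    (hπ : V.valuation π < 1) {m : ℕ} (hm : 0 < m) : V.valuation (π ^ m) < 1 := by
  rw [map_pow]
  obtain ⟨k, rfl⟩ := Nat.exists_eq_succ_of_ne_zero hm.ne'
  calc V.valuation π ^ (k + 1) = V.valuation π ^ k * V.valuation π := pow_succ _ _
    _ ≤ 1 * V.valuation π := mul_le_mul_left (pow_le_one₀ zero_le hπ.le) _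
    _ < 1 := by rw [one_mul]; exact hπ

theorem emb3_discrete_frac {Rb K : Type} [CommRing Rb] [Field K] (hRb : GoodBase Rb)
    (V : ValuationSubring K) (π : K) (hπ0 : π ≠ 0) (hπ : V.valuation π < 1)
    (hgen : ∀ z : K, z ≠ 0 → ∃ n : ℤ, V.valuation z = V.valuation (π ^ n))
    (A0 : Subring K) (hA : A0 ≤ V.toSubring) (hloc : locV V A0 = A0) (f : Rb →+* A0) (hf : EFT f)
    (hfrac : ∀ z : K, ∃ a ∈ A0, ∃ b ∈ A0, b ≠ 0 ∧ z * b = a) : EMB3 V A0 1 := by
  classical
  have hRn : IsNoetherianRing Rb := hRb.1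
  have hn : IsNoetherianRing A0 := hf.isNoetherianRing
  have hG : ∀ [IsLocalRing A0], GFR A0 := fun {_} => hRb.2 A0 f hf
  obtain ⟨A, x, N, hA0, hQ, hdiv, hreg⟩ :=
    exists_regular_seq V π hπ hgen A0 hA hloc hG hπ0 hfrac
  have h0 : A 0 ≤ V.toSubring := by rw [hA0]; exact hA
  have hl : locV V (A 0) = A 0 := by rw [hA0]; exact hloc
  have hn0 : IsNoetherianRing (A 0) := by rw [hA0]; exact hn
  have hfrac0 : ∀ z : K, ∃ a ∈ A 0, ∃ b ∈ A 0, b ≠ 0 ∧ z * b = a := by rw [hA0]; exact hfrac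
  have base := fun n => seq_base V A x hQ h0 hl n
  have mono : ∀ {m n : ℕ}, m ≤ n → A m ≤ A n := fun h => seq_mono V A x hQ h
  have smem := seq_mem V A x hQ h0 hl hfrac0 hdiv
  have hπV : π ∈ V := (V.valuation_le_one_iff π).1 hπ.le
  have hπv : V.valuation π ≠ 0 := (map_ne_zero V.valuation).2 hπ0
  -- (1)
  have hmin : ∀ z : K, V.valuation z < 1 → V.valuation z ≤ V.valuation π := by
    intro z hz
    by_cases hz0 : z = 0
    · rw [hz0, map_zero]; exact zero_le
    obtain ⟨n, hn⟩ := hgen z hz0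
    rw [hn] at hz ⊢
    have h1 := exp_pos hπ0 hπ hz
    obtain ⟨m, hm⟩ : ∃ m : ℕ, n = ((m + 1 : ℕ) : ℤ) := ⟨(n - 1).toNat, by omega⟩
    rw [hm, zpow_natCast, map_pow, pow_succ]
    calc V.valuation π ^ m * V.valuation π ≤ 1 * V.valuation π :=
          mul_le_mul_left (pow_le_one₀ zero_le hπ.le) _
      _ = _ := one_mul _
  -- (3) nonzero elements of `V` become monomial
  have key : ∀ y : K, ∃ n, y ≠ 0 → y ∈ V → ∀ m, n ≤ m → MonV V (A m) (fun _ : Fin 1 => π) y := by
    intro y
    by_cases hy : y ≠ 0 ∧ y ∈ V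
    · obtain ⟨hy0, hyV⟩ := hy
      obtain ⟨k, hk⟩ := hgen y hy0
      have hk0 : 0 ≤ k := by
        by_contra hcon
        push Not at hcon
        have h1 : V.valuation (π ^ (-k).toNat) < 1 := pow_lt hπ (by omega)
        have h2 : V.valuation y * V.valuation (π ^ (-k).toNat) = 1 := by
          rw [hk, ← map_mul, ← zpow_natCast, ← zpow_add₀ hπ0]
          have : k + (((-k).toNat : ℕ) : ℤ) = 0 := by omega
          rw [this, zpow_zero, map_one]
        have h3 : V.valuation y ≤ 1 := (V.valuation_le_one_iff y).2 hyV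
        have h4 : V.valuation y * V.valuation (π ^ (-k).toNat) < 1 := by
          calc V.valuation y * V.valuation (π ^ (-k).toNat) ≤
                1 * V.valuation (π ^ (-k).toNat) := mul_le_mul_left h3 _
            _ < 1 := by rw [one_mul]; exact h1
        rw [h2] at h4
        exact lt_irrefl _ h4
      obtain ⟨m, rfl⟩ := Int.eq_ofNat_of_zero_le hk0
      rw [zpow_natCast] at hk
      have hpm : π ^ m ≠ 0 := pow_ne_zero _ hπ0
      have hval : V.valuation (y / π ^ m) = 1 := by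
        rw [map_div₀, hk, div_self ((map_ne_zero V.valuation).2 hpm)]
      obtain ⟨n, hn⟩ := smem (y / π ^ m) ((V.valuation_le_one_iff _).1 hval.le)
      refine ⟨n, fun _ _ m' hm' => ⟨y / π ^ m, hn m' hm', hval, fun _ => m, ?_⟩⟩
      unfold monN
      rw [Fin.prod_univ_one, div_mul_cancel₀ _ hpm]
    · exact ⟨0, fun h1 h2 => absurd ⟨h1, h2⟩ hy⟩
  choose cf hcf using key
  -- (2)
  obtain ⟨N1, hN1⟩ := smem π hπV
  have hx : ∀ i, N1 ≤ i → ∀ n, i + 1 ≤ n → MonV V (A n) (fun _ : Fin 1 => π) (x i) := by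
    intro i hi n hin
    obtain ⟨hx1, hx2, hx3, hx4, hx5⟩ := hQ i
    have hval : V.valuation (x i) = V.valuation π :=
      le_antisymm (hmin _ hx3) (hx4 π (hN1 i hi) hπ)
    have hmem : π / x i ∈ A (i + 1) := by
      rw [hx5]
      exact le_locV V _ (Subring.subset_closure (Or.inr ⟨π, hN1 i hi, hπ, rfl⟩))
    have h1 : V.valuation (π / x i) = 1 := by
      rw [map_div₀, hval, div_self hπv]
    have h2 := E5_inv (base (i + 1)).2.1 hmem h1
    rw [inv_div] at h2
    refine ⟨x i / π, mono hin h2, ?_, fun _ => 1, ?_⟩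
    · rw [map_div₀, hval, div_self hπv]
    · unfold monN
      rw [Fin.prod_univ_one, pow_one, div_mul_cancel₀ _ hπ0]
  intro s hs
  set n : ℕ := max N (max (N1 + 1) (max (s.sup cf) ((Finset.range N1).sup fun i => cf (x i))))
    with hndef
  have hnN : N ≤ n := le_max_left _ _
  have hnN1 : N1 + 1 ≤ n := (le_max_left _ _).trans (le_max_right _ _)
  have hns : s.sup cf ≤ n :=
    ((le_max_left _ _).trans (le_max_right _ _)).trans (le_max_right _ _)
  have hnx : ((Finset.range N1).sup fun i => cf (x i)) ≤ n :=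
    ((le_max_right _ _).trans (le_max_right _ _)).trans (le_max_right _ _)
  have hxall : ∀ i, i < n → MonV V (A n) (fun _ : Fin 1 => π) (x i) := by
    intro i hi
    by_cases hi1 : N1 ≤ i
    · exact hx i hi1 n hi
    · obtain ⟨hx1, hx2, hx3, hx4, hx5⟩ := hQ i
      refine hcf (x i) hx2 ((V.valuation_le_one_iff _).1 hx3.le) n (le_trans ?_ hnx)
      exact Finset.le_sup (f := fun i => cf (x i)) (Finset.mem_range.2 (by omega))
  obtain ⟨hb1, hb2, hb3⟩ := base n
  have hπn : π ∈ A n := hN1 n (by omega)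
  obtain ⟨h, w, hw1, hw2, hw3, hw4⟩ := exists_par V (A n) hb1 hb2 (hreg n hnN) π hπn hπ0 hπ
    (fun z _ hz => hmin z hz)
  obtain ⟨g, hg, hgA⟩ := seq_fg V A x hQ h0 hl n
  rw [hA0] at hgA
  have hden : ∀ i, i ≤ n → A i ≤ denRing V A0 (A n) (fun _ : Fin 1 => π) := by
    intro i
    induction i with
    | zero => intro _; rw [hA0]; exact le_denRing
    | succ i ih =>
      intro hi
      have ih' := ih (by omega)
      obtain ⟨hx1, hx2, hx3, hx4, hx5⟩ := hQ i
      have hcl : Subring.closure ((A i : Set K) ∪ {z | ∃ y ∈ A i, V.valuation y < 1 ∧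
          z = y / x i}) ≤ denRing V A0 (A n) (fun _ : Fin 1 => π) := by
        rw [Subring.closure_le]
        rintro z (hz | ⟨y, hy, hy1, rfl⟩)
        · exact ih' hz
        · exact Den.div (ih' hy) (ih' hx1) (hxall i (by omega)) (div_mul_cancel₀ _ hx2)
      have hcl2 : Subring.closure ((A i : Set K) ∪ {z | ∃ y ∈ A i, V.valuation y < 1 ∧
          z = y / x i}) ≤ A n := by
        refine le_trans ?_ (mono hi)
        rw [hx5]
        exact le_locV V _
      rw [hx5]
      exact locV_le_denRing hcl hcl2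
  refine ⟨g, h, fun _ => π, w, hg, ?_, ?_⟩
  · rw [← hgA]
    refine ⟨⟨fun _ => hπ0, fun δ hδ => ?_⟩, fun _ => hπn, fun _ => hπ, hw1, hw2, ?_, hw4, ?_⟩
    · unfold mon at hδ
      rw [Fin.prod_univ_one] at hδ
      have hδ0 : δ 0 = 0 := by
        rcases lt_trichotomy (δ 0) 0 with h1 | h1 | h1
        · exfalso
          have h2 : V.valuation (π ^ (-(δ 0)).toNat) < 1 := pow_lt hπ (by omega)
          have h3 : V.valuation (π ^ (δ 0)) * V.valuation (π ^ (-(δ 0)).toNat) = 1 := by
            rw [← map_mul, ← zpow_natCast, ← zpow_add₀ hπ0]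
            have : δ 0 + (((-(δ 0)).toNat : ℕ) : ℤ) = 0 := by omega
            rw [this, zpow_zero, map_one]
          rw [hδ, one_mul] at h3
          rw [h3] at h2
          exact lt_irrefl _ h2
        · exact h1
        · exfalso
          have h2 : V.valuation (π ^ (δ 0).toNat) < 1 := pow_lt hπ (by omega)
          rw [← zpow_natCast] at h2
          have : (((δ 0).toNat : ℕ) : ℤ) = δ 0 := by omega
          rw [this, hδ] at h2
          exact lt_irrefl _ h2
      funext i
      have : i = 0 := Subsingleton.elim _ _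
      rw [this, hδ0]; rfl
    · intro z hz hz1
      obtain ⟨c, hc, d, hd, hzc⟩ := hw3 z hz hz1
      refine ⟨fun _ => c, d, fun _ => hc, hd, ?_⟩
      rw [Fin.sum_univ_one]
      exact hzc
    · intro z hz
      exact hden n le_rfl hz
  · rw [← hgA]
    intro y hy
    obtain ⟨hy0, hyV, _⟩ := hs y hy
    exact hcf y hy0 hyV n ((Finset.le_sup hy).trans hns)

end TC
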