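import Pool.Agent.Lib.TC.Defs

/-!
# Module TC.E5: the last step of the composition

PROOF: copy of `E5_final` in Pool/Agent/Lib/MP_3029eb_ag/AbhE5.lean (350 lines) with the additional parameters `p`
of `V1` (divided by the same `E ^ M` as the `x i`) and `q` of the residual valuation (treated as the `u j`, but they
never occur in monomials).  Put `X = Fin.append x p`, `n = r1 + h1`, `Y k = X k / E ^ M : Fin n → K`; then
`y i = Y (Fin.castAdd h1 i)`, `y' j = Y (Fin.natAdd r1 j)`, `Set.range Y = Set.range y ∪ Set.range y'`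
(`Fin.addCases`).  The parts `hsum1, hdecB, hdec3, hP2'` of the old proof are repeated verbatim with `Y` in place of
`y` (they only use that all `V1`-values are `< 1`); `hxy, hL3, hWm` and the independence use the `y i` only, as
before.  In the last part `z = a + ∑ c_k Y_k`, `a = ∑ c'_j u_j + ∑ d'_j q_j + (element of A2 of V1-value < 1)`, the
latter is `(b2 ^ N0 * Pu ^ M) * ∑ d_k Y_k`; collect the coefficients with `Fin.append` (`Fin.sum_univ_add`).
The elements `e` with `y i * e = x i` are `E ^ M`, of `V1`-value one.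
-/

open IsLocalRing

namespace TC
open Pool.Agent.Lib.MP_3029eb_ag Pool.Agent.Lib.MP_3029eb_ag.Abh

theorem E5_final3 {K : Type} [Field K] {V V1 : ValuationSubring K} (h : V ≤ V1) (A2 : Subring K)
    (hA2 : A2 ≤ V.toSubring) (hloc2 : locV V A2 = A2) {r1 h1 r2 h2 : ℕ} (x : Fin r1 → K)
    (hx : IndV V1 x) (hx1 : ∀ i, V1.valuation (x i) < 1)
    (p : Fin h1 → K) (hp1 : ∀ j, V1.valuation (p j) < 1)
    (u : Fin r2 → K) (hu : ∀ j, u j ∈ A2) (hu1 : ∀ j, V1.valuation (u j) = 1)
    (hui : IndV V u) (hult : ∀ j, V.valuation (u j) < 1)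
    (q : Fin h2 → K) (hq : ∀ j, q j ∈ A2) (hqlt : ∀ j, V.valuation (q j) < 1)
    (hgen : ∀ z ∈ A2, V.valuation z < 1 → ∃ (c : Fin r2 → K) (d : Fin h2 → K),
      (∀ j, c j ∈ A2) ∧ (∀ j, d j ∈ A2) ∧
      V1.valuation (z - (∑ j, c j * u j + ∑ j, d j * q j)) < 1)
    (b2 : K) (hb21 : V1.valuation b2 = 1)
    (hP2 : ∀ z ∈ A2, V1.valuation z < 1 → ∃ c : Fin (r1 + h1) → K, (∀ i, c i ∈ A2) ∧
      b2 * z = ∑ i, c i * (Fin.append x p : Fin (r1 + h1) → K) i)
    (W : Finset K) (hbW : b2 ∈ W)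
    (hW : ∀ w ∈ W, w ∈ A2 ∧ ∃ ε ∈ A2, V.valuation ε = 1 ∧ ∃ β : Fin r2 → ℕ,
      V1.valuation (w - ε * monN u β) < 1)
    (L : Finset K)
    (hL : ∀ f ∈ L, f ∈ V ∧ ∃ w1 ∈ W, ∃ w2 ∈ W, ∃ α : Fin r1 → ℕ, f * w2 = w1 * monN x α ∧
      (α = 0 → ∃ γ : Fin r2 → ℕ, V.valuation f = V.valuation (monN u γ))) :
    ∃ (y : Fin r1 → K) (y' : Fin h1 → K) (A3 : Subring K),
      A3 = locV V (Subring.closure ((A2 : Set K) ∪ (Set.range y ∪ Set.range y'))) ∧
      (∀ i, V1.valuation (y i) < 1) ∧ (∀ j, V1.valuation (y' j) < 1) ∧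
      (∀ i, ∃ e ∈ A2, V1.valuation e = 1 ∧ MonV V A3 (Fin.append y u) e ∧ y i * e = x i) ∧
      (∀ j, ∃ e ∈ A2, V1.valuation e = 1 ∧ MonV V A3 (Fin.append y u) e ∧ y' j * e = p j) ∧
      IndV V (Fin.append y u) ∧ (∀ k, (Fin.append y u : Fin (r1 + r2) → K) k ∈ A3) ∧
      (∀ k, V.valuation ((Fin.append y u : Fin (r1 + r2) → K) k) < 1) ∧
      (∀ k, (Fin.append y' q : Fin (h1 + h2) → K) k ∈ A3) ∧
      (∀ k, V.valuation ((Fin.append y' q : Fin (h1 + h2) → K) k) < 1) ∧
      (∀ z ∈ A3, V.valuation z < 1 → ∃ (c : Fin (r1 + r2) → K) (d : Fin (h1 + h2) → K),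
        (∀ k, c k ∈ A3) ∧ (∀ k, d k ∈ A3) ∧
        z = ∑ k, c k * (Fin.append y u : Fin (r1 + r2) → K) k +
          ∑ k, d k * (Fin.append y' q : Fin (h1 + h2) → K) k) ∧
      (∀ w ∈ W, MonV V A3 (Fin.append y u) w) ∧ ∀ f ∈ L, MonV V A3 (Fin.append y u) f := by
  classical
  have hWe : ∀ w : K, ∃ (ε : K) (β : Fin r2 → ℕ), w ∈ W → ε ∈ A2 ∧ V.valuation ε = 1 ∧
      V1.valuation (w - ε * monN u β) < 1 := by
    intro w
    by_cases hw : w ∈ W
    · obtain ⟨_, ε, hε, hε1, β, hβ⟩ := hW w hw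
      exact ⟨ε, β, fun _ => ⟨hε, hε1, hβ⟩⟩
    · exact ⟨0, 0, fun h' => absurd h' hw⟩
  choose ε β hεβ using hWe
  obtain ⟨N0, hN0⟩ : ∃ N0 : ℕ, ∀ w ∈ W, ∀ j, β w j ≤ N0 := by
    refine ⟨W.sup fun w => Finset.univ.sup fun j => β w j, fun w hw j => ?_⟩
    exact (Finset.le_sup (f := fun j => β w j) (Finset.mem_univ j)).trans
      (Finset.le_sup (f := fun w => Finset.univ.sup fun j => β w j) hw)
  set M := N0 + 1 with hM
  set Pu := ∏ j, u j with hPu
  set E := b2 * Pu with hE
  have hb2A : b2 ∈ A2 := (hW b2 hbW).1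
  have hPuA : Pu ∈ A2 := Subring.prod_mem _ fun j _ => hu j
  have hPu1 : V1.valuation Pu = 1 := by
    rw [hPu, map_prod]
    exact Finset.prod_eq_one fun j _ => hu1 j
  have hEA : E ∈ A2 := mul_mem hb2A hPuA
  have hE1 : V1.valuation E = 1 := by rw [hE, map_mul, hb21, hPu1, one_mul]
  have hne : ∀ {w : K}, V1.valuation w = 1 → w ≠ 0 := by
    rintro w hw rfl
    rw [map_zero] at hw
    exact zero_ne_one hw
  have hE0 : E ≠ 0 := hne hE1
  set X : Fin (r1 + h1) → K := Fin.append x p with hX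
  have hX1 : ∀ k, V1.valuation (X k) < 1 := by
    intro k
    refine Fin.addCases (fun i => ?_) (fun j => ?_) k
    · rw [hX, Fin.append_left]; exact hx1 i
    · rw [hX, Fin.append_right]; exact hp1 j
  let Y : Fin (r1 + h1) → K := fun k => X k / E ^ M
  have hYE : ∀ k, Y k * E ^ M = X k := fun k => div_mul_cancel₀ _ (pow_ne_zero _ hE0)
  have hYV1 : ∀ k, V1.valuation (Y k) = V1.valuation (X k) := by
    intro k
    show V1.valuation (X k / E ^ M) = _
    rw [map_div₀, map_pow, hE1, one_pow, div_one]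
  have hY1 : ∀ k, V1.valuation (Y k) < 1 := fun k => by rw [hYV1]; exact hX1 k
  have hYV : ∀ k, V.valuation (Y k) < 1 := fun k => C1_lt_of_lt h (hY1 k)
  set B := Subring.closure ((A2 : Set K) ∪ Set.range Y) with hB
  set A3 := locV V B with hA3
  have hAB : A2 ≤ B := fun z hz => Subring.subset_closure (Or.inl hz)
  have hYB : ∀ k, Y k ∈ B := fun k => Subring.subset_closure (Or.inr ⟨k, rfl⟩)
  have hBV : B ≤ V.toSubring := by
    rw [hB, Subring.closure_le]
    rintro z (hz | ⟨k, rfl⟩)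
    · exact hA2 hz
    · exact (V.valuation_le_one_iff _).1 (hYV k).le
  have hBA : B ≤ A3 := le_locV _ _
  have hA23 : A2 ≤ A3 := hAB.trans hBA
  have hA3V : A3 ≤ V.toSubring := locV_le _ hBV
  have hloc3 : locV V A3 = A3 := locV_locV _ _
  have hYA : ∀ k, Y k ∈ A3 := fun k => hBA (hYB k)
  have hA3V1 : ∀ z ∈ A3, z ∈ V1 := fun z hz => h (hA3V hz)
  have hsum1 : ∀ c : Fin (r1 + h1) → K, (∀ k, c k ∈ A3) → V1.valuation (∑ k, c k * Y k) < 1 :=
    fun c hc => E5_val_sum _ _ fun k _ => E5_val_mul_lt (hA3V1 _ (hc k)) (hY1 k)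
  let y : Fin r1 → K := fun i => Y (Fin.castAdd h1 i)
  let y' : Fin h1 → K := fun j => Y (Fin.natAdd r1 j)
  have hyE : ∀ i, y i * E ^ M = x i := fun i => by
    have := hYE (Fin.castAdd h1 i)
    rwa [hX, Fin.append_left] at this
  have hy'E : ∀ j, y' j * E ^ M = p j := fun j => by
    have := hYE (Fin.natAdd r1 j)
    rwa [hX, Fin.append_right] at this
  have hyV1 : ∀ i, V1.valuation (y i) = V1.valuation (x i) := fun i => by
    have := hYV1 (Fin.castAdd h1 i)
    rwa [hX, Fin.append_left] at this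
  have hy1 : ∀ i, V1.valuation (y i) < 1 := fun i => hY1 _
  have hy'1 : ∀ j, V1.valuation (y' j) < 1 := fun j => hY1 _
  have hyV : ∀ i, V.valuation (y i) < 1 := fun i => hYV _
  have hy'V : ∀ j, V.valuation (y' j) < 1 := fun j => hYV _
  have hyA : ∀ i, y i ∈ A3 := fun i => hYA _
  have hy'A : ∀ j, y' j ∈ A3 := fun j => hYA _
  have hrange : Set.range Y = Set.range y ∪ Set.range y' := by
    ext z
    constructor
    · rintro ⟨k, rfl⟩
      refine Fin.addCases (fun i => ?_) (fun j => ?_) k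
      · exact Or.inl ⟨i, rfl⟩
      · exact Or.inr ⟨j, rfl⟩
    · rintro (⟨i, rfl⟩ | ⟨j, rfl⟩)
      · exact ⟨_, rfl⟩
      · exact ⟨_, rfl⟩
  -- decomposition of the elements of `B` and of `A3`
  have hdecB : ∀ z ∈ B, ∃ a ∈ A2, ∃ c : Fin (r1 + h1) → K, (∀ i, c i ∈ B) ∧ z = a + ∑ i, c i * Y i := by
    intro z hz
    refine Subring.closure_induction
      (p := fun z _ => ∃ a ∈ A2, ∃ c : Fin (r1 + h1) → K, (∀ i, c i ∈ B) ∧ z = a + ∑ i, c i * Y i)
      ?_ ?_ ?_ ?_ ?_ ?_ hz
    · rintro z (hz | ⟨i, rfl⟩)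
      · exact ⟨z, hz, 0, fun i => B.zero_mem, by simp⟩
      · refine ⟨0, A2.zero_mem, Pi.single i 1, fun j => ?_, ?_⟩
        · by_cases hj : j = i
          · subst hj; rw [Pi.single_eq_same]; exact B.one_mem
          · rw [Pi.single_eq_of_ne hj]; exact B.zero_mem
        · rw [Finset.sum_eq_single i]
          · rw [Pi.single_eq_same, one_mul, zero_add]
          · intro j _ hj
            rw [Pi.single_eq_of_ne hj, zero_mul]
          · intro hi; exact absurd (Finset.mem_univ i) hi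
    · exact ⟨0, A2.zero_mem, 0, fun i => B.zero_mem, by simp⟩
    · exact ⟨1, A2.one_mem, 0, fun i => B.zero_mem, by simp⟩
    · rintro z w _ _ ⟨a, ha, c, hc, rfl⟩ ⟨b, hb, d, hd, rfl⟩
      refine ⟨a + b, add_mem ha hb, fun i => c i + d i, fun i => add_mem (hc i) (hd i), ?_⟩
      simp only [add_mul, Finset.sum_add_distrib]
      ring
    · rintro z _ ⟨a, ha, c, hc, rfl⟩
      refine ⟨-a, neg_mem ha, fun i => -c i, fun i => neg_mem (hc i), ?_⟩
      simp only [neg_mul, Finset.sum_neg_distrib]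
      ring
    · rintro z w hz hw ⟨a, ha, c, hc, hza⟩ ⟨b, hb, d, hd, hwb⟩
      refine ⟨a * b, mul_mem ha hb, fun i => c i * w + a * d i,
        fun i => add_mem (mul_mem (hc i) hw) (mul_mem (hAB ha) (hd i)), ?_⟩
      have h1 : ∑ i, (c i * w + a * d i) * Y i =
          (∑ i, c i * Y i) * w + a * ∑ i, d i * Y i := by
        rw [Finset.sum_mul, Finset.mul_sum, ← Finset.sum_add_distrib]
        exact Finset.sum_congr rfl fun i _ => by ring
      rw [h1]
      have h2 : ∑ i, c i * Y i = z - a := by rw [hza]; ring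
      have h3 : ∑ i, d i * Y i = w - b := by rw [hwb]; ring
      rw [h2, h3]
      ring
  have hdec3 : ∀ z ∈ A3, ∃ a ∈ A2, ∃ c : Fin (r1 + h1) → K, (∀ i, c i ∈ A3) ∧
      z = a + ∑ i, c i * Y i := by
    rintro z ⟨p, hp, q, hq, hq1, hzq⟩
    obtain ⟨ap, hap, cp, hcp, hpe⟩ := hdecB p hp
    obtain ⟨aq, haq, cq, hcq, hqe⟩ := hdecB q hq
    have haq1 : V.valuation aq = 1 := by
      have h1 : V.valuation (-∑ i, cq i * Y i) < 1 := by
        rw [Valuation.map_neg]
        exact C1_lt_of_lt h (hsum1 cq fun i => hBA (hcq i))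
      have h2 := E5_val_add hq1 h1
      have h3 : q + -∑ i, cq i * Y i = aq := by rw [hqe]; ring
      rw [h3] at h2
      exact h2
    have haq0 : aq ≠ 0 := hne (C1_val_one_of_le h haq1)
    have hq0 : q ≠ 0 := hne (C1_val_one_of_le h hq1)
    have haqi : aq⁻¹ ∈ A2 := E5_inv hloc2 haq haq1
    have hqi : q⁻¹ ∈ A3 := E5_inv hloc3 (hBA hq) hq1
    refine ⟨ap * aq⁻¹, mul_mem hap haqi,
      fun i => (cp i * aq - ap * cq i) * (q⁻¹ * aq⁻¹), fun i => ?_, ?_⟩
    · exact mul_mem (sub_mem (mul_mem (hBA (hcp i)) (hA23 haq))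
        (mul_mem (hA23 hap) (hBA (hcq i)))) (mul_mem hqi (hA23 haqi))
    · have h1 : ∑ i, (cp i * aq - ap * cq i) * (q⁻¹ * aq⁻¹) * Y i =
          ((∑ i, cp i * Y i) * aq - ap * ∑ i, cq i * Y i) * (q⁻¹ * aq⁻¹) := by
        rw [Finset.sum_mul, Finset.mul_sum, ← Finset.sum_sub_distrib, Finset.sum_mul]
        exact Finset.sum_congr rfl fun i _ => by ring
      have h2 : ∑ i, cp i * Y i = p - ap := by rw [hpe]; ring
      have h3 : ∑ i, cq i * Y i = q - aq := by rw [hqe]; ring
      rw [h1, h2, h3]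
      have h4 : z = p * q⁻¹ := by rw [← hzq, mul_assoc, mul_inv_cancel₀ hq0, mul_one]
      rw [h4]
      field_simp
      ring
  -- the elements of `A2` in the maximal ideal of `V1`
  have hP2' : ∀ a ∈ A2, V1.valuation a < 1 → ∃ c : Fin (r1 + h1) → K, (∀ i, c i ∈ A3) ∧
      a = (b2 ^ N0 * Pu ^ M) * ∑ i, c i * Y i := by
    intro a ha ha1
    obtain ⟨c, hc, hs⟩ := hP2 a ha ha1
    refine ⟨c, fun i => hA23 (hc i), ?_⟩
    have h1 : ∑ i, c i * X i = E ^ M * ∑ i, c i * Y i := by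
      rw [Finset.mul_sum]
      exact Finset.sum_congr rfl fun i _ => by rw [← hYE i]; ring
    rw [h1] at hs
    refine mul_left_cancel₀ (hne hb21) ?_
    rw [hs, hE, mul_pow, hM, pow_succ b2]
    ring
  have hmonP : ∀ γ : Fin r2 → ℕ, (∀ j, γ j ≤ M) →
      Pu ^ M = monN u γ * monN u (fun j => M - γ j) := by
    intro γ hγ
    rw [← E0_monN_add, hPu, ← Finset.prod_pow]
    unfold monN
    refine Finset.prod_congr rfl fun j _ => ?_
    rw [Pi.add_apply]
    congr 1
    have := hγ j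
    omega
  have happ : ∀ k, Fin.append y u k ∈ A3 := by
    intro k
    refine Fin.addCases (fun i => ?_) (fun j => ?_) k
    · rw [Fin.append_left]; exact hyA i
    · rw [Fin.append_right]; exact hA23 (hu j)
  have hmonu : ∀ γ : Fin r2 → ℕ, MonV V A3 (Fin.append y u) (monN u γ) := by
    intro γ
    refine ⟨1, A3.one_mem, map_one _, Fin.append 0 γ, ?_⟩
    rw [E5_append, E0_monN_zero, one_mul, one_mul]
  have hmony : ∀ γ : Fin r1 → ℕ, MonV V A3 (Fin.append y u) (monN y γ) := by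
    intro γ
    refine ⟨1, A3.one_mem, map_one _, Fin.append γ 0, ?_⟩
    rw [E5_append, E0_monN_zero, mul_one, one_mul]
  -- the elements of `W`
  have hW3 : ∀ w ∈ W, ∃ ε' ∈ A3, V.valuation ε' = 1 ∧ w = ε' * monN u (β w) := by
    intro w hw
    obtain ⟨hεA, hε1, hlt⟩ := hεβ w hw
    obtain ⟨c, hc, hs⟩ := hP2' _ (sub_mem (hW w hw).1 (mul_mem hεA (E0_monN_mem _ hu _))) hlt
    set q := b2 ^ N0 * monN u (fun j => M - β w j) * ∑ i, c i * Y i with hq
    have hqA : q ∈ A3 := mul_mem (mul_mem (pow_mem (hA23 hb2A) _)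
      (E0_monN_mem _ (fun j => hA23 (hu j)) _)) (Subring.sum_mem _ fun i _ =>
        mul_mem (hc i) (hYA i))
    have hqV : V.valuation q < 1 := by
      refine C1_lt_of_lt h (E5_val_mul_lt (hA3V1 _ ?_) (hsum1 c hc))
      exact mul_mem (pow_mem (hA23 hb2A) _) (E0_monN_mem _ (fun j => hA23 (hu j)) _)
    refine ⟨ε w + q, add_mem (hA23 hεA) hqA, E5_val_add hε1 hqV, ?_⟩
    calc w = ε w * monN u (β w) + (w - ε w * monN u (β w)) := by ring
      _ = ε w * monN u (β w) + b2 ^ N0 * (monN u (β w) * monN u (fun j => M - β w j)) *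
            ∑ i, c i * Y i := by
          rw [hs, hmonP (β w) fun j => (hN0 w hw j).trans (Nat.le_succ _)]
      _ = (ε w + q) * monN u (β w) := by rw [hq]; ring
  have hWm : ∀ w ∈ W, MonV V A3 (Fin.append y u) w := by
    intro w hw
    obtain ⟨ε', hε', h1, h2⟩ := hW3 w hw
    rw [h2]
    exact (MonV.of_unit hε' h1).mul (hmonu _)
  obtain ⟨εb, hεb, hεb1, hεbe⟩ := hW3 b2 hbW
  -- `E` is a unit times a monomial with positive exponents
  have hEe : E = εb * monN u (fun j => β b2 j + 1) := by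
    have h1 : monN u (fun j => β b2 j + 1) = monN u (β b2) * Pu := by
      have h2 : (fun j => β b2 j + 1) = β b2 + fun _ => 1 := rfl
      rw [h2, E0_monN_add]
      congr 1
      unfold monN
      rw [hPu]
      exact Finset.prod_congr rfl fun j _ => pow_one _
    rw [h1, hE]
    calc b2 * Pu = (εb * monN u (β b2)) * Pu := by rw [← hεbe]
      _ = _ := by ring
  have hEM : MonV V A3 (Fin.append y u) (E ^ M) := by
    rw [hEe]
    exact ((MonV.of_unit hεb hεb1).mul (hmonu _)).pow _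
  have hmonpow : ∀ (γ : Fin r2 → ℕ) (n : ℕ), monN u γ ^ n = monN u (fun j => γ j * n) := by
    intro γ n
    unfold monN
    rw [← Finset.prod_pow]
    exact Finset.prod_congr rfl fun j _ => (pow_mul _ _ _).symm
  have hxy : ∀ α : Fin r1 → ℕ, monN x α = monN y α * (E ^ M) ^ (∑ i, α i) := by
    intro α
    rw [← Finset.prod_pow_eq_pow_sum]
    unfold monN
    rw [← Finset.prod_mul_distrib]
    exact Finset.prod_congr rfl fun i _ => by rw [← mul_pow, hyE i]
  have hL3 : ∀ f ∈ L, MonV V A3 (Fin.append y u) f := by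
    intro f hf
    obtain ⟨hfV, w1, hw1, w2, hw2, α, hfe, hα⟩ := hL f hf
    obtain ⟨ε1, hε1, hε11, he1⟩ := hW3 w1 hw1
    obtain ⟨ε2, hε2, hε21, he2⟩ := hW3 w2 hw2
    have hε2i : ε2⁻¹ ∈ A3 := E5_inv hloc3 hε2 hε21
    have hε20 : ε2 ≠ 0 := hne (C1_val_one_of_le h hε21)
    have hε2i1 : V.valuation ε2⁻¹ = 1 := by rw [map_inv₀, hε21, inv_one]
    have hm20 : monN u (β w2) ≠ 0 := E0_monN_ne hui.ne _
    have hfe' : f * (ε2 * monN u (β w2)) = (ε1 * monN u (β w1)) * monN x α := by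
      rw [← he1, ← he2]; exact hfe
    by_cases hα0 : α = 0
    · obtain ⟨γ, hγ⟩ := hα hα0
      rw [hα0, E0_monN_zero, mul_one] at hfe'
      have h1 : V.valuation (monN u (γ + β w2)) = V.valuation (monN u (β w1)) := by
        have h2 := congrArg V.valuation hfe'
        rw [map_mul, map_mul, map_mul, hε21, hε11, one_mul, one_mul] at h2
        rw [E0_monN_add, map_mul, ← hγ]
        exact h2
      have h3 := E5_monN_inj hui h1
      have h4 : f = (ε1 * ε2⁻¹) * monN u γ := by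
        refine mul_right_cancel₀ (mul_ne_zero hε20 hm20) ?_
        rw [hfe', ← h3, E0_monN_add]
        field_simp
      rw [h4]
      exact (MonV.of_unit (mul_mem hε1 hε2i) (by rw [map_mul, hε11, hε2i1, one_mul])).mul
        (hmonu _)
    · have hα1 : 1 ≤ ∑ i, α i := by
        obtain ⟨i, hi⟩ := Function.ne_iff.1 hα0
        have h1 : 1 ≤ α i := Nat.one_le_iff_ne_zero.2 hi
        exact h1.trans (Finset.single_le_sum (f := α) (fun _ _ => Nat.zero_le _)
          (Finset.mem_univ i))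
      set n := ∑ i, α i with hn
      have h1 : (E ^ M) ^ n = εb ^ (M * n) * monN u (fun j => (β b2 j + 1) * (M * n)) := by
        rw [← pow_mul, hEe, mul_pow, hmonpow]
      have h2 : ∀ j, β w2 j ≤ (β b2 j + 1) * (M * n) := by
        intro j
        have h3 := hN0 w2 hw2 j
        have h4 : 1 * (M * 1) ≤ (β b2 j + 1) * (M * n) :=
          Nat.mul_le_mul (Nat.le_add_left 1 _) (Nat.mul_le_mul_left M hα1)
        omega
      have h3 : monN u (fun j => (β b2 j + 1) * (M * n)) =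
          monN u (β w2) * monN u (fun j => (β b2 j + 1) * (M * n) - β w2 j) := by
        rw [← E0_monN_add]
        congr 1
        funext j
        rw [Pi.add_apply]
        have := h2 j
        omega
      have h4 : f = (ε1 * ε2⁻¹ * εb ^ (M * n)) * (monN u (β w1) *
          monN u (fun j => (β b2 j + 1) * (M * n) - β w2 j) * monN y α) := by
        refine mul_right_cancel₀ (mul_ne_zero hε20 hm20) ?_
        rw [hfe', hxy, ← hn, h1, h3]
        field_simp
      rw [h4]
      refine (MonV.of_unit (mul_mem (mul_mem hε1 hε2i) (pow_mem hεb _)) ?_).mul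
        (((hmonu _).mul (hmonu _)).mul (hmony _))
      rw [map_mul, map_mul, map_pow, hε11, hε2i1, hεb1, one_pow, one_mul, one_mul]
  refine ⟨y, y', A3, by rw [hA3, hB, hrange], hy1, hy'1,
    fun i => ⟨E ^ M, pow_mem hEA _, by rw [map_pow, hE1, one_pow], hEM, hyE i⟩,
    fun j => ⟨E ^ M, pow_mem hEA _, by rw [map_pow, hE1, one_pow], hEM, hy'E j⟩,
    ?_, happ, ?_, ?_, ?_, ?_, hWm, hL3⟩
  · refine ⟨fun k => ?_, fun δ hδ => ?_⟩
    · refine Fin.addCases (fun i => ?_) (fun j => ?_) k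
      · rw [Fin.append_left]
        exact left_ne_zero_of_mul (by rw [hyE i]; exact hx.ne i)
      · rw [Fin.append_right]; exact hui.ne j
    · rw [E5_append_mon] at hδ
      have h1 : V1.valuation (mon u fun j => δ (Fin.natAdd r1 j)) = 1 := by
        unfold mon
        rw [map_prod]
        exact Finset.prod_eq_one fun j _ => by rw [map_zpow₀, hu1, one_zpow]
      have h2 := C1_val_one_of_le h hδ
      rw [map_mul, h1, mul_one] at h2
      have h3 : V1.valuation (mon x fun i => δ (Fin.castAdd r2 i)) = 1 := by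
        rw [← h2]
        unfold mon
        rw [map_prod, map_prod]
        exact Finset.prod_congr rfl fun i _ => by rw [map_zpow₀, map_zpow₀, hyV1]
      have h4 := hx.indep _ h3
      have h5 : mon y (fun i => δ (Fin.castAdd r2 i)) = 1 := by
        rw [h4]; simp [mon]
      rw [h5, one_mul] at hδ
      have h6 := hui.indep _ hδ
      funext k
      refine Fin.addCases (fun i => ?_) (fun j => ?_) k
      · exact congrFun h4 i
      · exact congrFun h6 j
  · intro k
    refine Fin.addCases (fun i => ?_) (fun j => ?_) k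
    · rw [Fin.append_left]; exact hyV i
    · rw [Fin.append_right]; exact hult j
  · intro k
    refine Fin.addCases (fun i => ?_) (fun j => ?_) k
    · rw [Fin.append_left]; exact hy'A i
    · rw [Fin.append_right]; exact hA23 (hq j)
  · intro k
    refine Fin.addCases (fun i => ?_) (fun j => ?_) k
    · rw [Fin.append_left]; exact hy'V i
    · rw [Fin.append_right]; exact hqlt j
  · intro z hz hz1
    obtain ⟨a, ha, c, hc, hze⟩ := hdec3 z hz
    have ha1 : V.valuation a < 1 := by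
      have h1 : a = z + -∑ i, c i * Y i := by rw [hze]; ring
      rw [h1]
      refine (V.valuation.map_add _ _).trans_lt (max_lt hz1 ?_)
      rw [Valuation.map_neg]
      exact C1_lt_of_lt h (hsum1 c hc)
    obtain ⟨c', d', hc', hd', hlt⟩ := hgen a ha ha1
    obtain ⟨d, hd, hde⟩ := hP2' _ (sub_mem ha (add_mem (Subring.sum_mem _ fun j _ =>
      mul_mem (hc' j) (hu j)) (Subring.sum_mem _ fun j _ => mul_mem (hd' j) (hq j)))) hlt
    refine ⟨Fin.append (fun i => c (Fin.castAdd h1 i) +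
        (b2 ^ N0 * Pu ^ M) * d (Fin.castAdd h1 i)) c',
      Fin.append (fun j => c (Fin.natAdd r1 j) +
        (b2 ^ N0 * Pu ^ M) * d (Fin.natAdd r1 j)) d', fun k => ?_, fun k => ?_, ?_⟩
    · refine Fin.addCases (fun i => ?_) (fun j => ?_) k
      · rw [Fin.append_left]
        exact add_mem (hc _) (mul_mem (mul_mem (pow_mem (hA23 hb2A) _)
          (pow_mem (hA23 hPuA) _)) (hd _))
      · rw [Fin.append_right]; exact hA23 (hc' j)
    · refine Fin.addCases (fun i => ?_) (fun j => ?_) k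
      · rw [Fin.append_left]
        exact add_mem (hc _) (mul_mem (mul_mem (pow_mem (hA23 hb2A) _)
          (pow_mem (hA23 hPuA) _)) (hd _))
      · rw [Fin.append_right]; exact hA23 (hd' j)
    · rw [Fin.sum_univ_add, Fin.sum_univ_add]
      simp only [Fin.append_left, Fin.append_right]
      have e1 : ∑ i, (c (Fin.castAdd h1 i) + (b2 ^ N0 * Pu ^ M) * d (Fin.castAdd h1 i)) * y i =
          ∑ i, c (Fin.castAdd h1 i) * y i +
            (b2 ^ N0 * Pu ^ M) * ∑ i, d (Fin.castAdd h1 i) * y i := by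
        rw [Finset.mul_sum, ← Finset.sum_add_distrib]
        exact Finset.sum_congr rfl fun i _ => by ring
      have e2 : ∑ j, (c (Fin.natAdd r1 j) + (b2 ^ N0 * Pu ^ M) * d (Fin.natAdd r1 j)) * y' j =
          ∑ j, c (Fin.natAdd r1 j) * y' j +
            (b2 ^ N0 * Pu ^ M) * ∑ j, d (Fin.natAdd r1 j) * y' j := by
        rw [Finset.mul_sum, ← Finset.sum_add_distrib]
        exact Finset.sum_congr rfl fun i _ => by ring
      have e3 : ∑ k, c k * Y k = ∑ i, c (Fin.castAdd h1 i) * y i +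
          ∑ j, c (Fin.natAdd r1 j) * y' j := Fin.sum_univ_add _
      have e4 : ∑ k, d k * Y k = ∑ i, d (Fin.castAdd h1 i) * y i +
          ∑ j, d (Fin.natAdd r1 j) * y' j := Fin.sum_univ_add _
      rw [e1, e2, hze, e3]
      rw [e4] at hde
      linear_combination hde

end TC
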