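import Pool.Agent.Lib.TC.IDefs
import Pool.Agent.Lib.MP_3029eb_ag.ImpRed

/-!
# Module TC.I1: the dimension of the ring of values after adjoining algebraic elements

PROOFS.
* `resIndep_approx`: copy of `IR_resIndep` (Pool/Agent/Lib/MP_3029eb_ag/ImpRed.lean) with the hypothesis `happ` instead
  of its first lines.
* `dim_range`: copy of `dim_reduce` (same file) with `D = φ.range`.  Changes: `A = j.range`; `AlgOver A z` gives
  `AlgOver φ.range (τ z)` (map the polynomial by `A → φ.range`, `a ↦ τ a`, which is injective); `krullDim_resIndep` and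
  `krullDim_adjoin` become `dim_alg_res` and `dim_alg` (TC.Cohen); `IR_resIndep` becomes `resIndep_approx`
  (`happ`: for `t : T` there is `c : C` with `t - ι c` in the maximal ideal, `ID_approx`); `hDE` is `IR_range_mono` with
  `ι : C → T` and `C → A → locV _ _ → T'`.
-/

open IsLocalRing

namespace TC
open Pool.Agent.Lib.MP_3029eb_ag Pool.Agent.Lib.MP_3029eb_ag.Abh
open Pool.Agent.Lib.MP_3029eb_ag.Imp (IR_sub_lt IR_range_le IR_locV_eq IR_locV_le IR_range_mono
  ID_isUnit_iff ID_lt_iff ID_approx ID_max_le ID_dim_le)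

theorem resIndep_approx {K : Type} [NormedField K] [IsUltrametricDist K] (A : Subring K)
    {L : Type} [NormedField L] [IsUltrametricDist L] (τ : K →+* L) (hτ : ∀ z, ‖τ z‖ = ‖z‖)
    (D : Subring L) (happ : ∀ d ∈ D, ∃ a ∈ A, ‖d - τ a‖ < 1) {s : ℕ} (y : Fin s → K)
    (hy : ∀ i, ‖y i‖ ≤ 1) (hres : ResIndep (ball K) A y) :
    ResIndep (ball L) D (fun i => τ (y i)) := by
  classical
  intro p hp m
  rw [ID_lt_iff] at hp ⊢
  have happ' : ∀ d : D, ∃ a : A, ‖(d : L) - τ a‖ < 1 := by
    rintro ⟨d, hd⟩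
    obtain ⟨a, ha, h⟩ := happ d hd
    exact ⟨⟨a, ha⟩, h⟩
  choose α hα using happ'
  let q : MvPolynomial (Fin s) A :=
    ∑ n ∈ p.support, MvPolynomial.monomial n (α (MvPolynomial.coeff n p))
  have hq : ∀ n ∈ p.support, MvPolynomial.coeff n q = α (MvPolynomial.coeff n p) := by
    intro n hn
    simp only [q, MvPolynomial.coeff_sum, MvPolynomial.coeff_monomial]
    rw [Finset.sum_ite_eq' p.support n, if_pos hn]
  have hqe : MvPolynomial.eval₂ A.subtype y q =
      ∑ n ∈ p.support, ((α (MvPolynomial.coeff n p) : A) : K) * ∏ i, y i ^ n i := by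
    simp only [q, MvPolynomial.eval₂_sum, MvPolynomial.eval₂_monomial]
    refine Finset.sum_congr rfl fun n _ => ?_
    rw [Finsupp.prod_fintype _ _ (fun i => pow_zero _)]
    rfl
  have heval : ‖MvPolynomial.eval₂ D.subtype (fun i => τ (y i)) p -
      τ (MvPolynomial.eval₂ A.subtype y q)‖ < 1 := by
    rw [MvPolynomial.eval₂_eq', hqe, map_sum, ← Finset.sum_sub_distrib]
    apply S12_norm_sum_lt _ _ _ zero_lt_one
    intro n _
    have h1 : D.subtype (MvPolynomial.coeff n p) * ∏ i, τ (y i) ^ n i -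
        τ (((α (MvPolynomial.coeff n p) : A) : K) * ∏ i, y i ^ n i) =
        (((MvPolynomial.coeff n p : D) : L) - τ (α (MvPolynomial.coeff n p))) *
          ∏ i, τ (y i) ^ n i := by
      rw [map_mul, map_prod]
      simp only [map_pow, Subring.subtype_apply]
      ring
    rw [h1, norm_mul]
    have h2 : ‖∏ i, τ (y i) ^ n i‖ ≤ 1 := by
      rw [norm_prod]
      refine Finset.prod_le_one (fun i _ => norm_nonneg _) fun i _ => ?_
      rw [norm_pow, hτ]
      exact pow_le_one₀ (norm_nonneg _) (hy i)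
    exact (mul_le_of_le_one_right (norm_nonneg _) h2).trans_lt (hα _)
  have h3 : ‖MvPolynomial.eval₂ A.subtype y q‖ < 1 := by
    rw [← hτ]
    have h4 := IR_sub_lt hp heval
    rwa [sub_sub_cancel] at h4
  by_cases hm : m ∈ p.support
  · have h5 := hres q ((ID_lt_iff _).2 h3) m
    rw [ID_lt_iff, hq m hm, ← hτ] at h5
    have h6 := IR_sub_lt (hα (MvPolynomial.coeff m p)) (b := -τ (α (MvPolynomial.coeff m p)))
      (by rwa [norm_neg])
    rwa [sub_neg_eq_add, sub_add_cancel] at h6
  · rw [MvPolynomial.notMem_support_iff.1 hm]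
    simp

theorem dim_range {K : Type} [NormedField K] [IsUltrametricDist K] (A : Subring K)
    (halg : ∀ z : K, AlgOver A z) {L : Type} [NontriviallyNormedField L] [IsUltrametricDist L]
    [CompleteSpace L] (τ : K →+* L) (hτ : ∀ z, ‖τ z‖ = ‖z‖)
    (C : Type) [CommRing C] [IsLocalRing C] (j : C →+* K) (hjA : j.range = A)
    (hjm : ∀ c, c ∈ maximalIdeal C ↔ ‖j c‖ < 1)
    (T : Type) [CommRing T] [IsLocalRing T] [IsNoetherianRing T] (ι : C →+* T)
    (hι : SameCompletion ι) (φ : T →+* L) (hφ : Dom φ) (hφι : ∀ c : C, φ (ι c) = τ (j c))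
    {r s : ℕ} (hdim : ringKrullDim φ.range ≤ ((r + s : ℕ) : WithBot ℕ∞))
    (y : Fin s → K) (hy : ∀ i, ‖y i‖ ≤ 1) (hres : ResIndep (ball K) A y)
    (g : Finset K) (hg : ∀ z ∈ g, ‖z‖ ≤ 1) (hyg : ∀ i, y i ∈ g)
    [IsLocalRing (locV (ball K) (Subring.closure ((A : Set K) ∪ (g : Set K))))]
    (T' : Type) [CommRing T'] [IsLocalRing T'] [IsNoetherianRing T']
    [IsAdicComplete (maximalIdeal T') T']
    (ι' : locV (ball K) (Subring.closure ((A : Set K) ∪ (g : Set K))) →+* T')
    (hι' : SameCompletion ι') (φ' : T' →+* L) (hφ' : Dom φ') (hφι' : ∀ a, φ' (ι' a) = τ a) :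
    ringKrullDim (T' ⧸ RingHom.ker φ') ≤ r := by
  classical
  have hDle := IR_range_le φ hφ
  have hDloc := IR_locV_eq φ hφ
  have hτA : ∀ a ∈ A, τ a ∈ φ.range := by
    intro a ha
    rw [← hjA] at ha
    obtain ⟨c, rfl⟩ := ha
    exact ⟨ι c, hφι c⟩
  have hfr : ∀ z : K, AlgOver φ.range (τ z) := by
    intro z
    obtain ⟨f, hf0, hf⟩ := halg z
    let κ : A →+* φ.range := (τ.comp A.subtype).codRestrict φ.range fun a => hτA a a.2
    have hκ : Function.Injective κ := by
      intro a b hab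
      have h0 : τ (a : K) = τ (b : K) := congrArg (Subtype.val : φ.range → L) hab
      exact Subtype.ext (τ.injective h0)
    refine ⟨f.map κ, ?_, ?_⟩
    · rw [Ne, Polynomial.map_eq_zero_iff hκ]
      exact hf0
    · rw [Polynomial.eval₂_map]
      have h0 : (φ.range.subtype.comp κ : A →+* L) = τ.comp A.subtype := RingHom.ext fun a => rfl
      rw [h0, ← Polynomial.hom_eval₂, hf, map_zero]
  have hdimD : ringKrullDim φ.range ≤ ((r + s : ℕ) : WithBot ℕ∞) := hdim
  have happ : ∀ d ∈ φ.range, ∃ a ∈ A, ‖d - τ a‖ < 1 := by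
    rintro _ ⟨t, rfl⟩
    obtain ⟨c, hc⟩ := ID_approx ι hι t
    refine ⟨j c, hjA ▸ ⟨c, rfl⟩, ?_⟩
    have h1 : t - ι c ∈ maximalIdeal T := (Ideal.map_le_iff_le_comap.2 hι.map_mem) hc
    have h2 := ((hφ _).2).1 h1
    rwa [map_sub, hφι] at h2
  have hyV : ∀ i, τ (y i) ∈ ball L := fun i => by rw [mem_ball, hτ]; exact hy i
  have h1 := dim_alg_res (ball L) φ.range hDle hDloc (fun i => τ (y i))
    (fun i => ⟨hyV i, hfr (y i)⟩) (resIndep_approx A τ hτ φ.range happ y hy hres)
  set B1 := Subring.closure ((φ.range : Set L) ∪ Set.range fun i => τ (y i)) with hB1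
  have hB1V : B1 ≤ (ball L).toSubring :=
    A2_closure_le (ball L) hDle (by rintro _ ⟨i, rfl⟩; exact hyV i)
  have hB1n : IsNoetherianRing B1 := by
    have e : (((Finset.univ : Finset (Fin s)).image (fun i => τ (y i)) : Finset L) :
        Set L) = Set.range (fun i => τ (y i)) := by
      rw [Finset.coe_image, Finset.coe_univ, Set.image_univ]
    rw [hB1, ← e]
    exact isNoetherianRing_closure _
  have hD1n : IsNoetherianRing (locV (ball L) B1) := isNoetherianRing_locV _
  have hDB1 : φ.range ≤ locV (ball L) B1 := le_trans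
    (fun a ha => Subring.subset_closure (Or.inl ha)) (le_locV _ B1)
  have h2 := dim_alg (ball L) (locV (ball L) B1) (locV_le _ hB1V) (locV_locV _ _)
    (g.image τ) (fun t ht => by
      obtain ⟨z, hz, rfl⟩ := Finset.mem_image.1 ht
      exact ⟨by rw [mem_ball, hτ]; exact hg z hz, (hfr z).mono hDB1⟩)
  have hun : (Set.range fun i => τ (y i)) ∪ ((g.image τ : Finset L) : Set L) =
      ((g.image τ : Finset L) : Set L) := by
    apply Set.union_eq_self_of_subset_left
    rintro _ ⟨i, rfl⟩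
    exact Finset.mem_coe.2 (Finset.mem_image_of_mem τ (hyg i))
  rw [locV_closure_locV le_rfl B1 _, hB1, A2_closure_closure, hun, ← hB1] at h2
  set B2 := Subring.closure ((φ.range : Set L) ∪ ((g.image τ : Finset L) : Set L)) with hB2
  have h3 : ringKrullDim (locV (ball L) B2) ≤ (r : WithBot ℕ∞) := by
    have h4 : ringKrullDim (locV (ball L) B2) + (s : WithBot ℕ∞) ≤
        (r : WithBot ℕ∞) + (s : WithBot ℕ∞) := by
      calc ringKrullDim (locV (ball L) B2) + (s : WithBot ℕ∞)
          ≤ ringKrullDim (locV (ball L) B1) + (s : WithBot ℕ∞) := by gcongr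
        _ ≤ ringKrullDim φ.range := h1
        _ ≤ _ := by exact_mod_cast hdimD
    exact (ENat.WithBot.add_le_add_natCast_right_iff).1 h4
  -- the second part
  have hB2V : B2 ≤ (ball L).toSubring := A2_closure_le (ball L) hDle (by
    intro t ht
    obtain ⟨z, hz, rfl⟩ := Finset.mem_image.1 (Finset.mem_coe.1 ht)
    rw [mem_ball, hτ]; exact hg z hz)
  have hB2n : IsNoetherianRing B2 := isNoetherianRing_closure _
  have hD2n : IsNoetherianRing (locV (ball L) B2) := isNoetherianRing_locV _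
  have hD2l : IsLocalRing (locV (ball L) B2) := isLocalRing_locV _ hB2V
  have hEl : IsLocalRing φ'.range :=
    IsLocalRing.of_surjective' φ'.rangeRestrict φ'.rangeRestrict_surjective
  have hAB : A ≤ locV (ball K) (Subring.closure ((A : Set K) ∪ (g : Set K))) :=
    fun a ha => le_locV _ _ (Subring.subset_closure (Or.inl ha))
  have hgB : ∀ z ∈ g, z ∈ locV (ball K) (Subring.closure ((A : Set K) ∪ (g : Set K))) :=
    fun z hz => le_locV _ _ (Subring.subset_closure (Or.inr hz))
  have hτB2 : ∀ z ∈ Subring.closure ((A : Set K) ∪ (g : Set K)), τ z ∈ B2 := by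
    intro z hz
    have e : Subring.closure ((A : Set K) ∪ (g : Set K)) ≤ B2.comap τ := by
      rw [Subring.closure_le]
      rintro w (hw | hw)
      · exact Subring.subset_closure (Or.inl (hτA w hw))
      · exact Subring.subset_closure (Or.inr (Finset.mem_coe.2 (Finset.mem_image_of_mem τ hw)))
    exact e hz
  have hτD2 : ∀ z ∈ locV (ball K) (Subring.closure ((A : Set K) ∪ (g : Set K))),
      τ z ∈ locV (ball L) B2 := by
    rintro z ⟨a, ha, b, hb, hb1, hz⟩
    refine ⟨τ a, hτB2 a ha, τ b, hτB2 b hb, ?_, by rw [← map_mul, hz]⟩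
    rw [J7_val_one_iff, hτ]
    exact (J7_val_one_iff b).1 hb1
  have hDE : φ.range ≤ φ'.range := by
    have hjmem : ∀ c : C, j c ∈ A := fun c => hjA ▸ ⟨c, rfl⟩
    let jA : C →+* A := j.codRestrict A hjmem
    refine IR_range_mono ι hι (ι'.comp ((Subring.inclusion hAB).comp jA)) ?_ φ hφ φ' hφ' ?_
    · intro a ha
      refine ((hφ' _).2).2 ?_
      rw [RingHom.comp_apply, hφι']
      show ‖τ (j a)‖ < 1
      rw [hτ]
      exact (hjm a).1 ha
    · intro a
      rw [hφι, RingHom.comp_apply, hφι']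
      rfl
  have hB2E : B2 ≤ φ'.range := by
    rw [hB2, Subring.closure_le]
    rintro w (hw | hw)
    · exact hDE hw
    · obtain ⟨z, hz, rfl⟩ := Finset.mem_image.1 (Finset.mem_coe.1 hw)
      exact ⟨ι' ⟨z, hgB z hz⟩, hφι' _⟩
  have hD2E : locV (ball L) B2 ≤ φ'.range := IR_locV_le φ' hφ' hB2E
  have hmemD2 : ∀ x : locV (ball L) B2, x ∈ maximalIdeal (locV (ball L) B2) ↔ ‖(x : L)‖ < 1 := by
    intro x
    rw [A2_mem_maximalIdeal (ball L) (locV_le _ hB2V) (locV_locV _ _), ID_lt_iff]
  have hmemE : ∀ x : φ'.range, x ∈ maximalIdeal φ'.range ↔ ‖(x : L)‖ < 1 := by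
    intro x
    rw [A2_mem_maximalIdeal (ball L) (IR_range_le φ' hφ') (IR_locV_eq φ' hφ'), ID_lt_iff]
  have hmap : (maximalIdeal (locV (ball L) B2)).map (Subring.inclusion hD2E) =
      maximalIdeal φ'.range := by
    apply le_antisymm
    · rw [Ideal.map_le_iff_le_comap]
      intro x hx
      rw [Ideal.mem_comap, hmemE]
      exact (hmemD2 x).1 hx
    · rintro ⟨_, t', rfl⟩ ht
      have h5 : t' ∈ maximalIdeal T' := ((hφ' t').2).2 ((hmemE _).1 ht)
      have h6 := Ideal.mem_map_of_mem φ'.rangeRestrict (ID_max_le ι' hι' h5)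
      rw [Ideal.map_map] at h6
      have h7 : (maximalIdeal (locV (ball K) (Subring.closure ((A : Set K) ∪ (g : Set K))))).map
          (φ'.rangeRestrict.comp ι') ≤
          (maximalIdeal (locV (ball L) B2)).map (Subring.inclusion hD2E) := by
        rw [Ideal.map_le_iff_le_comap]
        intro a ha
        have h8 : (⟨τ a, hτD2 a a.2⟩ : locV (ball L) B2) ∈ maximalIdeal (locV (ball L) B2) := by
          rw [hmemD2]
          show ‖τ (a : K)‖ < 1
          rw [← hφι']
          exact ((hφ' _).2).1 (hι'.map_mem a ha)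
        have h9 := Ideal.mem_map_of_mem (Subring.inclusion hD2E) h8
        have h10 : (φ'.rangeRestrict.comp ι') a =
            Subring.inclusion hD2E ⟨τ a, hτD2 a a.2⟩ := Subtype.ext (hφι' a)
        rw [Ideal.mem_comap, h10]
        exact h9
      exact h7 h6
  have h11 := ID_dim_le (Subring.inclusion hD2E) hmap
  rw [ringKrullDim_eq_of_ringEquiv (RingHom.quotientKerEquivRange φ')]
  exact h11.trans h3

end TC
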