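import Pool.Agent.Lib.TC.Cohen

/-!
# Steps with the implicit prime: definitions
-/

open IsLocalRing

namespace TC
open Pool.Agent.Lib.MP_3029eb_ag Pool.Agent.Lib.MP_3029eb_ag.Abh

/-- For a homomorphism `j` from the local ring `C` to the field `L`: the ideal `I` of the completion
of `C` is contained in all ideals generated by the elements of `C` of value at least the value of
some `d` with `j d ≠ 0`. -/
def Impl {L C : Type} [Field L] [CommRing C] [IsLocalRing C] (W : ValuationSubring L)
    (j : C →+* L) (I : Ideal (AdicCompletion (maximalIdeal C) C)) : Prop :=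
  ∀ d : C, j d ≠ 0 → I ≤ Ideal.span (algebraMap C (AdicCompletion (maximalIdeal C) C) ''
    {a : C | W.valuation (j a) ≤ W.valuation (j d)})

/-- The residual valuation of `V` on the residue field of `V1` has rank one and is an Abhyankar
valuation over the completion of the image of the ring `A0` modulo the implicit ideal. -/
structure IStep {K : Type} [Field K] (V1 V : ValuationSubring K) (A0 : Subring K)
    [IsLocalRing A0] {r s : ℕ} (x : Fin r → K) (y : Fin s → K)
    (I : Ideal (AdicCompletion (maximalIdeal A0) A0)) : Prop where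
  le : V ≤ V1
  sub : A0 ≤ V.toSubring
  loc : locV V A0 = A0
  alg : ∀ z : K, z ∈ V1 → ∃ f : Polynomial A0, (∃ n, V1.valuation ((f.coeff n : A0) : K) = 1) ∧
    V1.valuation (Polynomial.eval₂ A0.subtype z f) < 1
  pos : 0 < r
  arch : ∀ a b : K, V1.valuation a = 1 → V1.valuation b = 1 → V.valuation b < 1 →
    ∃ n : ℕ, V.valuation (b ^ n) ≤ V.valuation a
  one : ∀ i, V1.valuation (x i) = 1
  ind : ∀ δ : Fin r → ℤ, V.valuation (mon x δ) = 1 → δ = 0
  ymem : ∀ j, y j ∈ V
  yind : ResIndep V A0 y
  impl : ∀ d : A0, V1.valuation (d : K) = 1 →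
    I ≤ Ideal.span (algebraMap A0 (AdicCompletion (maximalIdeal A0) A0) ''
      {a : A0 | V.valuation (a : K) ≤ V.valuation (d : K)})
  dim : ringKrullDim (AdicCompletion (maximalIdeal A0) A0 ⧸ I) ≤ ((r + s : ℕ) : WithBot ℕ∞)

end TC
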