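import Pool.Agent.Lib.TC.Defs
import Pool.Agent.Lib.TS.Defs

/-!
# Module TC.Restr: restriction to the fraction field of a local ring essentially of finite type over k

PROOF.  `exists_restrict V B hB hloc` (AbhC5.lean) gives `L0, φ, V0, B0, e : B ≃+* B0`.  Put
`f0 = (e : B →+* B0).comp f` (`EFT_comp_surjective`) and `Algebra k L0 := (B0.subtype.comp f0).toAlgebra`; `φ` becomes a
homomorphism of `k`-algebras: `φ (f0 c) = f c = algebraMap k L c` (`he`, `hfk`).  `B0.map φ = B` as in the proof of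
`embAt` (AbhE11.lean).  `x0` from `hxB` and `hsurj`.
`ResFG V0 hk0 s`: the homomorphism `V0 → V` induced by `φ` is local (`hV0u`), hence gives
`ResidueField V0 → ResidueField V` (`ResidueField.map`), injective as a homomorphism of fields and surjective by
`hres` (an element `w` of `V` has the residue of some `a ∈ B`, and `a = φ (e a)`, `e a ∈ B0 ≤ V0`), compatible with
`resMap`; transport `EssFiniteType` and `trdeg` along this isomorphism.
`Algebra.trdeg k L0 = t`: `z i = φ (z0 i)` (`hzB`, `hsurj`), `z0` is algebraically independent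
(`AlgebraicIndependent.of_comp`/`of_ringHom..`; `φ ∘ z0 = z`), so `t ≤ trdeg k L0`
(`AlgebraicIndependent.lift_cardinalMk_le_trdeg` or `cardinalMk_le_trdeg`), and `trdeg k L0 ≤ trdeg k L` because `φ` is
injective (`Algebra.lift_trdeg_le_of_injective` / `trdeg_le_of_injective`).
-/

open IsLocalRing

namespace TC
open Pool.Agent.Lib.MP_3029eb_ag Pool.Agent.Lib.MP_3029eb_ag.Abh

private theorem resFG_transport {k K K' : Type} [Field k] [Field K] [Field K'] [Algebra k K]
    [Algebra k K'] (V : ValuationSubring K) (V' : ValuationSubring K')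
    (h : ∀ c : k, algebraMap k K c ∈ V) (h' : ∀ c : k, algebraMap k K' c ∈ V') (ψ : V' →+* V)
    [IsLocalHom ψ] (hsurj : ∀ v : V, ∃ v' : V', residue V (ψ v') = residue V v)
    (hcomm : ∀ c : k, ((ψ ⟨algebraMap k K' c, h' c⟩ : V) : K) = algebraMap k K c) {s : ℕ}
    (hs : TA.ResFG V h s) : TA.ResFG V' h' s := by
  let m : ResidueField V' →+* ResidueField V := ResidueField.map ψ
  have hb : Function.Bijective m := by
    refine ⟨m.injective, fun z => ?_⟩
    obtain ⟨v, rfl⟩ := residue_surjective z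
    obtain ⟨v', hv'⟩ := hsurj v
    exact ⟨residue V' v', hv'⟩
  let e : ResidueField V' ≃+* ResidueField V := RingEquiv.ofBijective m hb
  have hc : ∀ c : k, e (TA.resMap V' h' c) = TA.resMap V h c := by
    intro c
    show ResidueField.map ψ (residue V' ⟨algebraMap k K' c, h' c⟩) =
      residue V ⟨algebraMap k K c, h c⟩
    rw [ResidueField.map_residue]
    congr 1
    exact Subtype.ext (hcomm c)
  refine ⟨?_, ?_⟩
  · have h1 : EFT (TA.resMap V h) := hs.fg
    have h2 := EFT_comp_surjective (TA.resMap V h)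
      (e.symm : ResidueField V →+* ResidueField V') h1 e.symm.surjective
    have h3 : (e.symm : ResidueField V →+* ResidueField V').comp (TA.resMap V h) =
        TA.resMap V' h' := by
      ext c
      show e.symm (TA.resMap V h c) = TA.resMap V' h' c
      rw [← hc, e.symm_apply_apply]
    rw [h3] at h2
    exact h2
  · letI i1 := (TA.resMap V' h').toAlgebra
    letI i2 := (TA.resMap V h).toAlgebra
    have h1 : Algebra.trdeg k (ResidueField V) = (s : Cardinal) := hs.tr
    let E : ResidueField V' ≃ₐ[k] ResidueField V := AlgEquiv.ofRingEquiv (f := e) hc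
    show Algebra.trdeg k (ResidueField V') = (s : Cardinal)
    rw [E.trdeg_eq, h1]

theorem restrict_data {k L : Type} [Field k] [Field L] [Algebra k L] (V : ValuationSubring L)
    (hk : ∀ c : k, algebraMap k L c ∈ V) (B : Subring L) (hB : B ≤ V.toSubring)
    (hloc : locV V B = B) (f : k →+* B) (hfk : ∀ c, (f c : L) = algebraMap k L c) (hf : EFT f)
    {r s t : ℕ} (x : Fin r → L) (hxB : ∀ i, ∃ a ∈ B, ∃ b ∈ B, b ≠ 0 ∧ x i * b = a)
    (hs : TA.ResFG V hk s) (hres : ∀ w ∈ V, ∃ a ∈ B, V.valuation (w - a) < 1)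
    (z : Fin t → L) (hz : AlgebraicIndependent k z)
    (hzB : ∀ i, ∃ a ∈ B, ∃ b ∈ B, b ≠ 0 ∧ z i * b = a)
    (htr : Algebra.trdeg k L = ((t : ℕ) : Cardinal)) :
    ∃ (L0 : Type) (_ : Field L0) (_ : Algebra k L0) (φ : L0 →ₐ[k] L) (V0 : ValuationSubring L0)
      (hk0 : ∀ c : k, algebraMap k L0 c ∈ V0) (B0 : Subring L0) (f0 : k →+* B0) (x0 : Fin r → L0),
      (∀ z, z ∈ V0 ↔ φ z ∈ V) ∧ (∀ z, V0.valuation z = 1 ↔ V.valuation (φ z) = 1) ∧
      B0.map (φ : L0 →+* L) = B ∧ (∀ z : L0, ∃ a ∈ B0, ∃ b ∈ B0, b ≠ 0 ∧ z * b = a) ∧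
      (∀ z : L, (∃ a ∈ B, ∃ b ∈ B, b ≠ 0 ∧ z * b = a) → ∃ z0, φ z0 = z) ∧
      B0 ≤ V0.toSubring ∧ locV V0 B0 = B0 ∧ (∀ c, (f0 c : L0) = algebraMap k L0 c) ∧ EFT f0 ∧
      (∀ i, φ (x0 i) = x i) ∧ TA.ResFG V0 hk0 s ∧
      Algebra.trdeg k L0 = ((t : ℕ) : Cardinal) := by
  have nB : IsNoetherianRing B := hf.isNoetherianRing
  obtain ⟨L0, iL0, φ, V0, B0, e, hV0, hV0u, he, hfrac, hsurj, hB0, hloc0, -⟩ :=
    exists_restrict V B hB hloc
  have hmap : B0.map φ = B := by
    ext z
    constructor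
    · rintro ⟨a, ha, rfl⟩
      obtain ⟨a', ha'⟩ := e.surjective ⟨a, ha⟩
      have h1 := he a'
      rw [ha'] at h1
      rw [h1]
      exact a'.2
    · intro hz
      exact ⟨_, (e ⟨z, hz⟩).2, he ⟨z, hz⟩⟩
  let f0 : k →+* B0 := (e : B →+* B0).comp f
  letI iA : Algebra k L0 := (B0.subtype.comp f0).toAlgebra
  have hφ : ∀ c : k, φ (algebraMap k L0 c) = algebraMap k L c := by
    intro c
    show φ ((e (f c) : B0) : L0) = algebraMap k L c
    rw [he, hfk]
  let φ' : L0 →ₐ[k] L := { φ with commutes' := hφ }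
  have hφ' : ∀ z, φ' z = φ z := fun z => rfl
  have hk0 : ∀ c : k, algebraMap k L0 c ∈ V0 := fun c => hB0 (f0 c).2
  choose x0 hx0 using fun i => hsurj (x i) (hxB i)
  choose z0 hz0 using fun i => hsurj (z i) (hzB i)
  refine ⟨L0, iL0, iA, φ', V0, hk0, B0, f0, x0, hV0, hV0u, ?_, hfrac, hsurj, hB0, hloc0,
    fun c => rfl, EFT_comp_surjective f (e : B →+* B0) hf e.surjective, hx0, ?_, ?_⟩
  · have h1 : (φ' : L0 →+* L) = φ := rfl
    rw [h1]
    exact hmap
  · let ψ : V0 →+* V := (φ.comp V0.subtype).codRestrict V.toSubring fun v => (hV0 v).1 v.2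
    have hψ : ∀ v : V0, ((ψ v : V) : L) = φ v := fun v => rfl
    have : IsLocalHom ψ := by
      refine ⟨fun v hv => ?_⟩
      rw [ValuationSubring.valuation_eq_one_iff] at hv ⊢
      rw [hV0u]
      exact hv
    refine resFG_transport V V0 hk hk0 ψ (fun v => ?_) (fun c => hφ c) hs
    obtain ⟨a, ha, hva⟩ := hres v v.2
    refine ⟨⟨(e ⟨a, ha⟩ : B0), hB0 (e ⟨a, ha⟩).2⟩, ?_⟩
    have h1 : ψ ⟨(e ⟨a, ha⟩ : B0), hB0 (e ⟨a, ha⟩).2⟩ = ⟨a, hB ha⟩ :=
      Subtype.ext (he ⟨a, ha⟩)
    rw [h1, eq_comm, ← sub_eq_zero, ← map_sub, residue_eq_zero_iff]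
    exact (ValuationSubring.valuation_lt_one_iff V _).2 hva
  · apply le_antisymm
    · have h1 := trdeg_le_of_injective φ' φ.injective
      rw [htr] at h1
      exact h1
    · have h2 : AlgebraicIndependent k z0 := by
        have h3 : z = φ' ∘ z0 := funext fun i => (hz0 i).symm
        rw [h3] at hz
        exact hz.of_comp φ'
      have h3 := h2.cardinalMk_le_trdeg
      simpa using h3

end TC
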