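import Pool.Agent.Lib.TC.Conv
import Pool.Agent.Lib.TC.Trans
import Pool.Agent.Lib.TC.Restr
import Pool.Agent.Lib.TDO.Main

/-!
# Module TC.PieceE: the rank one theorem with residue field k

PROOF: as `emb3_T0` and `emb3_T` in TC.PieceT, with `Pool.Agent.Lib.TDO.main_emb` in place of `TA.ta_val`:
`s = 0`; `hres' : ∀ z ∈ V, ∃ c : k, V.valuation (z - algebraMap k L c) < 1` is a hypothesis here; `hRm`: an element of
`B` is in the maximal ideal of `B` iff its value is `< 1` (`A2_isLocal`, `A2_mem_maximalIdeal` in AbhA2.lean, from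
`locV V B = B`).  `hrank` passes to `L0` because `φ (mon z m) = mon (φ ∘ z) m` (`map_monF`).
For `restrict_data` use `hres : ∀ w ∈ V, ∃ a ∈ B, _` with `a = f c`, and `TA.ResFG V hk 0` (`res_zero`): the residue
map `k → ResidueField V` is bijective, so `Algebra.EssFiniteType` and `trdeg = 0`
(`Algebra.EssFiniteType.of_surjective`, `Algebra.trdeg_eq_zero` of an algebraic extension / integral by surjectivity).
-/

open IsLocalRing

namespace TC
open Pool.Agent.Lib.MP_3029eb_ag Pool.Agent.Lib.MP_3029eb_ag.Abh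

theorem res_zero {k L : Type} [Field k] [Field L] [Algebra k L] (V : ValuationSubring L)
    (hk : ∀ c : k, algebraMap k L c ∈ V)
    (hres : ∀ z ∈ V, ∃ c : k, V.valuation (z - algebraMap k L c) < 1) : TA.ResFG V hk 0 := by
  have hsurj : Function.Surjective (TA.resMap V hk) := by
    intro w
    obtain ⟨⟨z, hz⟩, rfl⟩ := IsLocalRing.residue_surjective w
    obtain ⟨c, hc⟩ := hres z hz
    refine ⟨c, ?_⟩
    have h1 : (⟨z, hz⟩ : V) - ⟨algebraMap k L c, hk c⟩ ∈ maximalIdeal V := by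
      rw [V.valuation_lt_one_iff]
      exact hc
    symm
    rw [← sub_eq_zero]
    show residue V ⟨z, hz⟩ - residue V ⟨algebraMap k L c, hk c⟩ = 0
    rw [← map_sub, residue_eq_zero_iff]
    exact h1
  let _ := (TA.resMap V hk).toAlgebra
  have h1 : Algebra.IsIntegral k (ResidueField V) :=
    Algebra.isIntegral_of_surjective (R := k) (B := ResidueField V) hsurj
  refine ⟨?_, ?_⟩
  · exact Algebra.EssFiniteType.of_surjective (Algebra.ofId k (ResidueField V)) hsurj
  · have h2 : Algebra.IsAlgebraic k (ResidueField V) := inferInstance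
    rw [Nat.cast_zero]
    exact trdeg_eq_zero

private theorem isFractionRing_sub {L : Type} [Field L] (B : Subring L)
    (hfrac : ∀ z : L, ∃ a ∈ B, ∃ b ∈ B, b ≠ 0 ∧ z * b = a) : IsFractionRing B L :=
  { map_units := fun y => by
      have h1 : ((y : B) : L) ≠ 0 := by
        intro h
        exact nonZeroDivisors.ne_zero y.2 (Subtype.ext h)
      exact IsUnit.mk0 _ h1
    surj := fun z => by
      obtain ⟨a, ha, b, hb, hb0, h⟩ := hfrac z
      exact ⟨(⟨a, ha⟩, ⟨⟨b, hb⟩, mem_nonZeroDivisors_of_ne_zero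
        (fun h => hb0 (congrArg Subtype.val h))⟩), h⟩
    exists_of_eq := fun {x y} h => ⟨1, by rw [Subtype.ext h]⟩ }

theorem emb3_E0 {k L : Type} [Field k] [IsAlgClosed k] [Field L] [Algebra k L] {p : ℕ}
    [Fact p.Prime] [CharP k p] (V : ValuationSubring L)
    (harch : ∀ a b : L, a ≠ 0 → V.valuation b < 1 →
      ∃ n : ℕ, V.valuation (b ^ n) ≤ V.valuation a)
    (hres : ∀ z ∈ V, ∃ c : k, V.valuation (z - algebraMap k L c) < 1)
    {r : ℕ} (hr : 0 < r) (x : Fin r → L) (hx : IndV V x)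
    (hrank : ∀ z : Fin (r + 1) → L, (∀ i, z i ≠ 0) →
      ∃ m : Fin (r + 1) → ℤ, m ≠ 0 ∧ V.valuation (mon z m) = 1)
    (htr : Algebra.trdeg k L = ((r + 1 : ℕ) : Cardinal))
    (B : Subring L) (hB : B ≤ V.toSubring) (hloc : locV V B = B) (f : k →+* B)
    (hfk : ∀ c, (f c : L) = algebraMap k L c) (hf : EFT f)
    (hfrac : ∀ z : L, ∃ a ∈ B, ∃ b ∈ B, b ≠ 0 ∧ z * b = a) : EMB3 V B r := by
  let _ : Algebra k B := f.toAlgebra
  have _ : Algebra.EssFiniteType k B := hf
  have _ : IsScalarTower k B L := IsScalarTower.of_algebraMap_eq fun c => (hfk c).symm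
  have _ : IsFractionRing B L := isFractionRing_sub B hfrac
  have _ : IsLocalRing B := A2_isLocal V hB hloc
  have h := Pool.Agent.Lib.TDO.main_emb p k B L V harch (fun a => hB a.2)
    (fun a => A2_mem_maximalIdeal V hB hloc a) hres r hr htr x hx.ne hx.indep hrank
  have hrange : (algebraMap B L).range = B := by
    ext z
    constructor
    · rintro ⟨a, rfl⟩
      exact a.2
    · intro hz
      exact ⟨⟨z, hz⟩, rfl⟩
  rw [hrange] at h
  exact EMB3_of_EMB2 h

theorem emb3_E {k L : Type} [Field k] [IsAlgClosed k] [Field L] [Algebra k L] {p : ℕ}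
    [Fact p.Prime] [CharP k p] (V : ValuationSubring L)
    (harch : ∀ a b : L, a ≠ 0 → V.valuation b < 1 →
      ∃ n : ℕ, V.valuation (b ^ n) ≤ V.valuation a)
    (hk : ∀ c : k, algebraMap k L c ∈ V)
    (hres : ∀ z ∈ V, ∃ c : k, V.valuation (z - algebraMap k L c) < 1)
    {r : ℕ} (hr : 0 < r) (x : Fin r → L) (hx : IndV V x)
    (hrank : ∀ z : Fin (r + 1) → L, (∀ i, z i ≠ 0) →
      ∃ m : Fin (r + 1) → ℤ, m ≠ 0 ∧ V.valuation (mon z m) = 1)
    (htr : Algebra.trdeg k L = ((r + 1 : ℕ) : Cardinal))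
    (B : Subring L) (hB : B ≤ V.toSubring) (hloc : locV V B = B) (f : k →+* B)
    (hfk : ∀ c, (f c : L) = algebraMap k L c) (hf : EFT f)
    (hxB : ∀ i, ∃ a ∈ B, ∃ b ∈ B, b ≠ 0 ∧ x i * b = a)
    (z : Fin (r + 1) → L) (hz : AlgebraicIndependent k z)
    (hzB : ∀ i, ∃ a ∈ B, ∃ b ∈ B, b ≠ 0 ∧ z i * b = a) : EMB3 V B r := by
  have hresB : ∀ w ∈ V, ∃ a ∈ B, V.valuation (w - a) < 1 := by
    intro w hw
    obtain ⟨c, hc⟩ := hres w hw
    exact ⟨f c, (f c).2, by rw [hfk]; exact hc⟩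
  obtain ⟨L0, _, _, φ, V0, -, B0, f0, x0, hV0, hV0u, hmap, hfrac0, hsurj0, hB0, hloc0, hf0k,
    hf0, hx0, -, htr0⟩ := restrict_data V hk B hB hloc f hfk hf x hxB (res_zero V hk hres)
      hresB z hz hzB htr
  have hinj : Function.Injective φ := φ.toRingHom.injective
  have hlt : ∀ z, V0.valuation z < 1 ↔ V.valuation (φ z) < 1 := by
    intro z
    constructor
    · intro h1
      have h2 : φ z ∈ V := (hV0 z).1 ((V0.valuation_le_one_iff z).1 h1.le)
      exact lt_of_le_of_ne ((V.valuation_le_one_iff _).2 h2) fun h3 => h1.ne ((hV0u z).2 h3)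
    · intro h1
      have h2 : z ∈ V0 := (hV0 z).2 ((V.valuation_le_one_iff _).1 h1.le)
      exact lt_of_le_of_ne ((V0.valuation_le_one_iff _).2 h2) fun h3 => h1.ne ((hV0u z).1 h3)
  have hle : ∀ u w : L0, w ≠ 0 →
      (V0.valuation u ≤ V0.valuation w ↔ V.valuation (φ u) ≤ V.valuation (φ w)) := by
    intro u w hw
    have hw' : φ w ≠ 0 := fun h => hw (hinj (by rw [h, map_zero]))
    have h1 : (0 : V0.ValueGroup) < V0.valuation w := zero_lt_iff.2 ((V0.valuation.ne_zero_iff).2 hw)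
    have h2 : (0 : V.ValueGroup) < V.valuation (φ w) :=
      zero_lt_iff.2 ((V.valuation.ne_zero_iff).2 hw')
    rw [← div_le_one₀ h1, ← div_le_one₀ h2, ← map_div₀, ← map_div₀, V0.valuation_le_one_iff,
      V.valuation_le_one_iff, hV0, map_div₀]
  refine EMB3_map (φ : L0 →+* L) V V0 hV0 hV0u B B0 hmap hfrac0 hsurj0 ?_
  refine emb3_E0 (p := p) V0 ?_ ?_ hr x0 ?_ ?_ htr0 B0 hB0 hloc0 f0 hf0k hf0 hfrac0
  · intro a b ha hb
    have ha' : φ a ≠ 0 := fun h => ha (hinj (by rw [h, map_zero]))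
    obtain ⟨n, hn⟩ := harch (φ a) (φ b) ha' ((hlt b).1 hb)
    refine ⟨n, ?_⟩
    rw [hle _ _ ha, map_pow]
    exact hn
  · intro w hw
    obtain ⟨c, hc⟩ := hres (φ w) ((hV0 w).1 hw)
    refine ⟨c, ?_⟩
    rw [hlt, map_sub, AlgHom.commutes]
    exact hc
  · refine ⟨fun i h => hx.ne i (by rw [← hx0, h, map_zero]), fun δ hδ => hx.indep δ ?_⟩
    rw [hV0u] at hδ
    have h1 := map_monF (φ : L0 →+* L) x0 δ
    have h2 : (fun i => (φ : L0 →+* L) (x0 i)) = x := funext fun i => hx0 i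
    rw [h2] at h1
    rw [← h1]
    exact hδ
  · intro w hw
    obtain ⟨m, hm, h1⟩ := hrank (fun i => φ (w i)) fun i h => hw i (hinj (by rw [h, map_zero]))
    refine ⟨m, hm, ?_⟩
    rw [hV0u]
    have h2 := map_monF (φ : L0 →+* L) w m
    show V.valuation ((φ : L0 →+* L) (mon w m)) = 1
    rw [h2]
    exact h1

end TC
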