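import Pool.Agent.Lib.TC.Conv
import Pool.Agent.Lib.TC.Trans
import Pool.Agent.Lib.TC.Restr
import Pool.Agent.Lib.TS.Fin

/-!
# Module TC.PieceT: the rank one theorem with free value group

PROOFS.
* `emb3_T0`: `TA.ta_val (R := ↥B) (k := k) (K := L)` with `Algebra ↥B L` (subring), `IsFractionRing ↥B L` from
  `hfrac`, `Algebra k ↥B := f.toAlgebra`, `Algebra.EssFiniteType k ↥B` by definition of `EFT`,
  `IsScalarTower k ↥B L` (`IsScalarTower.of_algebraMap_eq`, `hfk`).  The result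
  `Imp.EMB2 V (algebraMap ↥B L).range r 1` is `EMB2 V B r 1` because the range is `B`; `EMB3_of_EMB2`.
  (`mon x m` is `∏ i, x i ^ m i` by definition.)
* `emb3_T`: `restrict_data` and `EMB3_map` reduce to `L0, V0, B0`, and `emb3_T0` applies:
  - `harch`: for `a, b : L0`: `V0.valuation (b ^ n) ≤ V0.valuation a` iff `b ^ n / a ∈ V0` iff
    `φ b ^ n / φ a ∈ V`; `V0.valuation b < 1` iff `V.valuation (φ b) < 1` (as `hlt` in the proof of `EMB_map`,
    AbhE10.lean);
  - independence and generation: `φ (mon x0 δ) = mon x δ` (`map_monF`), `V.valuation (φ z) = V.valuation (mon x δ)`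
    gives `V.valuation (φ (z / mon x0 δ)) = 1`, so `V0.valuation (z / mon x0 δ) = 1`.
-/

open IsLocalRing

namespace TC
open Pool.Agent.Lib.MP_3029eb_ag Pool.Agent.Lib.MP_3029eb_ag.Abh

theorem emb3_T0 {k L : Type} [Field k] [IsAlgClosed k] [Field L] [Algebra k L] {p : ℕ}
    [Fact p.Prime] [CharP k p] (V : ValuationSubring L)
    (harch : ∀ a b : L, a ≠ 0 → V.valuation b < 1 →
      ∃ n : ℕ, V.valuation (b ^ n) ≤ V.valuation a)
    (hk : ∀ c : k, algebraMap k L c ∈ V) {r s : ℕ} (hr : 0 < r) (x : Fin r → L)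
    (hx : IndV V x)
    (hval : ∀ z : L, z ≠ 0 → ∃ m : Fin r → ℤ, V.valuation z = V.valuation (mon x m))
    (hs : TA.ResFG V hk s) (htr : Algebra.trdeg k L = ((r + s + 1 : ℕ) : Cardinal))
    (B : Subring L) (hB : B ≤ V.toSubring) (f : k →+* B)
    (hfk : ∀ c, (f c : L) = algebraMap k L c) (hf : EFT f)
    (hfrac : ∀ z : L, ∃ a ∈ B, ∃ b ∈ B, b ≠ 0 ∧ z * b = a) : EMB3 V B r := by
  let : Algebra k B := f.toAlgebra
  have : Algebra.EssFiniteType k B := hf
  have : IsScalarTower k B L := IsScalarTower.of_algebraMap_eq (fun c => (hfk c).symm)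
  have : IsFractionRing B L :=
    { map_units := by
        rintro ⟨b, hb⟩
        have hb0 : b ≠ 0 := nonZeroDivisors.ne_zero hb
        refine isUnit_iff_ne_zero.2 fun h => hb0 (Subtype.ext h)
      surj := by
        intro z
        obtain ⟨a, ha, b, hb, hb0, hzb⟩ := hfrac z
        refine ⟨(⟨a, ha⟩, ⟨⟨b, hb⟩, ?_⟩), hzb⟩
        exact mem_nonZeroDivisors_of_ne_zero fun h => hb0 (congrArg Subtype.val h)
      exists_of_eq := by
        intro x y hxy
        exact ⟨1, by rw [Subtype.ext hxy]⟩ }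
  have h := TA.ta_val B k L V harch hk (fun a => hB a.2) r s hr x hx.ne
    (fun m hm => hx.indep m hm) hval hs htr
  have hrange : (algebraMap B L).range = B := by
    ext z
    constructor
    · rintro ⟨b, rfl⟩
      exact b.2
    · intro hz
      exact ⟨⟨z, hz⟩, rfl⟩
  rw [hrange] at h
  exact EMB3_of_EMB2 h

theorem emb3_T {k L : Type} [Field k] [IsAlgClosed k] [Field L] [Algebra k L] {p : ℕ}
    [Fact p.Prime] [CharP k p] (V : ValuationSubring L)
    (harch : ∀ a b : L, a ≠ 0 → V.valuation b < 1 →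
      ∃ n : ℕ, V.valuation (b ^ n) ≤ V.valuation a)
    (hk : ∀ c : k, algebraMap k L c ∈ V) {r s : ℕ} (hr : 0 < r) (x : Fin r → L)
    (hx : IndV V x)
    (hval : ∀ z : L, z ≠ 0 → ∃ m : Fin r → ℤ, V.valuation z = V.valuation (mon x m))
    (hs : TA.ResFG V hk s) (htr : Algebra.trdeg k L = ((r + s + 1 : ℕ) : Cardinal))
    (B : Subring L) (hB : B ≤ V.toSubring) (hloc : locV V B = B) (f : k →+* B)
    (hfk : ∀ c, (f c : L) = algebraMap k L c) (hf : EFT f)
    (hxB : ∀ i, ∃ a ∈ B, ∃ b ∈ B, b ≠ 0 ∧ x i * b = a)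
    (hres : ∀ w ∈ V, ∃ a ∈ B, V.valuation (w - a) < 1)
    (z : Fin (r + s + 1) → L) (hz : AlgebraicIndependent k z)
    (hzB : ∀ i, ∃ a ∈ B, ∃ b ∈ B, b ≠ 0 ∧ z i * b = a) : EMB3 V B r := by
  obtain ⟨L0, iF, iA, φ, V0, hk0, B0, f0, x0, h1, h2, h3, h4, h5, h6, h7, h8, h9, h10, h11,
    h12⟩ := restrict_data V hk B hB hloc f hfk hf x hxB hs hres z hz hzB htr
  have hne : ∀ z : L0, z ≠ 0 → φ z ≠ 0 := fun z hz h => hz ((map_eq_zero φ).1 h)
  have hlt : ∀ z, V0.valuation z < 1 ↔ V.valuation (φ z) < 1 := by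
    intro z
    constructor
    · intro h1'
      have h2' : φ z ∈ V := (h1 z).1 ((V0.valuation_le_one_iff z).1 h1'.le)
      exact lt_of_le_of_ne ((V.valuation_le_one_iff _).2 h2') fun h3 => h1'.ne ((h2 z).2 h3)
    · intro h1'
      have h2' : z ∈ V0 := (h1 z).2 ((V.valuation_le_one_iff _).1 h1'.le)
      exact lt_of_le_of_ne ((V0.valuation_le_one_iff _).2 h2') fun h3 => h1'.ne ((h2 z).1 h3)
  have H : EMB3 V0 B0 r := by
    refine emb3_T0 (p := p) V0 ?_ hk0 hr x0 ?_ ?_ h11 h12 B0 h6 f0 h8 h9 h4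
    · intro a b ha hb
      obtain ⟨n, hn⟩ := harch (φ a) (φ b) (hne a ha) ((hlt b).1 hb)
      refine ⟨n, ?_⟩
      have h13 : V.valuation (φ (b ^ n / a)) ≤ 1 := by
        have h14 : 0 < V.valuation (φ a) := zero_lt_iff.2 ((Valuation.ne_zero_iff _).2 (hne a ha))
        rw [map_div₀, map_pow, map_div₀, div_le_one₀ h14]
        exact hn
      have h15 : V0.valuation (b ^ n / a) ≤ 1 :=
        (V0.valuation_le_one_iff _).2 ((h1 _).2 ((V.valuation_le_one_iff _).1 h13))
      have h14 : 0 < V0.valuation a := zero_lt_iff.2 ((Valuation.ne_zero_iff _).2 ha)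
      rw [map_div₀, div_le_one₀ h14] at h15
      exact h15
    · refine ⟨fun i h => hx.ne i (by rw [← h10 i, h, map_zero]), fun δ hδ => hx.indep δ ?_⟩
      have h13 := (h2 _).1 hδ
      have h14 : φ (mon x0 δ) = mon x δ := by
        have h15 := map_monF (φ : L0 →+* L) x0 δ
        have h16 : (fun i => (φ : L0 →+* L) (x0 i)) = x := funext h10
        rw [h16] at h15
        exact h15
      rwa [h14] at h13
    · intro z hz
      obtain ⟨m, hm⟩ := hval (φ z) (hne z hz)
      refine ⟨m, ?_⟩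
      have h14 : φ (mon x0 m) = mon x m := by
        have h15 := map_monF (φ : L0 →+* L) x0 m
        have h16 : (fun i => (φ : L0 →+* L) (x0 i)) = x := funext h10
        rw [h16] at h15
        exact h15
      have hx0 : ∀ i, x0 i ≠ 0 := fun i h => hx.ne i (by rw [← h10 i, h, map_zero])
      have hm0 : mon x0 m ≠ 0 := Finset.prod_ne_zero_iff.2 fun i _ => zpow_ne_zero _ (hx0 i)
      have h17 : V.valuation (φ (z / mon x0 m)) = 1 := by
        rw [map_div₀, map_div₀, h14, hm, div_self]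
        rw [← h14]
        exact (Valuation.ne_zero_iff _).2 (hne _ hm0)
      have h18 := (h2 _).2 h17
      rw [map_div₀, div_eq_one_iff_eq ((Valuation.ne_zero_iff _).2 hm0)] at h18
      exact h18
  exact EMB3_map (φ : L0 →+* L) V V0 h1 h2 B B0 h3 h4 h5 H

end TC
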