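import Pool.Agent.Lib.TC.Defs

/-!
# Module TC.Reg: the local ring of `GoodPar3` is regular

PROOF.  `A` is a local ring (`A2_isLocal`) whose units are the elements of value one, noetherian.  Its
maximal ideal is the span of the `r + h` elements `u i, w j` (`gen`), so
`(maximalIdeal A).spanFinrank ≤ r + h ≤ ringKrullDim A`; hence `A` is regular
(`IsRegularLocalRing.of_spanFinrank_maximalIdeal_le`) and the dimension is `r + h`
(`ringKrullDim_le_spanFinrank_maximalIdeal`).
-/

open IsLocalRing

namespace TC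
open Pool.Agent.Lib.MP_3029eb_ag Pool.Agent.Lib.MP_3029eb_ag.Abh

theorem GoodPar3.regular {K : Type} [Field K] {V : ValuationSubring K} {A0 A : Subring K}
    [IsNoetherianRing A] (hA : A ≤ V.toSubring) (hloc : locV V A = A) {r h : ℕ} {u : Fin r → K}
    {w : Fin h → K} (hG : GoodPar3 V A0 A u w) :
    IsRegularLocalRing A ∧ ringKrullDim A = (((r + h : ℕ) : ℕ∞) : WithBot ℕ∞) := by
  have hL : IsLocalRing A := A2_isLocal V hA hloc
  let v : Fin r ⊕ Fin h → A := Sum.elim (fun i => ⟨u i, hG.mem i⟩) (fun j => ⟨w j, hG.wmem j⟩)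
  have hmax : maximalIdeal A = Ideal.span (Set.range v) := by
    apply le_antisymm
    · intro z hz
      rw [A2_mem_maximalIdeal V hA hloc] at hz
      obtain ⟨c, d, hc, hd, hs⟩ := hG.gen z z.2 hz
      have hz2 : z = ∑ i, (⟨c i, hc i⟩ : A) * v (Sum.inl i) +
          ∑ j, (⟨d j, hd j⟩ : A) * v (Sum.inr j) := by
        apply Subtype.ext
        rw [Subring.coe_add, AddSubmonoidClass.coe_finsetSum, AddSubmonoidClass.coe_finsetSum, hs]
        rfl
      rw [hz2]
      refine Ideal.add_mem _ (Ideal.sum_mem _ fun i _ => Ideal.mul_mem_left _ _ ?_)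
        (Ideal.sum_mem _ fun j _ => Ideal.mul_mem_left _ _ ?_)
      · exact Ideal.subset_span ⟨Sum.inl i, rfl⟩
      · exact Ideal.subset_span ⟨Sum.inr j, rfl⟩
    · rw [Ideal.span_le]
      rintro _ ⟨i | j, rfl⟩
      · rw [SetLike.mem_coe, A2_mem_maximalIdeal V hA hloc]
        exact hG.lt i
      · rw [SetLike.mem_coe, A2_mem_maximalIdeal V hA hloc]
        exact hG.wlt j
  have hfr : (maximalIdeal A).spanFinrank ≤ r + h := by
    rw [hmax]
    have h1 : (Ideal.span (Set.range v) : Ideal A).spanFinrank ≤ (Set.range v).ncard :=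
      Submodule.spanFinrank_span_le_ncard_of_finite (Set.finite_range v)
    have h2 : (Set.range v).ncard ≤ r + h := by
      have := Set.ncard_image_le (f := v) (s := Set.univ) Set.finite_univ
      rwa [Set.image_univ, Set.ncard_univ, Nat.card_eq_fintype_card, Fintype.card_sum,
        Fintype.card_fin, Fintype.card_fin] at this
    exact h1.trans h2
  have hfr' : ((maximalIdeal A).spanFinrank : WithBot ℕ∞) ≤ ((r + h : ℕ) : WithBot ℕ∞) := by
    exact_mod_cast hfr
  refine ⟨IsRegularLocalRing.of_spanFinrank_maximalIdeal_le A (hfr'.trans hG.dim), ?_⟩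
  have hd := le_antisymm ((ringKrullDim_le_spanFinrank_maximalIdeal A).trans hfr') hG.dim
  rw [hd]
  rfl

end TC
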