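import Pool.Agent.Lib.TC.Comp
import Pool.Agent.Lib.TC.Trans
import Pool.Agent.Lib.TC.Gen
import Pool.Agent.Lib.TC.ResIso

/-!
# Module TC.StepR: steps over a field k with finitely generated residue field

The residual valuation is only required to be uniformizable over local rings `B` which are large enough
(hypothesis `P`).

PROOF.  `Rb = k`, `φ = algebraMap k K`.  Let `A ≤ V` be as in `Unif`.  Let `g` be the finite set consisting of: `G` of
`exists_res_gens hs`, the `w i` of `exists_tr_lifts h hk1 ht`, and for each `i` the element `x i` or `(x i)⁻¹` lying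
in `V`.  All are in `V` and fractions of elements of `A` (`hfrac`).  Replace `A` by `A' = locV V (closure (A ∪ g))`
(`EMB3_trans`; `EFT_locV`, `locV_locV`, fractions: as in the proof of `embAt_frac`, AbhE11.lean).  `EMB3_comp h A'`:
* coarser valuation: `H (locV V1 A')` (`EFT_locV'`, `locV_le`, `locV_locV`, fractions);
* residual valuation: `A1 = locV V (closure (A' ∪ g1))`, `B = im V1 A1`, `f1 : k →+* A1` the composite of `f` and the
  inclusions, `fB = (toIm V1 A1 _).comp f1`: `EFT fB` (`EFT_locV`, `EFT_comp_surjective`, `toIm_surjective`),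
  `fB c = resMap V1 hk1 c` (both are the residue of `algebraMap k K c`); `B ≤ V'` (`im_le_resV`), `locV V' B = B`
  (`locV_im`).  Apply `P B`:
  - `rs V1 (x i)` or its inverse is in `B` (`mem_im_iff`, `rs_inv`), so it is a fraction of elements of `B`;
  - residues: let `w' ∈ V'`, `w' = rs V1 w` with `w ∈ V` (`C1_mem_resV`, `rs_coe`); `a ∈ A1` with
    `V.valuation (w - a) < 1` (`exists_res_gens` for `B := A1`: contains `k` and `G`, local); then
    `rs V1 a ∈ B` and `V'(w' - rs V1 a) = V'(rs V1 (w - a)) < 1` (`rs_sub`, `rs_resV_lt`);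
  - the transcendence basis `z` of `exists_tr_lifts`: `z i` or `(z i)⁻¹` is `rs V1 (w i) ∈ B`;
    `AlgebraicIndependent` is `IsTranscendenceBasis.1`.
-/

open IsLocalRing

namespace TC
open Pool.Agent.Lib.MP_3029eb_ag Pool.Agent.Lib.MP_3029eb_ag.Abh

theorem unif_R {k K : Type} [Field k] [Field K] [Algebra k K] {V V1 : ValuationSubring K}
    (h : V ≤ V1) (hk1 : ∀ c : k, algebraMap k K c ∈ V1) (hk : ∀ c : k, algebraMap k K c ∈ V)
    {r s t : ℕ} (x : Fin r → K) (hx1 : ∀ i, V1.valuation (x i) = 1)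
    (hs : TA.ResFG V hk s)
    (ht : letI := (TA.resMap V1 hk1).toAlgebra
      Algebra.trdeg k (ResidueField V1) = ((t : ℕ) : Cardinal))
    (P : ∀ (B : Subring (ResidueField V1)), B ≤ (resV V V1 h).toSubring →
      locV (resV V V1 h) B = B → ∀ f : k →+* B,
      (∀ c, (f c : ResidueField V1) = TA.resMap V1 hk1 c) → EFT f →
      (∀ i, ∃ a ∈ B, ∃ b ∈ B, b ≠ 0 ∧ rs V1 (x i) * b = a) →
      (∀ w ∈ resV V V1 h, ∃ a ∈ B, (resV V V1 h).valuation (w - a) < 1) →
      (∃ z : Fin t → ResidueField V1,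
        (letI := (TA.resMap V1 hk1).toAlgebra; AlgebraicIndependent k z) ∧
        ∀ i, ∃ a ∈ B, ∃ b ∈ B, b ≠ 0 ∧ z i * b = a) →
      EMB3 (resV V V1 h) B r)
    {r1 : ℕ} (H : Unif (algebraMap k K) V1 r1) : Unif (algebraMap k K) V (r1 + r) := by
  classical
  intro A hA hloc f hfφ hf hfrac
  obtain ⟨G, hGV, hG⟩ := exists_res_gens hs
  obtain ⟨z, w, hz, hwV, hwz⟩ := exists_tr_lifts h hk1 ht
  -- the elements to adjoin
  have hxx : ∀ i, ∃ t : K, t ∈ V ∧ (t = x i ∨ t = (x i)⁻¹) := by
    intro i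
    rcases V.mem_or_inv_mem (x i) with h | h
    · exact ⟨_, h, Or.inl rfl⟩
    · exact ⟨_, h, Or.inr rfl⟩
  choose x' hx'V hx' using hxx
  set g : Finset K := G ∪ (Finset.univ.image w ∪ Finset.univ.image x') with hg
  have hgV : ∀ t ∈ g, t ∈ V ∧ ∃ a ∈ A, ∃ b ∈ A, b ≠ 0 ∧ t * b = a := by
    intro t ht
    refine ⟨?_, hfrac t⟩
    rcases Finset.mem_union.1 ht with ht | ht
    · exact hGV t ht
    rcases Finset.mem_union.1 ht with ht | ht
    · obtain ⟨j, _, rfl⟩ := Finset.mem_image.1 ht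
      exact hwV j
    · obtain ⟨i, _, rfl⟩ := Finset.mem_image.1 ht
      exact hx'V i
  refine EMB3_trans V A g hgV ?_ hA
  have hcl : Subring.closure ((A : Set K) ∪ (g : Set K)) ≤ V.toSubring :=
    closure_le_val V A hA _ fun t ht => (hgV t ht).1
  have hA' : locV V (Subring.closure ((A : Set K) ∪ (g : Set K))) ≤ V.toSubring :=
    locV_le _ hcl
  have hloc' := locV_locV V (Subring.closure ((A : Set K) ∪ (g : Set K)))
  have hAA' : A ≤ locV V (Subring.closure ((A : Set K) ∪ (g : Set K))) :=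
    fun a ha => le_locV _ _ (Subring.subset_closure (Or.inl ha))
  have hf' : ∃ f' : k →+* locV V (Subring.closure ((A : Set K) ∪ (g : Set K))), EFT f' ∧
      ∀ c, (f' c : K) = algebraMap k K c :=
    ⟨_, EFT_locV V A f hf g (Subring.inclusion hAA') (fun a => rfl), fun c => hfφ c⟩
  have hgA' : ∀ t ∈ g, t ∈ locV V (Subring.closure ((A : Set K) ∪ (g : Set K))) := fun t ht =>
    le_locV _ _ (Subring.subset_closure (Or.inr ht))
  generalize locV V (Subring.closure ((A : Set K) ∪ (g : Set K))) = A' at *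
  obtain ⟨f', hf', hf'φ⟩ := hf'
  have nA' : IsNoetherianRing A' := hf'.isNoetherianRing
  have hfrac' : ∀ z : K, ∃ a ∈ A', ∃ b ∈ A', b ≠ 0 ∧ z * b = a := by
    intro z
    obtain ⟨a, ha, b, hb, hb0, h⟩ := hfrac z
    exact ⟨a, hAA' ha, b, hAA' hb, hb0, h⟩
  have hA'V1 : A' ≤ V1.toSubring := hA'.trans h
  refine EMB3_comp h A' hA' ?_ ?_
  · -- the coarser valuation
    refine H (locV V1 A') (locV_le _ hA'V1) (locV_locV _ _)
      ((Subring.inclusion (le_locV V1 A')).comp f') (fun c => hf'φ c)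
      (EFT_locV' V1 A' f' hf' (Subring.inclusion (le_locV V1 A')) (fun a => rfl)) ?_
    intro z
    obtain ⟨a, ha, b, hb, hb0, h⟩ := hfrac' z
    exact ⟨a, le_locV _ _ ha, b, le_locV _ _ hb, hb0, h⟩
  · -- the residual valuation
    intro g1 hg1
    have hcl1 : Subring.closure ((A' : Set K) ∪ (g1 : Set K)) ≤ V.toSubring :=
      closure_le_val V A' hA' _ fun t ht => (hg1 t ht).1
    have hA1V : locV V (Subring.closure ((A' : Set K) ∪ (g1 : Set K))) ≤ V.toSubring :=
      locV_le V hcl1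
    have hAA1 : A' ≤ locV V (Subring.closure ((A' : Set K) ∪ (g1 : Set K))) :=
      fun a ha => le_locV V _ (Subring.subset_closure (Or.inl ha))
    have hf1 : EFT ((Subring.inclusion hAA1).comp f') :=
      EFT_locV V A' f' hf' g1 (Subring.inclusion hAA1) (fun a => rfl)
    have hA1l := locV_locV V (Subring.closure ((A' : Set K) ∪ (g1 : Set K)))
    have hf1φ : ∀ c, (((Subring.inclusion hAA1).comp f') c : K) = algebraMap k K c :=
      fun c => hf'φ c
    generalize (Subring.inclusion hAA1).comp f' = f1 at *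
    have hgA1 : ∀ t ∈ g, t ∈ locV V (Subring.closure ((A' : Set K) ∪ (g1 : Set K))) :=
      fun t ht => hAA1 (hgA' t ht)
    generalize locV V (Subring.closure ((A' : Set K) ∪ (g1 : Set K))) = A1 at *
    have hA1V1 : A1 ≤ V1.toSubring := hA1V.trans h
    have hkA1 : ∀ c : k, algebraMap k K c ∈ A1 := fun c => by
      rw [← hf1φ c]
      exact (f1 c).2
    refine P (im V1 A1) (im_le_resV h _ hA1V) (locV_im h _ hA1V hA1l)
      ((toIm V1 A1 hA1V1).comp f1) ?_ (EFT_comp_surjective _ _ hf1 (toIm_surjective V1 _ _))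
      ?_ ?_ ⟨z, hz.1, ?_⟩
    · -- the constants
      intro c
      show residue V1 ⟨(f1 c : K), hA1V1 (f1 c).2⟩ =
        residue V1 ⟨algebraMap k K c, hk1 c⟩
      congr 1
      exact Subtype.ext (hf1φ c)
    · -- the elements `x i`
      intro i
      have h1 : x' i ∈ A1 := by
        refine hgA1 _ ?_
        rw [hg]
        exact Finset.mem_union_right _ (Finset.mem_union_right _
          (Finset.mem_image_of_mem _ (Finset.mem_univ _)))
      rcases hx' i with h2 | h2
      · rw [h2] at h1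
        exact ⟨rs V1 (x i), (mem_im_iff hA1V1 _).2 ⟨_, h1, rfl⟩, 1, one_mem _, one_ne_zero,
          mul_one _⟩
      · rw [h2] at h1
        refine ⟨1, one_mem _, rs V1 (x i)⁻¹, (mem_im_iff hA1V1 _).2 ⟨_, h1, rfl⟩, ?_, ?_⟩
        · rw [rs_inv (hx1 i)]
          exact inv_ne_zero (rs_ne_zero (hx1 i))
        · rw [rs_inv (hx1 i), mul_inv_cancel₀ (rs_ne_zero (hx1 i))]
    · -- residues
      intro w' hw'
      obtain ⟨u, hu, rfl⟩ := (C1_mem_resV h w').1 hw'
      obtain ⟨a, ha, hlt⟩ := hG A1 hkA1 (fun t ht => hgA1 t (by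
        rw [hg]
        exact Finset.mem_union_left _ ht)) hA1l (u : K) hu
      refine ⟨rs V1 a, (mem_im_iff hA1V1 _).2 ⟨_, ha, rfl⟩, ?_⟩
      rw [← rs_coe, ← rs_sub u.2 (hA1V1 ha)]
      exact (rs_resV_lt h (sub_mem hu (hA1V ha))).2 hlt
    · -- the transcendence basis
      intro i
      have h1 : w i ∈ A1 := by
        refine hgA1 _ ?_
        rw [hg]
        exact Finset.mem_union_right _ (Finset.mem_union_left _
          (Finset.mem_image_of_mem _ (Finset.mem_univ _)))
      have h2 : rs V1 (w i) ∈ im V1 A1 := (mem_im_iff hA1V1 _).2 ⟨_, h1, rfl⟩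
      rcases hwz i with h3 | h3
      · rw [h3] at h2
        exact ⟨z i, h2, 1, one_mem _, one_ne_zero, mul_one _⟩
      · rw [h3] at h2
        have hz0 : z i ≠ 0 := by
          let := (TA.resMap V1 hk1).toAlgebra
          exact hz.1.ne_zero i
        exact ⟨1, one_mem _, (z i)⁻¹, h2, inv_ne_zero hz0, mul_inv_cancel₀ hz0⟩

end TC
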