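import Pool.Agent.Lib.TC.StepR
import Pool.Agent.Lib.TC.Tr
import Pool.Agent.Lib.TC.PieceT
import Pool.Agent.Lib.TC.PieceE

/-!
# Module TC.StepT: steps of transcendence defect one

PROOFS: `unif_R` with `t = r + s + 1` (`s = 0` and `t = r + 1` for `unif_E`); the hypothesis `P` is `emb3_T`,
`emb3_E` for `L = ResidueField V1` with the `k`-algebra structure `(TA.resMap V1 hk1).toAlgebra` and
`V' = resV V V1 h`: `tr_arch`, `tr_ind`, `tr_gen`, `tr_rank` (TC.Tr), `resFG_resV` and `const_mem_resV` (TC.ResIso).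
For `unif_E`: `TA.ResFG V hk 0` from `res_zero`; `hres'` for `V'`: `w' = rs V1 w`, `w ∈ V`
(`C1_mem_resV`, `rs_coe`), `V.valuation (w - c) < 1`, `rs_sub`, `rs_resV_lt`.
-/

open IsLocalRing

namespace TC
open Pool.Agent.Lib.MP_3029eb_ag Pool.Agent.Lib.MP_3029eb_ag.Abh

theorem unif_T {k K : Type} [Field k] [IsAlgClosed k] [Field K] [Algebra k K] {p : ℕ}
    [Fact p.Prime] [CharP k p] {V V1 : ValuationSubring K}
    (h : V ≤ V1) (hk1 : ∀ c : k, algebraMap k K c ∈ V1) (hk : ∀ c : k, algebraMap k K c ∈ V)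
    (harch : ∀ a b : K, V1.valuation a = 1 → V1.valuation b = 1 → V.valuation b < 1 →
      ∃ n : ℕ, V.valuation (b ^ n) ≤ V.valuation a)
    {r s : ℕ} (hr : 0 < r) (x : Fin r → K) (hx1 : ∀ i, V1.valuation (x i) = 1)
    (hx : ∀ δ : Fin r → ℤ, V.valuation (mon x δ) = 1 → δ = 0)
    (hgen : ∀ z : K, V1.valuation z = 1 →
      ∃ δ : Fin r → ℤ, V.valuation z = V.valuation (mon x δ))
    (hs : TA.ResFG V hk s)
    (ht : letI := (TA.resMap V1 hk1).toAlgebra
      Algebra.trdeg k (ResidueField V1) = ((r + s + 1 : ℕ) : Cardinal))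
    {r1 : ℕ} (H : Unif (algebraMap k K) V1 r1) : Unif (algebraMap k K) V (r1 + r) := by
  refine unif_R h hk1 hk (t := r + s + 1) x hx1 hs ht ?_ H
  intro B hB hloc f hfk hf hx' hres hz
  letI := (TA.resMap V1 hk1).toAlgebra
  obtain ⟨z, hz1, hz2⟩ := hz
  exact emb3_T (p := p) (resV V V1 h) (tr_arch h harch) (const_mem_resV h hk hk1) hr
    (fun i => rs V1 (x i)) (tr_ind h hx1 hx) (tr_gen h hx1 hgen) (resFG_resV h hk hk1 hs) ht
    B hB hloc f hfk hf hx' hres z hz1 hz2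

theorem unif_E {k K : Type} [Field k] [IsAlgClosed k] [Field K] [Algebra k K] {p : ℕ}
    [Fact p.Prime] [CharP k p] {V V1 : ValuationSubring K}
    (h : V ≤ V1) (hk1 : ∀ c : k, algebraMap k K c ∈ V1) (hk : ∀ c : k, algebraMap k K c ∈ V)
    (harch : ∀ a b : K, V1.valuation a = 1 → V1.valuation b = 1 → V.valuation b < 1 →
      ∃ n : ℕ, V.valuation (b ^ n) ≤ V.valuation a)
    (hres : ∀ z ∈ V, ∃ c : k, V.valuation (z - algebraMap k K c) < 1)
    {r : ℕ} (hr : 0 < r) (x : Fin r → K) (hx1 : ∀ i, V1.valuation (x i) = 1)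
    (hx : ∀ δ : Fin r → ℤ, V.valuation (mon x δ) = 1 → δ = 0)
    (hrank : ∀ z : Fin (r + 1) → K, (∀ i, V1.valuation (z i) = 1) →
      ∃ m : Fin (r + 1) → ℤ, m ≠ 0 ∧ V.valuation (mon z m) = 1)
    (ht : letI := (TA.resMap V1 hk1).toAlgebra
      Algebra.trdeg k (ResidueField V1) = ((r + 1 : ℕ) : Cardinal))
    {r1 : ℕ} (H : Unif (algebraMap k K) V1 r1) : Unif (algebraMap k K) V (r1 + r) := by
  refine unif_R h hk1 hk (s := 0) (t := r + 1) x hx1 (res_zero V hk hres) ht ?_ H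
  intro B hB hloc f hfk hf hx' _ hz
  letI := (TA.resMap V1 hk1).toAlgebra
  obtain ⟨z, hz1, hz2⟩ := hz
  refine emb3_E (p := p) (resV V V1 h) (tr_arch h harch) (const_mem_resV h hk hk1) ?_ hr
    (fun i => rs V1 (x i)) (tr_ind h hx1 hx) (tr_rank h hrank) ht
    B hB hloc f hfk hf hx' z hz1 hz2
  intro z' hz'
  obtain ⟨u, hu, hur⟩ := (C1_mem_resV h z').1 hz'
  obtain ⟨c, hc⟩ := hres (u : K) hu
  refine ⟨c, ?_⟩
  have e1 : algebraMap k (ResidueField V1) c = rs V1 (algebraMap k K c) := (rs_eq (hk1 c)).symm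
  have e2 : z' - algebraMap k (ResidueField V1) c = rs V1 ((u : K) - algebraMap k K c) := by
    rw [rs_sub u.2 (hk1 c), rs_coe, hur, e1]
  rw [e2]
  exact (rs_resV_lt h (V.toSubring.sub_mem hu (hk c))).2 hc

end TC
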